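import Pool.Agent.Helper5.WB.Defs
import Pool.Agent.Helper19.V4.GaussQ

/-!
# WB-3: from additive to multiplicative characters, common factors

`n = g m`, `g = gcd(n, q)`: then `gcd(m, q/g) = 1`, `μ(g m) = μ(g) μ(m)` if `gcd(m, g) = 1`, else `0`; so `m` is coprime to `q`
(`q = g (q/g)`), `e(a n/q) = e(a m/r)`, `r = q/g`. `GaussQ.ex_char` and `GaussQ.gauss_le` (for `χ⁻¹`) expand `e(a m/r)`. For `q` and a divisor `g`
the numbers `n ≤ X` with `gcd(n, q) = g` correspond to `m ≤ X/g` with `gcd(m, r) = 1`. No condition on `w`.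
-/

set_option autoImplicit false

namespace Pool.Helper5.WB

open ArithmeticFunction Finset
open Pool.Helper19.V4 Pool.Helper19.V5
open Pool.Agent.Helper25.HM (nt)
open Pool.Agent.Helper25.WL (PR)
open Pool.Agent.Helper88.WS (wt)

/-- the sum over the common factor -/
lemma sum_gcd (F : ℕ → ℂ) {q : ℕ} (hq : 1 ≤ q) (X : ℕ) :
    ∑ n ∈ Icc 1 X, F n = ∑ g ∈ q.divisors, ∑ m ∈ Icc 1 (X / g), if Nat.gcd (g * m) q = g then F (g * m) else 0 := by
  classical
  have h1 : ∀ n ∈ Icc 1 X, F n = ∑ g ∈ q.divisors, if Nat.gcd n q = g then F n else 0 := by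
    intro n _
    rw [Finset.sum_ite_eq, if_pos]
    rw [Nat.mem_divisors]
    exact ⟨Nat.gcd_dvd_right _ _, by omega⟩
  rw [Finset.sum_congr rfl h1, Finset.sum_comm]
  refine Finset.sum_congr rfl fun g hg => ?_
  have hg1 : 0 < g := Nat.pos_of_mem_divisors hg
  symm
  refine Finset.sum_of_injOn (fun m => g * m) ?_ ?_ ?_ ?_
  · intro m _ n _ h
    exact Nat.eq_of_mul_eq_mul_left hg1 h
  · intro m hm
    rw [Finset.mem_coe, Finset.mem_Icc] at hm
    rw [Finset.mem_coe, Finset.mem_Icc]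
    refine ⟨Nat.mul_pos hg1 hm.1, ?_⟩
    have := (Nat.le_div_iff_mul_le hg1).1 hm.2
    rw [mul_comm] at this
    exact this
  · intro n hn hn'
    rw [Finset.mem_Icc] at hn
    split_ifs with h
    · exfalso
      apply hn'
      have : g ∣ n := by
        rw [← h]
        exact Nat.gcd_dvd_left n q
      obtain ⟨m, rfl⟩ := this
      refine ⟨m, ?_, rfl⟩
      rw [Finset.mem_coe, Finset.mem_Icc]
      constructor
      · rcases Nat.eq_zero_or_pos m with h0 | h0
        · rw [h0, mul_zero] at hn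
          omega
        · exact h0
      · rw [Nat.le_div_iff_mul_le hg1, mul_comm]
        exact hn.2
    · rfl
  · intro m _
    rfl

/-- the Moebius function at `g m` -/
lemma moebius_gm {g m q : ℕ} (hg : g ∣ q) :
    (if Nat.gcd (g * m) q = g then ((ArithmeticFunction.moebius (g * m) : ℤ) : ℂ) else 0) =
      ((ArithmeticFunction.moebius g : ℤ) : ℂ) * mc q m := by
  unfold mc
  by_cases hm : m.Coprime q
  · have h1 : Nat.Coprime g m := (Nat.Coprime.coprime_dvd_right hg hm).symm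
    have h2 : Nat.gcd (g * m) q = g := by
      rw [Nat.Coprime.gcd_mul_right_cancel g hm]
      exact Nat.gcd_eq_left hg
    rw [if_pos h2, if_pos hm, ArithmeticFunction.isMultiplicative_moebius.map_mul_of_coprime h1]
    push_cast
    rfl
  · rw [if_neg hm, mul_zero]
    split_ifs with h
    · obtain ⟨p, hp, hpm, hpq⟩ := Nat.Prime.not_coprime_iff_dvd.1 hm
      have h3 : p ∣ g := by
        rw [← h]
        exact Nat.dvd_gcd (Dvd.dvd.mul_left hpm g) hpq
      have h4 : ¬ Squarefree (g * m) := by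
        intro hs
        have h5 : p * p ∣ g * m := Nat.mul_dvd_mul h3 hpm
        exact hp.one_lt.ne' (Nat.isUnit_iff.1 (hs p h5))
      rw [ArithmeticFunction.moebius_eq_zero_of_not_squarefree h4]
      simp
    · rfl

theorem gcd_exp {q : ℕ} [NeZero q] {a : ℤ} (ha : IsCoprime a (q : ℤ)) (w : ℕ → ℂ) (X : ℕ) (S : ℕ → ℝ)
    (hS : ∀ (g r : ℕ) [NeZero r], g * r = q →
      ∑ χ : DirichletCharacter ℂ r, ‖∑ m ∈ Icc 1 (X / g), mc q m * w (g * m) * χ (m : ZMod r)‖ ≤ S g) :
    ‖∑ n ∈ Icc 1 X, ((ArithmeticFunction.moebius n : ℤ) : ℂ) * w n * ex ((a : ℝ) * n / q)‖ ≤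
      ∑ g ∈ q.divisors, Real.sqrt ((q / g : ℕ) : ℝ) / (Nat.totient (q / g) : ℝ) * S g := by
  classical
  have hq : 1 ≤ q := Nat.one_le_iff_ne_zero.2 (NeZero.ne q)
  rw [sum_gcd _ hq]
  refine (norm_sum_le _ _).trans (Finset.sum_le_sum fun g hg => ?_)
  have hgq : g ∣ q := Nat.dvd_of_mem_divisors hg
  have hg0 : 0 < g := Nat.pos_of_mem_divisors hg
  obtain ⟨r, hr⟩ : ∃ r : ℕ, r = q / g := ⟨_, rfl⟩
  have hgr : g * r = q := by rw [hr]; exact Nat.mul_div_cancel' hgq
  have hr0 : 0 < r := by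
    rcases Nat.eq_zero_or_pos r with h | h
    · rw [h, mul_zero] at hgr
      omega
    · exact h
  have : NeZero r := ⟨hr0.ne'⟩
  rw [← hr]
  have hgR : (0 : ℝ) < g := by exact_mod_cast hg0
  have hrR : (0 : ℝ) < r := by exact_mod_cast hr0
  have hqR : (q : ℝ) = g * r := by rw [← hgr]; push_cast; rfl
  have hbr : IsCoprime a (r : ℤ) := by
    have h1 : ((r : ℕ) : ℤ) ∣ (q : ℤ) := by
      rw [← hgr]
      push_cast
      exact Dvd.intro_left _ rfl
    exact IsCoprime.of_isCoprime_of_dvd_right ha h1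
  obtain ⟨G, hG⟩ : ∃ G : DirichletCharacter ℂ r → ℂ, G = fun χ =>
    ∑ v : (ZMod r)ˣ, (χ⁻¹) (v : ZMod r) * ex ((a : ℝ) * ((v : ZMod r).val : ℝ) / r) := ⟨_, rfl⟩
  have hGb : ∀ χ, ‖G χ‖ ≤ Real.sqrt r := by
    intro χ
    rw [hG]
    exact gauss_le hbr χ⁻¹
  have hterm : ∀ m ∈ Icc 1 (X / g), (if Nat.gcd (g * m) q = g then ((ArithmeticFunction.moebius (g * m) : ℤ) : ℂ) * w (g * m) *
      ex ((a : ℝ) * ((g * m : ℕ) : ℝ) / q) else 0) = ∑ χ : DirichletCharacter ℂ r, (((ArithmeticFunction.moebius g : ℤ) : ℂ) *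
        (r.totient : ℂ)⁻¹ * G χ) * (mc q m * w (g * m) * χ (m : ZMod r)) := by
    intro m _
    have e0 : (if Nat.gcd (g * m) q = g then ((ArithmeticFunction.moebius (g * m) : ℤ) : ℂ) * w (g * m) *
      ex ((a : ℝ) * ((g * m : ℕ) : ℝ) / q) else 0) = (if Nat.gcd (g * m) q = g then ((ArithmeticFunction.moebius (g * m) : ℤ) : ℂ)
        else 0) * (w (g * m) * ex ((a : ℝ) * ((g * m : ℕ) : ℝ) / q)) := by
      split_ifs <;> ring
    rw [e0, moebius_gm hgq]
    by_cases hm : m.Coprime q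
    · have hmr : m.Coprime r := by
        rw [← hgr] at hm
        exact Nat.Coprime.coprime_mul_left_right hm
      have e1 : (a : ℝ) * ((g * m : ℕ) : ℝ) / q = (a : ℝ) * m / r := by
        rw [hqR]
        push_cast
        field_simp
      rw [e1, ex_char a hmr]
      have e4 : ∀ χ : DirichletCharacter ℂ r, (((ArithmeticFunction.moebius g : ℤ) : ℂ) * (r.totient : ℂ)⁻¹ * G χ) *
          (mc q m * w (g * m) * χ (m : ZMod r)) =
          (((ArithmeticFunction.moebius g : ℤ) : ℂ) * mc q m * w (g * m) * (r.totient : ℂ)⁻¹) *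
            (χ (m : ZMod r) * ∑ v : (ZMod r)ˣ, (χ⁻¹) (v : ZMod r) * ex ((a : ℝ) * ((v : ZMod r).val : ℝ) / r)) := by
        intro χ
        rw [hG]
        ring
      rw [Finset.sum_congr rfl fun χ _ => e4 χ, ← Finset.mul_sum]
      ring
    · have e5 : mc q m = 0 := if_neg hm
      rw [e5, mul_zero, zero_mul]
      symm
      refine Finset.sum_eq_zero fun χ _ => ?_
      ring
  rw [Finset.sum_congr rfl hterm, Finset.sum_comm]
  refine (norm_sum_le _ _).trans ?_
  have hφ : (0 : ℝ) < r.totient := by exact_mod_cast Nat.totient_pos.2 hr0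
  have hall : ∀ χ ∈ (Finset.univ : Finset (DirichletCharacter ℂ r)),
      ‖∑ m ∈ Icc 1 (X / g), (((ArithmeticFunction.moebius g : ℤ) : ℂ) * (r.totient : ℂ)⁻¹ * G χ) *
        (mc q m * w (g * m) * χ (m : ZMod r))‖ ≤
      Real.sqrt r / r.totient * ‖∑ m ∈ Icc 1 (X / g), mc q m * w (g * m) * χ (m : ZMod r)‖ := by
    intro χ _
    rw [← Finset.mul_sum, norm_mul, norm_mul, norm_mul, norm_inv, Complex.norm_natCast]
    refine mul_le_mul_of_nonneg_right ?_ (norm_nonneg _)
    calc ‖((ArithmeticFunction.moebius g : ℤ) : ℂ)‖ * (r.totient : ℝ)⁻¹ * ‖G χ‖ ≤ 1 * (r.totient : ℝ)⁻¹ * Real.sqrt r := by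
          have := hGb χ
          have := norm_mu g
          gcongr
      _ = _ := by rw [one_mul, div_eq_inv_mul]
  refine (Finset.sum_le_sum hall).trans ?_
  rw [← Finset.mul_sum]
  exact mul_le_mul_of_nonneg_left (hS g r hgr) (by positivity)

end Pool.Helper5.WB
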