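import Pool.Agent.Helper5.WB.Defs
import Pool.Agent.Helper25.HM.K10

/-!
# WB-9: one box

`lp z q b` is supported in `n ≤ 2^{length} sz b ≤ X`, so (induction on `b`, compare `prod_char33` in `Helper19/V4/Char.lean`)
`∑_{m ≤ X} lp(m) χ(m) nt m u = ∏ KF(χ, u)`. With `K10.exp_repr` (`δ = 1/(2M)`, `β = 0`): `√m e^{-m/(2M)} = ∫ G(v) nt m (-v) dv`, so the sum is
`(1/M) ∫ G(v) ∏ KF(χ, t - v) dv`, and `|G(v)| ≤ √(2M) e^{-|v|/(2π)}` (`norm_G_le`, `cr = 1/(2π) > 1/7`).
-/

set_option autoImplicit false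

namespace Pool.Helper5.WB

open ArithmeticFunction Finset
open Pool.Helper19.V4 Pool.Helper19.V5
open Pool.Agent.Helper25.HM (nt)
open Pool.Agent.Helper25.WL (PR)
open Pool.Agent.Helper88.WS (wt)

private lemma mul_neB {f g : ArithmeticFunction ℂ} {n : ℕ} (h : (f * g) n ≠ 0) :
    ∃ x y : ℕ, x * y = n ∧ f x ≠ 0 ∧ g y ≠ 0 := by
  rw [ArithmeticFunction.mul_apply] at h
  obtain ⟨p, hp, hne⟩ := Finset.exists_ne_zero_of_sum_ne_zero h
  rw [Nat.mem_divisorsAntidiagonal] at hp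
  exact ⟨p.1, p.2, hp.1, left_ne_zero_of_mul hne, right_ne_zero_of_mul hne⟩

private lemma mul_compB (φ : ℕ → ℂ) (hφ : ∀ m n : ℕ, 1 ≤ m → 1 ≤ n → φ (m * n) = φ m * φ n)
    (f g : ArithmeticFunction ℂ) {A B X : ℕ}
    (hf : ∀ n, f n ≠ 0 → n ≤ A) (hg : ∀ n, g n ≠ 0 → n ≤ B) (hX : A * B ≤ X) :
    ∑ n ∈ Icc 1 X, (f * g) n * φ n = (∑ m ∈ Icc 1 A, f m * φ m) * ∑ n ∈ Icc 1 B, g n * φ n := by
  classical
  rw [Finset.sum_mul_sum, ← Finset.sum_product' (Icc 1 A) (Icc 1 B)
    fun m n => f m * φ m * (g n * φ n)]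
  have hmaps : ∀ p ∈ Icc 1 A ×ˢ Icc 1 B, p.1 * p.2 ∈ Icc 1 X := by
    intro p hp
    rw [mem_product, mem_Icc, mem_Icc] at hp
    rw [mem_Icc]
    exact ⟨Nat.one_le_iff_ne_zero.mpr (Nat.mul_ne_zero (by omega) (by omega)),
      (Nat.mul_le_mul hp.1.2 hp.2.2).trans hX⟩
  rw [← Finset.sum_fiberwise_of_maps_to hmaps]
  refine Finset.sum_congr rfl fun n hn => ?_
  rw [ArithmeticFunction.mul_apply, Finset.sum_mul]
  rw [mem_Icc] at hn
  have hsub : (Icc 1 A ×ˢ Icc 1 B).filter (fun p => p.1 * p.2 = n) ⊆ n.divisorsAntidiagonal := by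
    intro p hp
    rw [mem_filter] at hp
    rw [Nat.mem_divisorsAntidiagonal]
    exact ⟨hp.2, by omega⟩
  rw [← Finset.sum_subset hsub]
  · refine Finset.sum_congr rfl fun p hp => ?_
    rw [mem_filter, mem_product, mem_Icc, mem_Icc] at hp
    rw [← hp.2, hφ _ _ hp.1.1.1 hp.1.2.1]
    ring
  · intro p hp hnp
    rw [Nat.mem_divisorsAntidiagonal] at hp
    obtain ⟨h1, h2⟩ := hp
    have hx : p.1 ≠ 0 := fun h => h2 (by rw [← h1, h, zero_mul])
    have hy : p.2 ≠ 0 := fun h => h2 (by rw [← h1, h, mul_zero])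
    by_contra hne
    apply hnp
    rw [mem_filter, mem_product, mem_Icc, mem_Icc]
    refine ⟨⟨⟨by omega, hf _ fun h0 => hne ?_⟩, ⟨by omega, hg _ fun h0 => hne ?_⟩⟩, h1⟩
    · rw [h0, zero_mul, zero_mul]
    · rw [h0, mul_zero, zero_mul]

private lemma lp_cons (z q : ℕ) (a : Bool × ℕ) (b : List (Bool × ℕ)) :
    lp z q (a :: b) = fa a.1 z a.2 q * lp z q b := by
  unfold lp
  rw [List.map_cons, List.prod_cons]

private lemma lenB (a : Bool × ℕ) (b : List (Bool × ℕ)) :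
    2 ^ (a :: b).length * sz (a :: b) = 2 ^ (a.2 + 1) * (2 ^ b.length * sz b) := by
  unfold sz
  rw [List.length_cons, List.map_cons, List.prod_cons]
  ring

private lemma lp_supp (z q : ℕ) (b : List (Bool × ℕ)) : ∀ n : ℕ, lp z q b n ≠ 0 →
    n ≤ 2 ^ b.length * sz b := by
  induction b with
  | nil =>
    intro n hn
    have h1 : n = 1 := by
      by_contra h1
      apply hn
      unfold lp
      rw [List.map_nil, List.prod_nil, ArithmeticFunction.one_apply_ne h1]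
    subst h1
    simp [sz]
  | cons a b ih =>
    intro n hn
    rw [lp_cons] at hn
    obtain ⟨x, y, hxy, hx, hy⟩ := mul_neB hn
    rw [lenB, ← hxy]
    exact Nat.mul_le_mul (fc_ne hx).2.2.1 (ih y hy)

private lemma prodB (z q : ℕ) {r : ℕ} (χ : DirichletCharacter ℂ r) (u : ℝ)
    (hφ : ∀ m n : ℕ, 1 ≤ m → 1 ≤ n → χ ((m * n : ℕ) : ZMod r) * nt (m * n) u =
      χ (m : ZMod r) * nt m u * (χ (n : ZMod r) * nt n u)) (h1 : nt 1 u = 1)
    (b : List (Bool × ℕ)) : ∀ X : ℕ, 2 ^ b.length * sz b ≤ X →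
    ∑ m ∈ Icc 1 X, lp z q b m * (χ (m : ZMod r) * nt m u) =
      (b.map fun p => KF p.1 z p.2 q χ u).prod := by
  induction b with
  | nil =>
    intro X hX
    have hX1 : 1 ≤ X := by simpa [sz] using hX
    unfold lp
    rw [List.map_nil, List.prod_nil, List.map_nil, List.prod_nil, Finset.sum_eq_single 1]
    · rw [ArithmeticFunction.one_one, h1]
      simp
    · intro n _ hn
      rw [ArithmeticFunction.one_apply_ne hn, zero_mul]
    · intro h
      exact absurd (mem_Icc.2 ⟨le_rfl, hX1⟩) h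
  | cons a b ih =>
    intro X hX
    rw [lenB] at hX
    rw [lp_cons, mul_compB (fun n => χ (n : ZMod r) * nt n u) hφ (fa a.1 z a.2 q) (lp z q b)
      (fun n hn => (fc_ne hn).2.2.1) (lp_supp z q b) hX, ih _ le_rfl, List.map_cons,
      List.prod_cons]
    rfl

private lemma norm_prodB {α : Type*} (f : α → ℂ) (b : List α) :
    ‖(b.map f).prod‖ = (b.map fun p => ‖f p‖).prod := by
  induction b with
  | nil => simp
  | cons a b ih => rw [List.map_cons, List.prod_cons, List.map_cons, List.prod_cons, norm_mul, ih]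

private lemma nt_mulB {m n : ℕ} (hm : 1 ≤ m) (hn : 1 ≤ n) (u : ℝ) :
    nt (m * n) u = nt m u * nt n u :=
  Pool.Agent.Helper25.HM.nt_mul (by omega) (by omega) u

private lemma nt_oneB (u : ℝ) : nt 1 u = 1 := by
  unfold nt
  simp

private lemma nt_addB (n : ℕ) (s t : ℝ) : nt n (s + t) = nt n s * nt n t := by
  unfold nt
  rw [← Complex.exp_add]
  congr 1
  push_cast
  ring

theorem box_main {M : ℝ} (hM : 1 ≤ M) {X z q : ℕ} {b : List (Bool × ℕ)} (hX : 2 ^ b.length * sz b ≤ X) {r : ℕ}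
    (χ : DirichletCharacter ℂ r) (t : ℝ) :
    ‖∑ m ∈ Icc 1 X, lp z q b m * (wm M m : ℂ) * (χ (m : ZMod r) * nt m t)‖ * Real.sqrt M ≤
      2 * ∫ v : ℝ, Real.exp (-(|v| / 7)) * KP z q b χ (t - v) := by
  have hM0 : 0 < M := by linarith
  obtain ⟨δ, hδd⟩ : ∃ δ : ℝ, δ = 1 / (2 * M) := ⟨_, rfl⟩
  have hδ : 0 < δ := by
    rw [hδd]
    positivity
  obtain ⟨Gv, hGv⟩ : ∃ Gv : ℝ → ℂ, Gv = Pool.Agent.Helper25.HM.G δ 0 := ⟨_, rfl⟩
  -- the Dirichlet polynomial of the box
  obtain ⟨Pv, hPv⟩ : ∃ Pv : ℝ → ℂ, Pv = fun v =>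
      ∑ m ∈ Icc 1 X, lp z q b m * (χ (m : ZMod r) * nt m (t - v)) := ⟨_, rfl⟩
  have hKP : ∀ v, KP z q b χ (t - v) = ‖Pv v‖ := by
    intro v
    rw [hPv]
    change _ = ‖∑ m ∈ Icc 1 X, lp z q b m * (χ (m : ZMod r) * nt m (t - v))‖
    rw [prodB z q χ (t - v) (fun m n hm hn => by
      rw [nt_mulB hm hn, Nat.cast_mul, map_mul]
      ring) (nt_oneB _) b X hX, norm_prodB]
    rfl
  have hcont : Continuous Pv := by
    rw [hPv]
    refine continuous_finsetSum _ fun m _ => ?_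
    have h1 : Continuous (fun v : ℝ => nt m (t - v)) :=
      (Pool.Agent.Helper25.HM.nt_cont m).comp (continuous_const.sub continuous_id)
    exact continuous_const.mul (continuous_const.mul h1)
  obtain ⟨A, hA⟩ : ∃ A : ℝ, ∀ v, ‖Pv v‖ ≤ A := by
    refine ⟨∑ m ∈ Icc 1 X, ‖lp z q b m‖, fun v => ?_⟩
    rw [hPv]
    refine (norm_sum_le _ _).trans (Finset.sum_le_sum fun m _ => ?_)
    rw [norm_mul, norm_mul, Pool.Agent.Helper25.HM.norm_nt, mul_one]
    exact mul_le_of_le_one_right (norm_nonneg _) (DirichletCharacter.norm_le_one χ _)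
  -- the representation
  have hterm : ∀ m ∈ Icc 1 X, MeasureTheory.Integrable
      (fun v : ℝ => (1 / M : ℂ) * (Gv v * (lp z q b m * (χ (m : ZMod r) * nt m (t - v))))) ∧
      ∫ v : ℝ, (1 / M : ℂ) * (Gv v * (lp z q b m * (χ (m : ZMod r) * nt m (t - v)))) =
        lp z q b m * (wm M m : ℂ) * (χ (m : ZMod r) * nt m t) := by
    intro m hm
    have hm1 := (mem_Icc.1 hm).1
    have hm0 : (0 : ℝ) < m := by exact_mod_cast hm1
    obtain ⟨h1, h2⟩ := Pool.Agent.Helper25.HM.exp_repr (β := 0) hδ hm1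
    have hs : (Real.sqrt m : ℂ) ≠ 0 := by
      have := (Real.sqrt_pos.2 hm0).ne'
      exact_mod_cast this
    have e : ∀ v : ℝ, (1 / M : ℂ) * (Gv v * (lp z q b m * (χ (m : ZMod r) * nt m (t - v)))) =
        ((1 / M : ℂ) * (lp z q b m * (χ (m : ZMod r) * nt m t)) * (Real.sqrt m : ℂ)) *
          (Gv v * (nt m (-v) / Real.sqrt m)) := by
      intro v
      rw [sub_eq_add_neg, nt_addB]
      field_simp
    simp_rw [e]
    rw [hGv]
    refine ⟨h1.const_mul _, ?_⟩
    rw [MeasureTheory.integral_const_mul, h2]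
    have hw : Pool.Agent.Helper25.HM.w δ 0 = (δ : ℂ) := by
      unfold Pool.Agent.Helper25.HM.w
      simp
    have he : Complex.exp (-((m : ℂ) * Pool.Agent.Helper25.HM.w δ 0)) =
        ((Real.exp (-(m / (2 * M))) : ℝ) : ℂ) := by
      rw [hw, Complex.ofReal_exp, hδd]
      congr 1
      push_cast
      ring
    rw [he]
    have hwm : wm M m = 1 / M * Real.sqrt m * Real.exp (-(m / (2 * M))) := by
      unfold wm
      have h3 : (m : ℝ) = Real.sqrt m * Real.sqrt m := (Real.mul_self_sqrt hm0.le).symm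
      have h4 : 0 < Real.sqrt m := Real.sqrt_pos.2 hm0
      rw [div_mul_eq_mul_div, div_div, div_eq_iff (by positivity)]
      have h5 : 1 / M * Real.sqrt m * Real.exp (-(m / (2 * M))) * (M * Real.sqrt m) =
          (Real.sqrt m * Real.sqrt m) * Real.exp (-(m / (2 * M))) := by
        field_simp
      rw [h5, ← h3]
    rw [hwm]
    push_cast
    ring
  have hsum : ∑ m ∈ Icc 1 X, lp z q b m * (wm M m : ℂ) * (χ (m : ZMod r) * nt m t) =
      ∫ v : ℝ, (1 / M : ℂ) * (Gv v * Pv v) := by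
    have e1 : ∀ v : ℝ, (1 / M : ℂ) * (Gv v * Pv v) =
        ∑ m ∈ Icc 1 X, (1 / M : ℂ) * (Gv v * (lp z q b m * (χ (m : ZMod r) * nt m (t - v)))) := by
      intro v
      rw [hPv, Finset.mul_sum, Finset.mul_sum]
    simp_rw [e1]
    rw [MeasureTheory.integral_finsetSum _ fun m hm => (hterm m hm).1]
    exact Finset.sum_congr rfl fun m hm => (hterm m hm).2.symm
  -- the majorant
  have hI1 : MeasureTheory.Integrable (fun v : ℝ => Real.exp (-(|v| / 7))) := by
    have := Pool.Agent.Helper19.BD.int_exp_abs (1 / 7) (by norm_num)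
    refine this.congr (Filter.Eventually.of_forall fun v => ?_)
    change Real.exp (-(1 / 7 * |v|)) = Real.exp (-(|v| / 7))
    congr 1
    ring
  have hI2 : MeasureTheory.Integrable (fun v : ℝ => Real.exp (-(|v| / 7)) * KP z q b χ (t - v)) := by
    have h1 : MeasureTheory.Integrable (fun v : ℝ => A * Real.exp (-(|v| / 7))) := hI1.const_mul A
    refine h1.mono' ?_ (Filter.Eventually.of_forall fun v => ?_)
    · simp_rw [hKP]
      refine Continuous.aestronglyMeasurable ?_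
      have h2 : Continuous (fun v : ℝ => Real.exp (-(|v| / 7))) := by fun_prop
      exact h2.mul hcont.norm
    · rw [hKP, norm_mul, norm_norm, Real.norm_of_nonneg (Real.exp_pos _).le, mul_comm]
      exact mul_le_mul_of_nonneg_right (hA v) (Real.exp_pos _).le
  obtain ⟨s, hs⟩ : ∃ s : ℝ, s = Real.sqrt (δ + |(0 : ℝ)|) := ⟨_, rfl⟩
  have hs2 : s ^ 2 = 1 / (2 * M) := by
    rw [hs, Real.sq_sqrt (by positivity), abs_zero, add_zero, hδd]
  have hs0 : 0 < s := by
    rw [hs]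
    exact Real.sqrt_pos.2 (by rw [abs_zero]; linarith)
  have hmaj : ∀ v : ℝ, ‖(1 / M : ℂ) * (Gv v * Pv v)‖ ≤
      1 / M * (1 / s) * (Real.exp (-(|v| / 7)) * KP z q b χ (t - v)) := by
    intro v
    rw [norm_mul, norm_mul, hKP]
    have h1 := Pool.Agent.Helper25.HM.norm_G_le (β := 0) hδ v
    rw [← hGv, ← hs] at h1
    have h2 : Real.exp (-(Pool.Agent.Helper25.HM.cr δ 0 * |v|)) ≤ Real.exp (-(|v| / 7)) := by
      apply Real.exp_le_exp.2
      have h3 : 1 / 7 ≤ Pool.Agent.Helper25.HM.cr δ 0 := by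
        unfold Pool.Agent.Helper25.HM.cr
        rw [abs_zero, add_zero, div_le_div_iff₀ (by norm_num) (by positivity)]
        have := Real.pi_lt_d2
        nlinarith
      have h4 := abs_nonneg v
      nlinarith
    have h3 : ‖(1 / M : ℂ)‖ = 1 / M := by
      rw [norm_div, norm_one, Complex.norm_real, Real.norm_of_nonneg hM0.le]
    rw [h3, mul_assoc (1 / M)]
    refine mul_le_mul_of_nonneg_left ?_ (by positivity)
    rw [← mul_assoc]
    refine mul_le_mul_of_nonneg_right ?_ (norm_nonneg _)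
    exact h1.trans (mul_le_mul_of_nonneg_left h2 (by positivity))
  rw [hsum]
  have hint := MeasureTheory.norm_integral_le_of_norm_le (hI2.const_mul (1 / M * (1 / s)))
    (Filter.Eventually.of_forall hmaj)
  have hic : ∫ v : ℝ, 1 / M * (1 / s) * (Real.exp (-(|v| / 7)) * KP z q b χ (t - v)) =
      1 / M * (1 / s) * ∫ v : ℝ, Real.exp (-(|v| / 7)) * KP z q b χ (t - v) :=
    MeasureTheory.integral_const_mul _ _
  rw [hic] at hint
  have hnn : 0 ≤ ∫ v : ℝ, Real.exp (-(|v| / 7)) * KP z q b χ (t - v) :=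
    MeasureTheory.integral_nonneg fun v => by
      change 0 ≤ Real.exp (-(|v| / 7)) * KP z q b χ (t - v)
      rw [hKP]
      positivity
  have hc : 1 / M * (1 / s) * Real.sqrt M ≤ 2 := by
    have h1 : Real.sqrt M ≤ 2 * M * s := by
      rw [Real.sqrt_le_left (by positivity)]
      have h2 : (2 * M * s) ^ 2 = 2 * M := by
        rw [mul_pow, hs2]
        field_simp
      rw [h2]
      linarith
    have h3 : 1 / M * (1 / s) * Real.sqrt M = Real.sqrt M / (M * s) := by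
      field_simp
    rw [h3, div_le_iff₀ (by positivity)]
    linarith
  calc _ ≤ (1 / M * (1 / s) * ∫ v : ℝ, Real.exp (-(|v| / 7)) * KP z q b χ (t - v)) * Real.sqrt M :=
        mul_le_mul_of_nonneg_right hint (Real.sqrt_nonneg _)
    _ = (1 / M * (1 / s) * Real.sqrt M) * ∫ v : ℝ, Real.exp (-(|v| / 7)) * KP z q b χ (t - v) := by
        ring
    _ ≤ _ := mul_le_mul_of_nonneg_right hc hnn

end Pool.Helper5.WB
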