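import Pool.Agent.Helper5.WB.Defs

/-!
# WB-10: the long boxes are negligible

`lp z q b m ≠ 0` implies `m ≥ sz b/2^{length} ≥ 2^{-K} M^{1+ε}`, and then `e^{-m/(2M)} ≤ exp(-M^ε/2^{K+1})`; `|lp(m)| ≤ m^K` (each Dirichlet product has at
most `m` terms), `m ≤ X ≤ M^8`.
-/

set_option autoImplicit false

namespace Pool.Helper5.WB

open ArithmeticFunction Finset
open Pool.Helper19.V4 Pool.Helper19.V5
open Pool.Agent.Helper25.HM (nt)
open Pool.Agent.Helper25.WL (PR)
open Pool.Agent.Helper88.WS (wt)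

private lemma lp_nil38 (z q : ℕ) : lp z q [] = 1 := rfl

private lemma lp_cons38 (z q : ℕ) (p : Bool × ℕ) (b : List (Bool × ℕ)) :
    lp z q (p :: b) = fa p.1 z p.2 q * lp z q b := by
  unfold lp
  rw [List.map_cons, List.prod_cons]

private lemma sz_cons38 (p : Bool × ℕ) (b : List (Bool × ℕ)) : sz (p :: b) = 2 ^ p.2 * sz b := by
  unfold sz
  rw [List.map_cons, List.prod_cons]

private lemma fa_apply38 (b : Bool) (z e q n : ℕ) : fa b z e q n = fc b z e q n := rfl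

private lemma lp_supp38 (z q : ℕ) : ∀ (b : List (Bool × ℕ)) (m : ℕ), lp z q b m ≠ 0 →
    (sz b : ℝ) ≤ 2 ^ b.length * m := by
  intro b
  induction b with
  | nil =>
    intro m hm
    rw [lp_nil38, ArithmeticFunction.one_apply] at hm
    have h1 : m = 1 := by
      by_contra h
      rw [if_neg h] at hm
      exact hm rfl
    subst h1
    simp [sz]
  | cons p b ih =>
    intro m hm
    rw [lp_cons38, ArithmeticFunction.mul_apply] at hm
    obtain ⟨x, hx, hx'⟩ := exists_ne_zero_of_sum_ne_zero hm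
    have hx1 := (Nat.mem_divisorsAntidiagonal.1 hx).1
    have h1 : fc p.1 z p.2 q x.1 ≠ 0 := fun h => hx' (by rw [fa_apply38, h, zero_mul])
    have h2 : lp z q b x.2 ≠ 0 := fun h => hx' (by rw [h, mul_zero])
    have h3 := (fc_ne h1).2.1
    have h4 := ih x.2 h2
    rw [sz_cons38, List.length_cons, pow_succ, ← hx1]
    push_cast
    have h5 : (2 : ℝ) ^ p.2 ≤ 2 * x.1 := by linarith
    calc (2 : ℝ) ^ p.2 * (sz b : ℝ) ≤ (2 * x.1) * (2 ^ b.length * x.2) :=
          mul_le_mul h5 h4 (by positivity) (by positivity)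
      _ = 2 ^ b.length * 2 * (x.1 * x.2) := by ring

private lemma lp_norm38 (z q : ℕ) : ∀ (b : List (Bool × ℕ)) (m : ℕ), 1 ≤ m →
    ‖lp z q b m‖ ≤ (m : ℝ) ^ b.length := by
  intro b
  induction b with
  | nil =>
    intro m hm
    rw [lp_nil38, ArithmeticFunction.one_apply]
    split_ifs <;> simp
  | cons p b ih =>
    intro m hm
    have hm0 : m ≠ 0 := by omega
    rw [lp_cons38, ArithmeticFunction.mul_apply]
    refine (norm_sum_le _ _).trans ?_
    have h1 : ∀ x ∈ Nat.divisorsAntidiagonal m, ‖fa p.1 z p.2 q x.1 * lp z q b x.2‖ ≤ (m : ℝ) ^ b.length := by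
      intro x hx
      have hx1 := Nat.mem_divisorsAntidiagonal.1 hx
      have hx2 : 1 ≤ x.2 := by
        rcases Nat.eq_zero_or_pos x.2 with h | h
        · exfalso
          rw [h, mul_zero] at hx1
          exact hm0 hx1.1.symm
        · exact h
      have hx3 : x.2 ≤ m := Nat.le_of_dvd (by omega) ⟨x.1, by rw [← hx1.1, mul_comm]⟩
      rw [norm_mul, fa_apply38]
      calc ‖fc p.1 z p.2 q x.1‖ * ‖lp z q b x.2‖ ≤ 1 * (x.2 : ℝ) ^ b.length :=
            mul_le_mul (norm_fc _ _ _ _ _) (ih x.2 hx2) (norm_nonneg _) zero_le_one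
        _ ≤ (m : ℝ) ^ b.length := by
          rw [one_mul]
          exact pow_le_pow_left₀ (by positivity) (by exact_mod_cast hx3) _
    refine (sum_le_card_nsmul _ _ _ h1).trans ?_
    rw [nsmul_eq_mul, List.length_cons, pow_succ, mul_comm]
    refine mul_le_mul_of_nonneg_left ?_ (by positivity)
    have h2 : (Nat.divisorsAntidiagonal m).card = m.divisors.card := by
      rw [← Nat.map_div_right_divisors, card_map]
    rw [h2]
    exact_mod_cast Nat.card_divisors_le_self m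

private lemma exp_bd38 {ε c : ℝ} (hε : 0 < ε) (hc : 0 < c) (N : ℕ) : ∃ C : ℝ, 0 < C ∧ ∀ M : ℝ, 1 ≤ M →
    M ^ N * Real.exp (-(c * M ^ ε)) ≤ C := by
  obtain ⟨n, hn⟩ := exists_nat_ge ((N : ℝ) / ε)
  refine ⟨(n.factorial : ℝ) / c ^ n, by positivity, fun M hM => ?_⟩
  have hM0 : 0 < M := by linarith
  have h1 : M ^ N ≤ (M ^ ε) ^ n := by
    rw [← Real.rpow_natCast, ← Real.rpow_natCast, ← Real.rpow_mul hM0.le]
    apply Real.rpow_le_rpow_of_exponent_le hM
    rw [div_le_iff₀ hε] at hn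
    linarith
  have h2 : (c * M ^ ε) ^ n / (n.factorial : ℝ) ≤ Real.exp (c * M ^ ε) :=
    Real.pow_div_factorial_le_exp _ (by positivity) n
  have h3 : 0 < Real.exp (c * M ^ ε) := Real.exp_pos _
  rw [Real.exp_neg, ← div_eq_mul_inv, div_le_iff₀ h3]
  refine h1.trans ?_
  have h4 : (0 : ℝ) < n.factorial := by positivity
  have h5 : (0 : ℝ) < c ^ n := by positivity
  calc (M ^ ε) ^ n = (n.factorial : ℝ) / c ^ n * ((c * M ^ ε) ^ n / (n.factorial : ℝ)) := by
        rw [mul_pow]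
        field_simp
    _ ≤ (n.factorial : ℝ) / c ^ n * Real.exp (c * M ^ ε) := mul_le_mul_of_nonneg_left h2 (by positivity)

theorem box_tail : ∀ (ε : ℝ) (K : ℕ), 0 < ε → ∃ C : ℝ, 0 < C ∧ ∀ (M : ℝ) (X z q : ℕ), 1 ≤ M → (X : ℝ) ≤ M ^ 8 →
    ∀ b : List (Bool × ℕ), b.length ≤ K → M ^ (1 + ε) < sz b → ∀ (r : ℕ) (χ : DirichletCharacter ℂ r) (t : ℝ),
      ‖∑ m ∈ Icc 1 X, lp z q b m * (wm M m : ℂ) * (χ (m : ZMod r) * nt m t)‖ * Real.sqrt M ≤ C / M ^ 2 := by
  intro ε K hε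
  obtain ⟨C, hC, hC'⟩ := exp_bd38 (c := 1 / 2 ^ (K + 1)) hε (by positivity) (8 * K + 19)
  refine ⟨C, hC, ?_⟩
  intro M X z q hM hX b hb hsz r χ t
  have hM0 : 0 < M := by linarith
  have key : ∀ m ∈ Icc 1 X, ‖lp z q b m * (wm M m : ℂ) * (χ (m : ZMod r) * nt m t)‖ ≤
      M ^ (8 * K + 8) * Real.exp (-(1 / 2 ^ (K + 1) * M ^ ε)) := by
    intro m hm
    rw [mem_Icc] at hm
    by_cases h0 : lp z q b m = 0
    · rw [h0, zero_mul, zero_mul, norm_zero]
      positivity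
    have hm1 : (1 : ℝ) ≤ m := by exact_mod_cast hm.1
    have hm8 : (m : ℝ) ≤ M ^ 8 := le_trans (by exact_mod_cast hm.2) hX
    have h1 := lp_supp38 z q b m h0
    have h2 : (sz b : ℝ) ≤ 2 ^ K * m := h1.trans (mul_le_mul_of_nonneg_right
      (pow_le_pow_right₀ (by norm_num) hb) (by positivity))
    have h3 : M ^ (1 + ε) < 2 ^ K * m := lt_of_lt_of_le hsz h2
    have h4 : M ^ (1 + ε) = M * M ^ ε := by rw [Real.rpow_add hM0, Real.rpow_one]
    have h5 : 1 / 2 ^ (K + 1) * M ^ ε ≤ m / (2 * M) := by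
      rw [le_div_iff₀ (by positivity)]
      have e : 1 / 2 ^ (K + 1) * M ^ ε * (2 * M) = (M * M ^ ε) / 2 ^ K := by
        rw [pow_succ]
        field_simp
      rw [e, div_le_iff₀ (by positivity), ← h4]
      linarith
    have h6 : ‖lp z q b m‖ ≤ M ^ (8 * K) := by
      refine (lp_norm38 z q b m hm.1).trans ?_
      calc (m : ℝ) ^ b.length ≤ (m : ℝ) ^ K := pow_le_pow_right₀ hm1 hb
        _ ≤ (M ^ 8) ^ K := pow_le_pow_left₀ (by positivity) hm8 K
        _ = M ^ (8 * K) := by rw [← pow_mul]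
    have h7 : ‖(wm M m : ℂ)‖ ≤ M ^ 8 * Real.exp (-(1 / 2 ^ (K + 1) * M ^ ε)) := by
      have hs : 1 ≤ Real.sqrt m := by
        rw [Real.one_le_sqrt]
        exact hm1
      rw [Complex.norm_real, Real.norm_of_nonneg (by unfold wm; positivity)]
      unfold wm
      rw [div_le_iff₀ (by linarith)]
      have e1 : (m : ℝ) / M ≤ M ^ 8 := by
        rw [div_le_iff₀ hM0]
        calc (m : ℝ) ≤ M ^ 8 := hm8
          _ ≤ M ^ 8 * M := le_mul_of_one_le_right (by positivity) hM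
      have e2 : Real.exp (-((m : ℝ) / (2 * M))) ≤ Real.exp (-(1 / 2 ^ (K + 1) * M ^ ε)) :=
        Real.exp_le_exp.2 (by linarith)
      calc (m : ℝ) / M * Real.exp (-((m : ℝ) / (2 * M))) ≤
            M ^ 8 * Real.exp (-(1 / 2 ^ (K + 1) * M ^ ε)) :=
            mul_le_mul e1 e2 (Real.exp_pos _).le (by positivity)
        _ ≤ M ^ 8 * Real.exp (-(1 / 2 ^ (K + 1) * M ^ ε)) * Real.sqrt m :=
            le_mul_of_one_le_right (by positivity) hs
    have h8 : ‖χ (m : ZMod r) * nt m t‖ ≤ 1 := by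
      rw [norm_mul, Pool.Agent.Helper25.HM.norm_nt, mul_one]
      exact χ.norm_le_one _
    rw [norm_mul, norm_mul]
    calc ‖lp z q b m‖ * ‖(wm M m : ℂ)‖ * ‖χ (m : ZMod r) * nt m t‖ ≤
          M ^ (8 * K) * (M ^ 8 * Real.exp (-(1 / 2 ^ (K + 1) * M ^ ε))) * 1 :=
          mul_le_mul (mul_le_mul h6 h7 (norm_nonneg _) (by positivity)) h8 (norm_nonneg _) (by positivity)
      _ = M ^ (8 * K + 8) * Real.exp (-(1 / 2 ^ (K + 1) * M ^ ε)) := by
          rw [pow_add]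
          ring
  have hsum : ‖∑ m ∈ Icc 1 X, lp z q b m * (wm M m : ℂ) * (χ (m : ZMod r) * nt m t)‖ ≤
      M ^ 8 * (M ^ (8 * K + 8) * Real.exp (-(1 / 2 ^ (K + 1) * M ^ ε))) := by
    refine (norm_sum_le _ _).trans ((sum_le_card_nsmul _ _ _ key).trans ?_)
    rw [nsmul_eq_mul, Nat.card_Icc, Nat.add_sub_cancel]
    exact mul_le_mul_of_nonneg_right hX (by positivity)
  have hsq : Real.sqrt M ≤ M := by
    rw [Real.sqrt_le_left (by linarith)]
    nlinarith
  rw [le_div_iff₀ (by positivity)]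
  calc ‖∑ m ∈ Icc 1 X, lp z q b m * (wm M m : ℂ) * (χ (m : ZMod r) * nt m t)‖ * Real.sqrt M * M ^ 2 ≤
        M ^ 8 * (M ^ (8 * K + 8) * Real.exp (-(1 / 2 ^ (K + 1) * M ^ ε))) * M * M ^ 2 := by
        refine mul_le_mul_of_nonneg_right ?_ (by positivity)
        exact mul_le_mul hsum hsq (Real.sqrt_nonneg _) (by positivity)
    _ = M ^ (8 * K + 19) * Real.exp (-(1 / 2 ^ (K + 1) * M ^ ε)) := by
        have e : M ^ (8 * K + 19) = M ^ (8 * K + 8) * M ^ 11 := by rw [← pow_add]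
        rw [e]
        ring
    _ ≤ C := hC' M hM

end Pool.Helper5.WB
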