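import Pool.Agent.Helper5.WB.BoxA
import Pool.Agent.Helper5.WB.BoxB
import Pool.Agent.Helper5.WB.BoxC

/-!
# WB-11: the decomposition into boxes

`hb_box` with `2^E ≥ X` (`E ≤ 2 log X + 1`), `𝓑` = the boxes of `𝓐` with `sz b ≤ M^(1+ε)`; `box_main` for these (`2^{2J} M^{1+ε} ≤ M² ≤ X` for `ε ≤ 1/2` and
`M ≥ M_0`), `box_tail` for the others, `J (E+1)^{2J} 2^J C/M² ≤ C'/M`. For `M ≤ M_0`: `𝓑 = ∅`, `‖Mt‖ √M ≤ C/M`. For `ε > 1/2` use `ε = 1/2`.
-/

set_option autoImplicit false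

namespace Pool.Helper5.WB

open ArithmeticFunction Finset MeasureTheory
open Pool.Helper19.V4 Pool.Helper19.V5
open Pool.Agent.Helper25.HM (nt norm_nt)
open Pool.Agent.Helper25.WL (PR)
open Pool.Agent.Helper88.WS (wt)

private lemma log2_le88 (M : ℕ) (hM : 1 ≤ M) : (Nat.log 2 M : ℝ) ≤ 2 * Real.log M := by
  have h5 : (2 : ℝ) ^ (Nat.log 2 M) ≤ M := by
    exact_mod_cast Nat.pow_log_le_self 2 (by omega)
  have h6 : (Nat.log 2 M : ℝ) * Real.log 2 ≤ Real.log M := by
    rw [← Real.log_pow]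
    exact Real.log_le_log (by positivity) h5
  have h7 := Real.log_two_gt_d9
  have h8 : (0 : ℝ) ≤ (Nat.log 2 M : ℝ) := Nat.cast_nonneg _
  nlinarith

/-- the trivial bound -/
private lemma Mt_triv88 {M : ℝ} (hM : 1 ≤ M) {X : ℕ} (hX : (X : ℝ) ≤ M ^ 8) (q : ℕ) {r : ℕ}
    (χ : DirichletCharacter ℂ r) (t : ℝ) : ‖Mt X M q χ t‖ ≤ M ^ 16 := by
  have hM0 : 0 < M := by linarith
  unfold Mt
  have h1 : ∀ m ∈ Icc 1 X, ‖mc q m * (wm M m : ℂ) * (χ (m : ZMod r) * nt m t)‖ ≤ M ^ 8 := by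
    intro m hm
    rw [mem_Icc] at hm
    have hm1 : (1 : ℝ) ≤ m := by exact_mod_cast hm.1
    have hmX : (m : ℝ) ≤ M ^ 8 := le_trans (by exact_mod_cast hm.2) hX
    have hw0 : 0 ≤ wm M m := by unfold wm; positivity
    have hw : wm M m ≤ m := by
      unfold wm
      rw [div_le_iff₀ (by positivity)]
      have s1 : 1 ≤ Real.sqrt m := Real.one_le_sqrt.2 hm1
      have s2 : (m : ℝ) / M ≤ m := div_le_self (by linarith) hM
      have s3 : Real.exp (-((m : ℝ) / (2 * M))) ≤ 1 := by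
        rw [Real.exp_le_one_iff]
        have : 0 ≤ (m : ℝ) / (2 * M) := by positivity
        linarith
      calc (m : ℝ) / M * Real.exp (-(m / (2 * M))) ≤ m * 1 := by
            apply mul_le_mul s2 s3 (Real.exp_pos _).le (by linarith)
        _ ≤ m * Real.sqrt m := mul_le_mul_of_nonneg_left s1 (by linarith)
    rw [norm_mul, norm_mul, norm_mul, norm_nt, mul_one, Complex.norm_real, Real.norm_of_nonneg hw0]
    calc ‖mc q m‖ * wm M m * ‖χ (m : ZMod r)‖ ≤ 1 * M ^ 8 * 1 := by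
          apply mul_le_mul _ (χ.norm_le_one _) (norm_nonneg _) (by positivity)
          exact mul_le_mul (norm_mc q m) (hw.trans hmX) hw0 zero_le_one
      _ = M ^ 8 := by ring
  refine (norm_sum_le _ _).trans ((sum_le_card_nsmul _ _ _ h1).trans ?_)
  rw [Nat.card_Icc, nsmul_eq_mul, Nat.add_sub_cancel]
  calc (X : ℝ) * M ^ 8 ≤ M ^ 8 * M ^ 8 := mul_le_mul_of_nonneg_right hX (by positivity)
    _ = M ^ 16 := by ring

private lemma KP_nonneg88 (z q : ℕ) (b : List (Bool × ℕ)) {r : ℕ} (χ : DirichletCharacter ℂ r) (u : ℝ) :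
    0 ≤ KP z q b χ u := by
  unfold KP
  apply List.prod_nonneg
  intro a ha
  rw [List.mem_map] at ha
  obtain ⟨p, _, rfl⟩ := ha
  exact norm_nonneg _

theorem box : BOX := by
  classical
  intro ε J hε hJ
  obtain ⟨ε', hε'def⟩ : ∃ ε' : ℝ, ε' = min ε (1 / 2) := ⟨_, rfl⟩
  have hε' : 0 < ε' := by rw [hε'def]; exact lt_min hε (by norm_num)
  have hε'ε : ε' ≤ ε := by rw [hε'def]; exact min_le_left _ _
  have hε'h : ε' ≤ 1 / 2 := by rw [hε'def]; exact min_le_right _ _
  obtain ⟨C1, hC1, htail⟩ := box_tail ε' (2 * J) hε'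
  have hJr : (0 : ℝ) < J := by exact_mod_cast hJ
  obtain ⟨η, hη⟩ : ∃ η : ℝ, η = ε' / (2 * J) := ⟨_, rfl⟩
  have hη0 : 0 < η := by rw [hη]; positivity
  obtain ⟨C2, hC2⟩ : ∃ C2 : ℝ, C2 = J * (16 / η + 2) ^ (2 * J) := ⟨_, rfl⟩
  have hC20 : 0 < C2 := by rw [hC2]; positivity
  obtain ⟨M0, hM0⟩ : ∃ M0 : ℝ, M0 = 16 ^ J := ⟨_, rfl⟩
  have hM00 : 0 < M0 := by rw [hM0]; positivity
  refine ⟨C2 + M0 ^ 18 + 2 * 2 ^ J + 2 ^ J * C1 * C2, by positivity, fun M X z q hM hX2 hX8 hXz => ?_⟩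
  have hMp : 0 < M := by linarith
  have hMε' : 1 ≤ M ^ ε' := Real.one_le_rpow hM hε'.le
  have hMεε : M ^ ε' ≤ M ^ ε := Real.rpow_le_rpow_of_exponent_le hM hε'ε
  have hMε : 1 ≤ M ^ ε := Real.one_le_rpow hM hε.le
  rcases lt_or_ge M M0 with hsmall | hlarge
  · -- small `M`
    refine ⟨∅, by rw [card_empty, Nat.cast_zero]; positivity, fun b hb => absurd hb (notMem_empty b), fun r χ t => ?_⟩
    rw [sum_empty, mul_zero, zero_add]
    have h1 := Mt_triv88 hM hX8 q χ t
    have hs : Real.sqrt M ≤ M := by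
      rw [Real.sqrt_le_left hMp.le]
      nlinarith
    rw [le_div_iff₀ hMp]
    calc ‖Mt X M q χ t‖ * Real.sqrt M * M ≤ M ^ 16 * M * M := by gcongr
      _ = M ^ 18 := by ring
      _ ≤ M0 ^ 18 := pow_le_pow_left₀ hMp.le hsmall.le 18
      _ ≤ _ := by
        have : 0 ≤ C2 + 2 * 2 ^ J + 2 ^ J * C1 * C2 := by positivity
        linarith
  · -- large `M`
    have hX1 : 1 ≤ X := by
      have h1 : (1 : ℝ) ≤ X := by nlinarith
      exact_mod_cast h1
    obtain ⟨E, hE⟩ : ∃ E : ℕ, E = Nat.log 2 X + 1 := ⟨_, rfl⟩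
    have hXE : X ≤ 2 ^ E := by rw [hE]; exact (Nat.lt_pow_succ_log_self (by norm_num) X).le
    obtain ⟨𝓐, cf, hcard, hA, hmc⟩ := hb_box hJ hXz hXE
    -- the number of boxes
    have hEr : ((E + 1 : ℕ) : ℝ) ≤ (16 / η + 2) * M ^ η := by
      have h1 := log2_le88 X hX1
      have h2 : Real.log X ≤ 8 * Real.log M := by
        have := Real.log_le_log (by exact_mod_cast hX1) hX8
        rw [Real.log_pow] at this
        push_cast at this
        exact this
      have h3 := Real.log_le_rpow_div hMp.le hη0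
      have h4 : 1 ≤ M ^ η := Real.one_le_rpow hM hη0.le
      rw [hE]
      push_cast
      have h5 : (16 / η + 2) * M ^ η = 16 * (M ^ η / η) + 2 * M ^ η := by
        field_simp
      rw [h5]
      linarith
    have hcardr : (𝓐.card : ℝ) ≤ C2 * M ^ ε' := by
      have h1 : (𝓐.card : ℝ) ≤ J * ((E + 1 : ℕ) : ℝ) ^ (2 * J) := by exact_mod_cast hcard
      refine h1.trans ?_
      have h2 : ((E + 1 : ℕ) : ℝ) ^ (2 * J) ≤ ((16 / η + 2) * M ^ η) ^ (2 * J) :=
        pow_le_pow_left₀ (Nat.cast_nonneg _) hEr _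
      have h3 : (M ^ η) ^ (2 * J) = M ^ ε' := by
        rw [← Real.rpow_natCast, ← Real.rpow_mul hMp.le]
        congr 1
        rw [hη]
        push_cast
        field_simp
      calc (J : ℝ) * ((E + 1 : ℕ) : ℝ) ^ (2 * J) ≤ J * ((16 / η + 2) * M ^ η) ^ (2 * J) :=
            mul_le_mul_of_nonneg_left h2 hJr.le
        _ = J * (16 / η + 2) ^ (2 * J) * (M ^ η) ^ (2 * J) := by rw [mul_pow]; ring
        _ = C2 * M ^ ε' := by rw [h3, hC2]
    obtain ⟨𝓑, h𝓑⟩ : ∃ 𝓑, 𝓑 = 𝓐.filter (fun b => (sz b : ℝ) ≤ M ^ (1 + ε')) := ⟨_, rfl⟩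
    have hBA : 𝓑 ⊆ 𝓐 := by rw [h𝓑]; exact filter_subset _ _
    refine ⟨𝓑, ?_, ?_, ?_⟩
    · have h1 : (𝓑.card : ℝ) ≤ 𝓐.card := by exact_mod_cast card_le_card hBA
      have h2 : C2 * M ^ ε' ≤ C2 * M ^ ε := mul_le_mul_of_nonneg_left hMεε hC20.le
      have h3 : C2 * M ^ ε ≤ (C2 + M0 ^ 18 + 2 * 2 ^ J + 2 ^ J * C1 * C2) * M ^ ε := by
        apply mul_le_mul_of_nonneg_right _ (by positivity)
        have : 0 ≤ M0 ^ 18 + 2 * 2 ^ J + 2 ^ J * C1 * C2 := by positivity
        linarith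
      linarith
    · intro b hb
      have h1 := hA b (hBA hb)
      have h2 : (sz b : ℝ) ≤ M ^ (1 + ε') := by
        rw [h𝓑, mem_filter] at hb
        exact hb.2
      refine ⟨h1.1, h2.trans (Real.rpow_le_rpow_of_exponent_le hM (by linarith)), fun p hp h => (h1.2.2 p hp).2 h⟩
    · intro r χ t
      have hMt : Mt X M q χ t = ∑ b ∈ 𝓐, cf b *
          ∑ m ∈ Icc 1 X, lp z q b m * (wm M m : ℂ) * (χ (m : ZMod r) * nt m t) := by
        unfold Mt
        rw [sum_congr rfl fun m hm => by rw [hmc q m hm]]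
        simp_rw [sum_mul, mul_sum]
        rw [sum_comm]
        refine sum_congr rfl fun b _ => sum_congr rfl fun m _ => ?_
        ring
      obtain ⟨Bs, hBs⟩ : ∃ Bs : List (Bool × ℕ) → ℝ, Bs = fun b =>
        ‖∑ m ∈ Icc 1 X, lp z q b m * (wm M m : ℂ) * (χ (m : ZMod r) * nt m t)‖ * Real.sqrt M := ⟨_, rfl⟩
      obtain ⟨Is, hIs⟩ : ∃ Is : List (Bool × ℕ) → ℝ, Is = fun b =>
        ∫ v : ℝ, Real.exp (-(|v| / 7)) * KP z q b χ (t - v) := ⟨_, rfl⟩
      have hIs0 : ∀ b, 0 ≤ Is b := by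
        intro b
        rw [hIs]
        exact integral_nonneg fun v => mul_nonneg (Real.exp_pos _).le (KP_nonneg88 _ _ _ _ _)
      have h1 : ‖Mt X M q χ t‖ * Real.sqrt M ≤ ∑ b ∈ 𝓐, 2 ^ J * Bs b := by
        rw [hMt]
        have h2 : ‖∑ b ∈ 𝓐, cf b * ∑ m ∈ Icc 1 X, lp z q b m * (wm M m : ℂ) * (χ (m : ZMod r) * nt m t)‖ ≤
            ∑ b ∈ 𝓐, 2 ^ J * ‖∑ m ∈ Icc 1 X, lp z q b m * (wm M m : ℂ) * (χ (m : ZMod r) * nt m t)‖ := by
          refine (norm_sum_le _ _).trans (sum_le_sum fun b hb => ?_)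
          rw [norm_mul]
          exact mul_le_mul_of_nonneg_right (hA b hb).2.1 (norm_nonneg _)
        refine (mul_le_mul_of_nonneg_right h2 (Real.sqrt_nonneg _)).trans (le_of_eq ?_)
        rw [sum_mul, hBs]
        refine sum_congr rfl fun b _ => ?_
        ring
      have hone : ∀ b ∈ 𝓐, Bs b ≤ (if b ∈ 𝓑 then 2 * Is b else 0) + C1 / M ^ 2 := by
        intro b hb
        have hlen := (hA b hb).1
        by_cases hbB : b ∈ 𝓑
        · rw [if_pos hbB]
          have hsz : (sz b : ℝ) ≤ M ^ (1 + ε') := by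
            rw [h𝓑, mem_filter] at hbB
            exact hbB.2
          have h3 : 2 ^ b.length * sz b ≤ X := by
            have h4 : (2 : ℝ) ^ b.length * sz b ≤ X := by
              have h5 : (2 : ℝ) ^ b.length ≤ 4 ^ J := by
                calc (2 : ℝ) ^ b.length ≤ 2 ^ (2 * J) := pow_le_pow_right₀ (by norm_num) hlen
                  _ = 4 ^ J := by rw [pow_mul]; norm_num
              have h6 : (4 : ℝ) ^ J ≤ M ^ (1 - ε') := by
                calc (4 : ℝ) ^ J = (M0 : ℝ) ^ (1 / 2 : ℝ) := by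
                      rw [hM0, ← Real.rpow_natCast, ← Real.rpow_natCast, ← Real.rpow_mul (by norm_num)]
                      rw [show (4 : ℝ) = 16 ^ (1 / 2 : ℝ) by
                        rw [show (16 : ℝ) = 4 ^ (2 : ℝ) by norm_num, ← Real.rpow_mul (by norm_num)]
                        norm_num]
                      rw [← Real.rpow_mul (by norm_num)]
                      congr 1
                      ring
                  _ ≤ M ^ (1 / 2 : ℝ) := Real.rpow_le_rpow hM00.le hlarge (by norm_num)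
                  _ ≤ M ^ (1 - ε') := Real.rpow_le_rpow_of_exponent_le hM (by linarith)
              calc (2 : ℝ) ^ b.length * sz b ≤ M ^ (1 - ε') * M ^ (1 + ε') :=
                    mul_le_mul (h5.trans h6) hsz (Nat.cast_nonneg _) (by positivity)
                _ = M ^ 2 := by
                    rw [← Real.rpow_add hMp, ← Real.rpow_natCast]
                    congr 1
                    push_cast
                    ring
                _ ≤ X := hX2
            exact_mod_cast h4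
          have h7 := box_main hM (z := z) (q := q) h3 χ t
          have h8 : 0 ≤ C1 / M ^ 2 := by positivity
          rw [hBs, hIs]
          simp only
          linarith
        · rw [if_neg hbB, zero_add]
          have hsz : M ^ (1 + ε') < sz b := by
            rw [h𝓑, mem_filter, not_and] at hbB
            have := hbB hb
            push Not at this
            exact this
          have h7 := htail M X z q hM hX8 b hlen hsz r χ t
          rw [hBs]
          exact h7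
      refine h1.trans ?_
      have h9 : ∑ b ∈ 𝓐, 2 ^ J * Bs b ≤ ∑ b ∈ 𝓐, 2 ^ J * ((if b ∈ 𝓑 then 2 * Is b else 0) + C1 / M ^ 2) :=
        sum_le_sum fun b hb => mul_le_mul_of_nonneg_left (hone b hb) (by positivity)
      refine h9.trans ?_
      rw [← mul_sum, sum_add_distrib, sum_const, nsmul_eq_mul, ← sum_filter, filter_mem_eq_inter,
        inter_eq_right.2 hBA, ← mul_sum]
      have h10 : (𝓐.card : ℝ) * (C1 / M ^ 2) ≤ C1 * C2 / M := by
        have h11 : M ^ ε' ≤ M := by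
          calc M ^ ε' ≤ M ^ (1 : ℝ) := Real.rpow_le_rpow_of_exponent_le hM (by linarith)
            _ = M := Real.rpow_one M
        calc (𝓐.card : ℝ) * (C1 / M ^ 2) ≤ (C2 * M) * (C1 / M ^ 2) := by
              apply mul_le_mul_of_nonneg_right _ (by positivity)
              exact hcardr.trans (mul_le_mul_of_nonneg_left h11 hC20.le)
          _ = C1 * C2 / M := by field_simp
      obtain ⟨SI, hSI⟩ : ∃ SI : ℝ, SI = ∑ b ∈ 𝓑, Is b := ⟨_, rfl⟩
      have hSI0 : 0 ≤ SI := by rw [hSI]; exact sum_nonneg fun b _ => hIs0 b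
      have hgoal : ∑ b ∈ 𝓑, ∫ v : ℝ, Real.exp (-(|v| / 7)) * KP z q b χ (t - v) = SI := by rw [hSI, hIs]
      rw [← hSI, hgoal]
      have h12 : 2 ^ J * (2 * SI + (𝓐.card : ℝ) * (C1 / M ^ 2)) ≤ 2 ^ J * (2 * SI + C1 * C2 / M) := by
        apply mul_le_mul_of_nonneg_left _ (by positivity)
        linarith
      refine h12.trans ?_
      have h13 : 2 ^ J * (2 * SI + C1 * C2 / M) = 2 * 2 ^ J * SI + 2 ^ J * C1 * C2 / M := by ring
      rw [h13]
      have h14 : 2 * 2 ^ J * SI ≤ (C2 + M0 ^ 18 + 2 * 2 ^ J + 2 ^ J * C1 * C2) * SI := by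
        apply mul_le_mul_of_nonneg_right _ hSI0
        have : 0 ≤ C2 + M0 ^ 18 + 2 ^ J * C1 * C2 := by positivity
        linarith
      have h15 : 2 ^ J * C1 * C2 / M ≤ (C2 + M0 ^ 18 + 2 * 2 ^ J + 2 ^ J * C1 * C2) / M := by
        apply div_le_div_of_nonneg_right _ hMp.le
        have : 0 ≤ C2 + M0 ^ 18 + 2 * 2 ^ J := by positivity
        linarith
      linarith

end Pool.Helper5.WB
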