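import Pool.Agent.Helper5.WB.Defs
import Pool.Agent.Helper19.WZ.Fin

/-!
# WB-1: the bound for `Mt` from a zero free half plane (helper19)

`Helper19/WZ/Smooth.lean: smooth_bound` with `kappa = 1/2`, `X = 2 M`, for the character modulo `q` induced by `χ`; the tail `m > X ≥ M²` of the infinite
sum is at most `512` times `M`. Case `a = 1` is not needed.
-/

set_option autoImplicit false

namespace Pool.Helper5.WB

open ArithmeticFunction Finset
open Pool.Helper19.V4 Pool.Helper19.V5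
open Pool.Agent.Helper25.HM (nt norm_nt)
open Pool.Agent.Helper25.WL (PR)
open Pool.Agent.Helper88.WS (wt)

/-- the weights `(m/Y) e^{-m/(2Y)}` -/
lemma wY_le {Y : ℝ} (hY : 0 < Y) (m : ℕ) : (m : ℝ) / Y * Real.exp (-(m / (2 * Y))) ≤ 4 * Real.exp (-(m / (4 * Y))) := by
  obtain ⟨u, hu⟩ : ∃ u : ℝ, u = (m : ℝ) / Y := ⟨_, rfl⟩
  have hu0 : 0 ≤ u := by rw [hu]; positivity
  have e1 : (m : ℝ) / (2 * Y) = u / 2 := by rw [hu]; field_simp
  have e2 : (m : ℝ) / (4 * Y) = u / 4 := by rw [hu]; field_simp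
  rw [e1, e2, ← hu]
  have e3 : u / 4 ≤ Real.exp (u / 4) := by
    have := Real.add_one_le_exp (u / 4)
    linarith
  have e4 : Real.exp (-(u / 2)) = Real.exp (-(u / 4)) * Real.exp (-(u / 4)) := by
    rw [← Real.exp_add]
    congr 1
    ring
  have e5 : Real.exp (u / 4) * Real.exp (-(u / 4)) = 1 := by
    rw [← Real.exp_add]
    simp
  have e6 : 0 < Real.exp (-(u / 4)) := Real.exp_pos _
  rw [e4]
  calc u * (Real.exp (-(u / 4)) * Real.exp (-(u / 4))) = 4 * ((u / 4) * Real.exp (-(u / 4))) * Real.exp (-(u / 4)) := by ring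
    _ ≤ 4 * (Real.exp (u / 4) * Real.exp (-(u / 4))) * Real.exp (-(u / 4)) := by gcongr
    _ = _ := by rw [e5]; ring

lemma geomY {Y : ℝ} (hY : 1 ≤ Y) (X : ℕ) : ∑ n ∈ range X, Real.exp (-((n : ℝ) / (4 * Y))) ≤ 8 * Y := by
  obtain ⟨x, hx⟩ : ∃ x : ℝ, x = 1 / (4 * Y) := ⟨_, rfl⟩
  have hx0 : 0 < x := by rw [hx]; positivity
  have hx1 : x ≤ 1 / 4 := by
    rw [hx]
    exact one_div_le_one_div_of_le (by norm_num) (by linarith)
  obtain ⟨r, hr⟩ : ∃ r : ℝ, r = Real.exp (-x) := ⟨_, rfl⟩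
  have hr0 : 0 ≤ r := by rw [hr]; exact (Real.exp_pos _).le
  have hr1 : r ≤ 1 - x / 2 := by
    have e1 : 1 + x ≤ Real.exp x := by
      have := Real.add_one_le_exp x
      linarith
    have e2 : r = 1 / Real.exp x := by rw [hr, Real.exp_neg, one_div]
    rw [e2, div_le_iff₀ (Real.exp_pos _)]
    nlinarith
  have h1 : ∀ n : ℕ, Real.exp (-((n : ℝ) / (4 * Y))) = r ^ n := by
    intro n
    rw [hr, ← Real.exp_nat_mul, hx]
    congr 1
    ring
  simp_rw [h1]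
  have h2 : (∑ n ∈ range X, r ^ n) * (1 - r) ≤ 1 := by
    rw [geom_sum_mul_neg]
    have : 0 ≤ r ^ X := by positivity
    linarith
  have h3 : 0 ≤ ∑ n ∈ range X, r ^ n := sum_nonneg fun _ _ => by positivity
  have h4 : (∑ n ∈ range X, r ^ n) * (x / 2) ≤ 1 := (mul_le_mul_of_nonneg_left (by linarith) h3).trans h2
  have h5 : x / 2 * (8 * Y) = 1 := by
    rw [hx]
    have hY0 : Y ≠ 0 := by linarith
    field_simp
    norm_num
  calc ∑ n ∈ range X, r ^ n = (∑ n ∈ range X, r ^ n) * (x / 2) * (8 * Y) := by rw [mul_assoc, h5, mul_one]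
    _ ≤ 1 * (8 * Y) := mul_le_mul_of_nonneg_right h4 (by positivity)
    _ = 8 * Y := one_mul _

theorem mb {a : ℝ} (ha : 1 / 2 ≤ a) (ha1 : a < 1) (hZ : Pool.Helper19.WZ.ZF a) : MB a := by
  intro ε hε
  obtain ⟨δ, hδ⟩ : ∃ δ : ℝ, δ = min ε (1 / 2) := ⟨_, rfl⟩
  have hδ0 : 0 < δ := by rw [hδ]; positivity
  have hδε : δ ≤ ε := by rw [hδ]; exact min_le_left _ _
  have hδ2 : δ ≤ 1 / 2 := by rw [hδ]; exact min_le_right _ _
  obtain ⟨C, hC, hsb⟩ := Pool.Helper19.WZ.smooth_bound (κ := 1 / 2) ha ha1 hδ0 hδ2 hδ0 (by linarith) (by norm_num) hZ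
  refine ⟨C * 4 + 512, by positivity, fun q r _ _ hrq χ t M X hM hX => ?_⟩
  have hM0 : 0 < M := by linarith
  have hq1 : (1 : ℝ) ≤ q := by exact_mod_cast NeZero.one_le
  obtain ⟨ψ, hψ⟩ : ∃ ψ : DirichletCharacter ℂ q, ψ = DirichletCharacter.changeLevel hrq χ := ⟨_, rfl⟩
  obtain ⟨hs, hb⟩ := hsb q ψ t (2 * M) (by linarith)
  obtain ⟨F, hF⟩ : ∃ F : ℕ → ℂ, F = fun m : ℕ => Pool.Helper19.WZ.mc ψ m * (m : ℂ) ^ (((1 / 2 : ℝ) : ℂ) + (t : ℂ) * Complex.I) *
    ((Real.exp (-((m : ℝ) / (2 * M))) : ℝ) : ℂ) := ⟨_, rfl⟩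
  rw [← hF] at hs hb
  have hF0 : F 0 = 0 := by rw [hF]; simp [Pool.Helper19.WZ.mc]
  -- the terms
  have hpow : ∀ m : ℕ, 1 ≤ m → (m : ℂ) ^ (((1 / 2 : ℝ) : ℂ) + (t : ℂ) * Complex.I) = (Real.sqrt m : ℂ) * nt m t := by
    intro m hm
    have hm0 : (m : ℂ) ≠ 0 := by
      have : m ≠ 0 := by omega
      exact_mod_cast this
    rw [Complex.cpow_add _ _ hm0, Real.sqrt_eq_rpow, Complex.ofReal_cpow (Nat.cast_nonneg m)]
    congr 1
    rw [nt, Complex.cpow_def_of_ne_zero hm0, Complex.ofReal_mul, Complex.natCast_log]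
    congr 1
    ring
  have hFe : ∀ m : ℕ, 1 ≤ m → F m = (M : ℂ) * (mc q m * (wm M m : ℂ) * (χ (m : ZMod r) * nt m t)) := by
    intro m hm
    rw [hF]
    show Pool.Helper19.WZ.mc ψ m * (m : ℂ) ^ (((1 / 2 : ℝ) : ℂ) + (t : ℂ) * Complex.I) *
      ((Real.exp (-((m : ℝ) / (2 * M))) : ℝ) : ℂ) = _
    rw [hpow m hm]
    have e1 : Pool.Helper19.WZ.mc ψ m = mc q m * χ (m : ZMod r) := by
      unfold Pool.Helper19.WZ.mc mc
      rw [hψ]
      by_cases hc : m.Coprime q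
      · rw [if_pos hc]
        have hu : IsUnit (m : ZMod q) := (ZMod.isUnit_iff_coprime m q).2 hc
        obtain ⟨u, hu⟩ := hu
        rw [← hu, DirichletCharacter.changeLevel_eq_cast_of_dvd, hu, ZMod.cast_natCast hrq]
      · rw [if_neg hc, zero_mul]
        have hu : ¬ IsUnit (m : ZMod q) := fun h => hc ((ZMod.isUnit_iff_coprime m q).1 h)
        rw [MulChar.map_nonunit _ hu, mul_zero]
    have e2 : (M : ℂ) * (wm M m : ℂ) = ((Real.sqrt m * Real.exp (-((m : ℝ) / (2 * M))) : ℝ) : ℂ) := by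
      rw [← Complex.ofReal_mul]
      congr 1
      unfold wm
      have hm0 : (0 : ℝ) < m := by exact_mod_cast hm
      have hsq : Real.sqrt m * Real.sqrt m = m := Real.mul_self_sqrt hm0.le
      have hs0 : 0 < Real.sqrt m := Real.sqrt_pos.2 hm0
      rw [mul_div_assoc', div_eq_iff hs0.ne']
      rw [← mul_assoc, mul_div_cancel₀ _ hM0.ne']
      nth_rewrite 1 [← hsq]
      ring
    rw [e1]
    calc mc q m * χ (m : ZMod r) * ((Real.sqrt m : ℂ) * nt m t) * ((Real.exp (-((m : ℝ) / (2 * M))) : ℝ) : ℂ) =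
        ((Real.sqrt m * Real.exp (-((m : ℝ) / (2 * M))) : ℝ) : ℂ) * (mc q m * (χ (m : ZMod r) * nt m t)) := by
          push_cast
          ring
      _ = _ := by rw [← e2]; ring
  have hFn : ∀ m : ℕ, ‖F m‖ ≤ M * (4 * Real.exp (-(m / (4 * M)))) := by
    intro m
    rcases Nat.eq_zero_or_pos m with h0 | h0
    · rw [h0, hF0, norm_zero]
      positivity
    · rw [hFe m h0, norm_mul, Complex.norm_real, Real.norm_of_nonneg hM0.le]
      refine mul_le_mul_of_nonneg_left ?_ hM0.le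
      rw [norm_mul, norm_mul, norm_mul, norm_nt, mul_one, Complex.norm_real]
      have hw0 : 0 ≤ wm M m := by unfold wm; positivity
      have hw : wm M m ≤ 4 * Real.exp (-(m / (4 * M))) := by
        have h1 : (1 : ℝ) ≤ Real.sqrt m := Real.one_le_sqrt.2 (by exact_mod_cast h0)
        exact (div_le_self (by positivity) h1).trans (wY_le hM0 m)
      rw [Real.norm_of_nonneg hw0]
      have h2 := norm_mc q m
      have h3 : ‖χ (m : ZMod r)‖ ≤ 1 := χ.norm_le_one _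
      calc ‖mc q m‖ * wm M m * ‖χ (m : ZMod r)‖ ≤ 1 * wm M m * 1 := by gcongr
        _ ≤ _ := by rw [one_mul, mul_one]; exact hw
  -- the finite sum
  have hfin : (M : ℂ) * Mt X M q χ t = ∑' m, F m - ∑' n : ℕ, F (n + (X + 1)) := by
    have e1 := hs.sum_add_tsum_nat_add (X + 1)
    have e2 : ∑ n ∈ range (X + 1), F n = (M : ℂ) * Mt X M q χ t := by
      rw [range_eq_Ico, sum_eq_sum_Ico_succ_bot (by omega), hF0, zero_add, Mt, Finset.mul_sum]
      refine Finset.sum_congr rfl fun m hm => ?_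
      rw [Finset.mem_Icc] at hm
      exact hFe m hm.1
    rw [← e1, ← e2]
    ring
  have htail : ‖∑' n : ℕ, F (n + (X + 1))‖ ≤ 512 * M := by
    have hsumm : Summable (fun n : ℕ => Real.exp (-((n : ℝ) / (4 * (2 * M))))) :=
      summable_of_sum_range_le (c := 8 * (2 * M)) (fun n => (Real.exp_pos _).le) (fun X => geomY (by linarith) X)
    have hts : ∑' n : ℕ, Real.exp (-((n : ℝ) / (4 * (2 * M)))) ≤ 8 * (2 * M) :=
      Real.tsum_le_of_sum_range_le (fun n => (Real.exp_pos _).le) (fun X => geomY (by linarith) X)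
    have hterm : ∀ n : ℕ, ‖F (n + (X + 1))‖ ≤ M * 4 * Real.exp (-(M / 8)) * Real.exp (-((n : ℝ) / (4 * (2 * M)))) := by
      intro n
      refine (hFn _).trans ?_
      rw [← mul_assoc, mul_assoc (M * 4), ← Real.exp_add]
      refine mul_le_mul_of_nonneg_left (Real.exp_le_exp.2 ?_) (by positivity)
      have h1 : M ^ 2 + n ≤ ((n + (X + 1) : ℕ) : ℝ) := by
        push_cast
        linarith
      have h2 : M / 8 ≤ ((n + (X + 1) : ℕ) : ℝ) / (4 * (2 * M)) := by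
        rw [div_le_div_iff₀ (by norm_num) (by positivity)]
        have : (0 : ℝ) ≤ n := Nat.cast_nonneg n
        nlinarith
      have h3 : (n : ℝ) / (4 * (2 * M)) ≤ ((n + (X + 1) : ℕ) : ℝ) / (4 * (2 * M)) := by
        apply div_le_div_of_nonneg_right _ (by positivity)
        have : 0 ≤ M ^ 2 := by positivity
        linarith
      have h4 : ((n + (X + 1) : ℕ) : ℝ) / (4 * M) = ((n + (X + 1) : ℕ) : ℝ) / (4 * (2 * M)) + ((n + (X + 1) : ℕ) : ℝ) / (4 * (2 * M)) := by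
        rw [← add_div, div_eq_div_iff (by positivity) (by positivity)]
        ring
      linarith
    refine (tsum_of_norm_bounded (hsumm.mul_left _).hasSum hterm).trans ?_
    rw [tsum_mul_left]
    have h5 : M / 8 * Real.exp (-(M / 8)) ≤ 1 := by
      have h6 : M / 8 ≤ Real.exp (M / 8) := by
        have := Real.add_one_le_exp (M / 8)
        linarith
      calc M / 8 * Real.exp (-(M / 8)) ≤ Real.exp (M / 8) * Real.exp (-(M / 8)) :=
            mul_le_mul_of_nonneg_right h6 (Real.exp_pos _).le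
        _ = 1 := by rw [← Real.exp_add]; simp
    calc M * 4 * Real.exp (-(M / 8)) * ∑' n : ℕ, Real.exp (-((n : ℝ) / (4 * (2 * M)))) ≤
          M * 4 * Real.exp (-(M / 8)) * (8 * (2 * M)) := by gcongr
      _ = 512 * M * (M / 8 * Real.exp (-(M / 8))) := by ring
      _ ≤ 512 * M * 1 := by gcongr
      _ = 512 * M := mul_one _
  have hnorm : M * ‖Mt X M q χ t‖ ≤ C * ((q : ℝ) * (1 + |t|)) ^ δ * (2 * M) ^ (1 / 2 + a + δ) + 512 * M := by
    have e1 : M * ‖Mt X M q χ t‖ = ‖(M : ℂ) * Mt X M q χ t‖ := by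
      rw [norm_mul, Complex.norm_real, Real.norm_of_nonneg hM0.le]
    rw [e1, hfin]
    exact (norm_sub_le _ _).trans (add_le_add hb htail)
  obtain ⟨V, hV⟩ : ∃ V : ℝ, V = (q : ℝ) * (1 + |t|) := ⟨_, rfl⟩
  have hV1 : 1 ≤ V := by
    rw [hV]
    have := abs_nonneg t
    nlinarith
  rw [← hV] at hnorm ⊢
  have hVM : V ^ δ * M ^ δ ≤ (V * M) ^ ε := by
    rw [← Real.mul_rpow (by linarith) hM0.le]
    exact Real.rpow_le_rpow_of_exponent_le (by nlinarith) hδε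
  have hVM1 : 1 ≤ (V * M) ^ ε := Real.one_le_rpow (by nlinarith) hε.le
  have h2p : (2 : ℝ) ^ (1 / 2 + a + δ) ≤ 4 := by
    calc (2 : ℝ) ^ (1 / 2 + a + δ) ≤ (2 : ℝ) ^ (2 : ℝ) := Real.rpow_le_rpow_of_exponent_le (by norm_num) (by linarith)
      _ = 4 := by norm_num
  have hsM : Real.sqrt M = M ^ (1 / 2 : ℝ) := Real.sqrt_eq_rpow M
  have hMa : M ^ (1 / 2 : ℝ) ≤ M ^ a := Real.rpow_le_rpow_of_exponent_le hM ha
  have hexp : (2 * M) ^ (1 / 2 + a + δ) * M ^ (1 / 2 : ℝ) = (2 : ℝ) ^ (1 / 2 + a + δ) * (M ^ a * M ^ δ * M) := by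
    rw [Real.mul_rpow (by norm_num) hM0.le, mul_assoc, ← Real.rpow_add hM0]
    congr 1
    nth_rewrite 4 [← Real.rpow_one M]
    rw [← Real.rpow_add hM0, ← Real.rpow_add hM0]
    congr 1
    ring
  have hfinal : M * (‖Mt X M q χ t‖ * Real.sqrt M) ≤ M * ((C * 4 + 512) * (V * M) ^ ε * M ^ a) := by
    have h0 : 0 ≤ M ^ (1 / 2 : ℝ) := by positivity
    have hMa0 : 0 ≤ M ^ a := by positivity
    have g0 : M * (‖Mt X M q χ t‖ * Real.sqrt M) = (M * ‖Mt X M q χ t‖) * M ^ (1 / 2 : ℝ) := by rw [hsM]; ring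
    rw [g0]
    calc (M * ‖Mt X M q χ t‖) * M ^ (1 / 2 : ℝ) ≤ (C * V ^ δ * (2 * M) ^ (1 / 2 + a + δ) + 512 * M) * M ^ (1 / 2 : ℝ) :=
          mul_le_mul_of_nonneg_right hnorm h0
      _ = C * V ^ δ * ((2 * M) ^ (1 / 2 + a + δ) * M ^ (1 / 2 : ℝ)) + 512 * M * M ^ (1 / 2 : ℝ) := by ring
      _ = C * (2 : ℝ) ^ (1 / 2 + a + δ) * (V ^ δ * M ^ δ) * (M ^ a * M) + 512 * M * M ^ (1 / 2 : ℝ) := by rw [hexp]; ring
      _ ≤ C * 4 * (V * M) ^ ε * (M ^ a * M) + 512 * M * ((V * M) ^ ε * M ^ a) := by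
          have k1 : M ^ (1 / 2 : ℝ) ≤ (V * M) ^ ε * M ^ a := hMa.trans (le_mul_of_one_le_left hMa0 hVM1)
          gcongr
      _ = _ := by ring
  exact le_of_mul_le_mul_left hfinal hM0

end Pool.Helper5.WB
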