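import Pool.Agent.Helper5.WB.Small
import Pool.Agent.Helper5.WB.MBp
import Pool.Agent.Helper19.WZ.Fin

/-!
# WB-2: `Core (43/54) a`

`gm_small` with `B = C M^{a+ε'}` from `MB` (`M_g = M/g`, `q ≤ 2 M^{11/27}`, `|t| ≤ M`; `4 M²/g ≥ M_g²`; for `M_g < 1` impossible when `M ≥ 4`; small `M`: `‖GM‖ ≤ C`); `2 - 2 (43/54) = 11/27`.
-/

set_option autoImplicit false

namespace Pool.Helper5.WB

open ArithmeticFunction Finset
open Pool.Helper19.V4 Pool.Helper19.V5
open Pool.Agent.Helper25.HM (nt)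
open Pool.Agent.Helper25.WL (PR)
open Pool.Agent.Helper88.WS (wt)

/-- the trivial bound of the smooth sum -/
lemma norm_GM_triv {M : ℕ} (hM : 1 ≤ M) (x : ℝ) : ‖Pool.Helper19.WZ.GM M x‖ ≤ 16 * M := by
  have hM1 : (1 : ℝ) ≤ M := by exact_mod_cast hM
  have hM0 : (0 : ℝ) < M := by linarith
  have hsumm : Summable (fun n : ℕ => Real.exp (-((n : ℝ) / (4 * M)))) :=
    summable_of_sum_range_le (c := 8 * M) (fun n => (Real.exp_pos _).le) (fun X => geomY hM1 X)
  have hts : ∑' n : ℕ, Real.exp (-((n : ℝ) / (4 * M))) ≤ 8 * M :=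
    Real.tsum_le_of_sum_range_le (fun n => (Real.exp_pos _).le) (fun X => geomY hM1 X)
  have hterm : ∀ n : ℕ, ‖((ArithmeticFunction.moebius n : ℤ) : ℂ) * (wt M n : ℂ) * ex (n * x)‖ ≤ 2 * Real.exp (-((n : ℝ) / (4 * M))) := by
    intro n
    rw [norm_mul, norm_mul, norm_ex, mul_one, Complex.norm_real]
    have hw0 : 0 ≤ wt M n := by unfold wt; positivity
    rw [Real.norm_of_nonneg hw0]
    refine (mul_le_of_le_one_left hw0 (norm_mu n)).trans ?_
    unfold wt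
    obtain ⟨u, hu⟩ : ∃ u : ℝ, u = (n : ℝ) / M := ⟨_, rfl⟩
    have hu0 : 0 ≤ u := by rw [hu]; positivity
    have e2 : (n : ℝ) / (4 * M) = u / 4 := by rw [hu]; field_simp
    rw [e2, ← hu]
    have e3 : u ≤ 2 * Real.exp (u / 2) := by
      have := Real.add_one_le_exp (u / 2)
      linarith
    have e4 : Real.exp (u / 2) * Real.exp (-u) = Real.exp (-(u / 2)) := by
      rw [← Real.exp_add]
      congr 1
      ring
    have e5 : Real.exp (-(u / 2)) ≤ Real.exp (-(u / 4)) := Real.exp_le_exp.2 (by linarith)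
    calc u * Real.exp (-u) ≤ 2 * Real.exp (u / 2) * Real.exp (-u) := mul_le_mul_of_nonneg_right e3 (Real.exp_pos _).le
      _ = 2 * Real.exp (-(u / 2)) := by rw [mul_assoc, e4]
      _ ≤ _ := by linarith
  refine (tsum_of_norm_bounded (hsumm.mul_left _).hasSum hterm).trans ?_
  rw [tsum_mul_left]
  linarith

theorem coreW (hP : PL) {a : ℝ} (ha : 43 / 54 ≤ a) (ha1 : a ≤ 1) (hM : MB a) : Pool.Helper19.WZ.Core (43 / 54) a := by
  intro ε hε
  obtain ⟨C1, hC1, h1⟩ := gm_small hP (ε / 2) (by positivity)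
  obtain ⟨C2, hC2, h2⟩ := hM (ε / 6) (by positivity)
  refine ⟨64 + C1 * (1 + C2 * 4 ^ (ε / 6)), by positivity, fun M hM1 x b q hq hcop hQ => ?_⟩
  have hM1r : (1 : ℝ) ≤ M := by exact_mod_cast hM1
  have hM0 : (0 : ℝ) < M := by linarith
  have hε1 : 1 ≤ (M : ℝ) ^ ε := Real.one_le_rpow hM1r hε.le
  have hMa1 : 1 ≤ (M : ℝ) ^ (43 / 54 : ℝ) := Real.one_le_rpow hM1r (by norm_num)
  have hMa0 : 0 < (M : ℝ) ^ a := by positivity
  have hsum1 : 1 ≤ (M : ℝ) ^ (43 / 54 : ℝ) + (M : ℝ) ^ a := by linarith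
  have hK0 : 0 < C1 * (1 + C2 * 4 ^ (ε / 6)) := by positivity
  by_cases h4 : M < 4
  · have h5 := norm_GM_triv hM1 x
    have h6 : (M : ℝ) ≤ 4 := by exact_mod_cast h4.le
    calc ‖Pool.Helper19.WZ.GM M x‖ ≤ 64 := by linarith
      _ ≤ (64 + C1 * (1 + C2 * 4 ^ (ε / 6))) * 1 * 1 := by linarith
      _ ≤ _ := by gcongr
  · push Not at h4
    have h4r : (4 : ℝ) ≤ M := by exact_mod_cast h4
    have hexp : (2 - 2 * (43 / 54) : ℝ) = 11 / 27 := by norm_num
    rw [hexp] at hQ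
    have hqQ : (q : ℝ) ≤ QQ M x b q := by
      unfold QQ
      have h7 : (0 : ℝ) ≤ M * |x - b / q| := by positivity
      have h8 : (0 : ℝ) ≤ q := Nat.cast_nonneg q
      nlinarith
    have h2M : 2 * (M : ℝ) ^ (11 / 27 : ℝ) ≤ M := by
      have h9 : (2 : ℝ) ≤ (M : ℝ) ^ (16 / 27 : ℝ) := by
        calc (2 : ℝ) = (4 : ℝ) ^ (1 / 2 : ℝ) := by
              rw [show (4 : ℝ) = 2 ^ (2 : ℝ) by norm_num, ← Real.rpow_mul (by norm_num)]
              norm_num
          _ ≤ (4 : ℝ) ^ (16 / 27 : ℝ) := Real.rpow_le_rpow_of_exponent_le (by norm_num) (by norm_num)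
          _ ≤ (M : ℝ) ^ (16 / 27 : ℝ) := Real.rpow_le_rpow (by norm_num) h4r (by norm_num)
      calc 2 * (M : ℝ) ^ (11 / 27 : ℝ) ≤ (M : ℝ) ^ (16 / 27 : ℝ) * (M : ℝ) ^ (11 / 27 : ℝ) := by gcongr
        _ = M := by
            rw [← Real.rpow_add hM0]
            norm_num
    have hqM : (q : ℝ) ≤ M := by linarith
    obtain ⟨B, hB⟩ : ∃ B : ℝ, B = C2 * 4 ^ (ε / 6) * (M : ℝ) ^ (ε / 2) * (M : ℝ) ^ a := ⟨_, rfl⟩
    have hB0 : 0 ≤ B := by rw [hB]; positivity
    have hmain := h1 M hM1 x b q hq hcop hQ B hB0 (by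
      intro g r hgr χ t ht
      have hg0 : 0 < g := by
        rcases Nat.eq_zero_or_pos g with h | h
        · rw [h, zero_mul] at hgr
          omega
        · exact h
      have hr0 : 0 < r := by
        rcases Nat.eq_zero_or_pos r with h | h
        · rw [h, mul_zero] at hgr
          omega
        · exact h
      have : NeZero r := ⟨hr0.ne'⟩
      have : NeZero q := ⟨by omega⟩
      have hgq : g ≤ q := by
        rw [← hgr]
        exact Nat.le_mul_of_pos_right g hr0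
      have hgR : (1 : ℝ) ≤ g := by exact_mod_cast hg0
      have hg0R : (0 : ℝ) < g := by linarith
      have hgM : (g : ℝ) ≤ M := le_trans (by exact_mod_cast hgq) hqM
      have hY1 : 1 ≤ (M : ℝ) / g := by
        rw [le_div_iff₀ hg0R]
        linarith
      have hYM : (M : ℝ) / g ≤ M := div_le_self hM0.le hgR
      have hX : ((M : ℝ) / g) ^ 2 ≤ ((4 * M ^ 2 / g : ℕ) : ℝ) := by
        have k1 : (4 * (M : ℝ) ^ 2) / g < ((4 * M ^ 2 / g : ℕ) : ℝ) + 1 := by
          have k2 := Nat.lt_div_mul_add (a := 4 * M ^ 2) hg0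
          rw [div_lt_iff₀ hg0R]
          have k3 : ((4 * M ^ 2 : ℕ) : ℝ) < ((4 * M ^ 2 / g * g + g : ℕ) : ℝ) := by exact_mod_cast k2
          push_cast at k3
          push_cast
          linarith
        have k4 : ((M : ℝ) / g) ^ 2 ≤ (M : ℝ) ^ 2 / g := by
          rw [div_pow]
          apply div_le_div_of_nonneg_left (by positivity) hg0R
          nlinarith
        have k5 : 1 ≤ (M : ℝ) ^ 2 / g := by
          rw [le_div_iff₀ hg0R]
          nlinarith
        have k6 : (4 * (M : ℝ) ^ 2) / g = 4 * ((M : ℝ) ^ 2 / g) := by ring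
        linarith
      have hb := h2 q r (by rw [← hgr]; exact Dvd.intro_left _ rfl) χ t ((M : ℝ) / g) (4 * M ^ 2 / g) hY1 hX
      refine hb.trans ?_
      have hbase : (q : ℝ) * (1 + |t|) * ((M : ℝ) / g) ≤ 4 * M ^ (3 : ℕ) := by
        have l1 : 1 + |t| ≤ 2 * M := by linarith
        calc (q : ℝ) * (1 + |t|) * ((M : ℝ) / g) ≤ M * (2 * M) * M := by
              have : (0 : ℝ) ≤ q := Nat.cast_nonneg q
              have : 0 ≤ 1 + |t| := by positivity
              gcongr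
          _ ≤ _ := by nlinarith [pow_pos hM0 3]
      have hpw : ((q : ℝ) * (1 + |t|) * ((M : ℝ) / g)) ^ (ε / 6) ≤ 4 ^ (ε / 6) * (M : ℝ) ^ (ε / 2) := by
        calc ((q : ℝ) * (1 + |t|) * ((M : ℝ) / g)) ^ (ε / 6) ≤ (4 * (M : ℝ) ^ (3 : ℕ)) ^ (ε / 6) :=
              Real.rpow_le_rpow (by positivity) hbase (by positivity)
          _ = 4 ^ (ε / 6) * (M : ℝ) ^ (ε / 2) := by
              rw [Real.mul_rpow (by norm_num) (by positivity), ← Real.rpow_natCast, ← Real.rpow_mul hM0.le]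
              congr 2
              push_cast
              ring
      have hya : ((M : ℝ) / g) ^ a ≤ (M : ℝ) ^ a := Real.rpow_le_rpow (by positivity) hYM (by linarith)
      rw [hB]
      calc C2 * ((q : ℝ) * (1 + |t|) * ((M : ℝ) / g)) ^ (ε / 6) * ((M : ℝ) / g) ^ a ≤
            C2 * (4 ^ (ε / 6) * (M : ℝ) ^ (ε / 2)) * (M : ℝ) ^ a := by gcongr
        _ = _ := by ring)
    have hGM : Pool.Helper19.WZ.GM M x = GM M x := rfl
    rw [hGM]
    refine hmain.trans ?_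
    rw [hB]
    have hhalf : (M : ℝ) ^ (ε / 2) * (M : ℝ) ^ (ε / 2) = (M : ℝ) ^ ε := by
      rw [← Real.rpow_add hM0]
      congr 1
      ring
    have hh1 : 1 ≤ (M : ℝ) ^ (ε / 2) := Real.one_le_rpow hM1r (by positivity)
    have hh2 : (M : ℝ) ^ (ε / 2) ≤ (M : ℝ) ^ ε := Real.rpow_le_rpow_of_exponent_le hM1r (by linarith)
    obtain ⟨K, hK⟩ : ∃ K : ℝ, K = C2 * 4 ^ (ε / 6) := ⟨_, rfl⟩
    have hK0 : 0 < K := by rw [hK]; positivity
    obtain ⟨E, hE⟩ : ∃ E : ℝ, E = (M : ℝ) ^ ε := ⟨_, rfl⟩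
    obtain ⟨H, hH⟩ : ∃ H : ℝ, H = (M : ℝ) ^ (ε / 2) := ⟨_, rfl⟩
    obtain ⟨P, hP'⟩ : ∃ P : ℝ, P = (M : ℝ) ^ (43 / 54 : ℝ) := ⟨_, rfl⟩
    obtain ⟨R, hR⟩ : ∃ R : ℝ, R = (M : ℝ) ^ a := ⟨_, rfl⟩
    rw [← hK, ← hE, ← hH, ← hP', ← hR]
    rw [← hE, ← hH] at hh2 hhalf
    rw [← hP'] at hMa1
    rw [← hR] at hMa0
    rw [← hE] at hε1
    have hP0 : 0 < P := by linarith
    have hE0 : 0 < E := by linarith
    calc C1 * H * (P + K * H * R) = C1 * (H * P) + C1 * K * (H * H) * R := by ring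
      _ ≤ C1 * (E * P) + C1 * K * E * R := by
          rw [hhalf]
          gcongr
      _ ≤ (64 + C1 * (1 + K)) * E * (P + R) := by
          have z1 : 0 ≤ 64 * E * (P + R) := by positivity
          have z2 : 0 ≤ C1 * E * R := by positivity
          have z3 : 0 ≤ C1 * K * E * P := by positivity
          nlinarith

end Pool.Helper5.WB
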