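import Pool.Agent.Helper5.WB.Defs

/-!
# WB-12: the number of large values of a smooth factor, from the fourth moment

`KF true z e q χ t = ∑_{n ≤ 2 L} psi(n/L) 1_{(n,q)=1} χ(n) n^{it}`, `L = 2^e`; `nt n t = n^{it}`. The number of `p ∈ W` times `L^{4(1-g)} N^{4ε}` is at most
`C N^{ε'} r T L²` (`M4` with `ε' ≤ ε`: the exceptional cells of `M4` are exceptional for `FS`), so the number is at most `C N^{ε'} (r T) L^{4g-2} ≤ C N^{ε'} (r T)^{2g}`, and `2g ≤ 27g/11`.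
-/

set_option autoImplicit false

namespace Pool.Helper5.WB

open ArithmeticFunction Finset
open Pool.Helper19.V4 Pool.Helper19.V5
open Pool.Agent.Helper25.HM (nt)
open Pool.Agent.Helper25.WL (PR)
open Pool.Agent.Helper88.WS (wt)

private lemma nt_cpow62 {n : ℕ} (hn : 1 ≤ n) (t : ℝ) : (n : ℂ) ^ (Complex.I * t) = nt n t := by
  have hn0 : (0 : ℝ) < n := by exact_mod_cast hn
  have hn1 : (n : ℂ) ≠ 0 := by exact_mod_cast hn0.ne'
  unfold nt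
  rw [Complex.cpow_def_of_ne_zero hn1]
  congr 1
  have : Complex.log (n : ℂ) = ((Real.log n : ℝ) : ℂ) := by
    rw [Complex.ofReal_log hn0.le]
    simp
  rw [this]
  push_cast
  ring

private lemma KF_eq62 (z e q : ℕ) {r : ℕ} (χ : DirichletCharacter ℂ r) (t : ℝ) :
    KF true z e q χ t = ∑ n ∈ Icc 1 ⌊2 * (2 : ℝ) ^ e⌋₊, (psi (n / (2 : ℝ) ^ e) : ℂ) * (if Nat.Coprime n q then 1 else 0) *
      χ (n : ZMod r) * (n : ℂ) ^ (Complex.I * t) := by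
  have h1 : ⌊2 * (2 : ℝ) ^ e⌋₊ = 2 ^ (e + 1) := by
    have : 2 * (2 : ℝ) ^ e = ((2 ^ (e + 1) : ℕ) : ℝ) := by
      push_cast
      ring
    rw [this, Nat.floor_natCast]
  rw [h1]
  unfold KF PR
  refine sum_congr rfl fun n hn => ?_
  rw [mem_Icc] at hn
  rw [nt_cpow62 hn.1]
  have hn0 : n ≠ 0 := by omega
  unfold fc
  by_cases hc : Nat.Coprime n q
  · rw [if_pos ⟨hn0, hc⟩, if_pos hc]
    simp only [if_true]
    ring
  · rw [if_neg (fun h => hc h.2), if_neg hc]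
    ring

theorem fs (h : M4) : FS := by
  classical
  intro ε hε
  obtain ⟨C, hC, h4⟩ := h ε hε
  refine ⟨C, hC, fun N q r _ _ hrq T e z hN hT hqN hrL s hs W hW hexc g hg1 hg2 hlarge => ?_⟩
  have hN0 : 0 < N := by linarith
  have hr1 : (1 : ℝ) ≤ r := by exact_mod_cast Nat.one_le_iff_ne_zero.2 (NeZero.ne r)
  have hT1 : (1 : ℝ) ≤ T := by exact_mod_cast hT
  have hrT : 1 ≤ (r : ℝ) * T := by nlinarith
  have hrT0 : 0 < (r : ℝ) * T := by linarith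
  obtain ⟨L, hL⟩ : ∃ L : ℝ, L = (2 : ℝ) ^ e := ⟨_, rfl⟩
  have hL1 : 1 ≤ L := by rw [hL]; exact one_le_pow₀ (by norm_num)
  have hL0 : 0 < L := by linarith
  rw [← hL] at hqN hrL hlarge
  have hX0 : 0 ≤ (q : ℝ) * T * L := by positivity
  have hXN : ((q : ℝ) * T * L) ^ ε ≤ N ^ ε := Real.rpow_le_rpow hX0 hqN hε.le
  have h5 := h4 q r hrq T L hT hL1 s hs
  have hsub : W ⊆ ((univ : Finset (DirichletCharacter ℂ r)) ×ˢ Icc (-(T : ℤ)) T).filter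
        (fun p => ¬ (p.1 = 1 ∧ |(p.2 : ℝ)| ≤ ((q : ℝ) * T * L) ^ ε)) := by
    intro p hp
    rw [mem_filter]
    exact ⟨hW hp, fun h6 => hexc p hp ⟨h6.1, h6.2.trans hXN⟩⟩
  obtain ⟨V, hV⟩ : ∃ V : ℝ, V = L ^ (1 - g) * N ^ ε := ⟨_, rfl⟩
  rw [← hV] at hlarge
  have hV0 : 0 < V := by rw [hV]; positivity
  have h6 : (W.card : ℝ) * V ^ 4 ≤ C * N ^ ε * (r * T * L ^ 2) := by
    calc (W.card : ℝ) * V ^ 4 = ∑ _p ∈ W, V ^ 4 := by rw [sum_const, nsmul_eq_mul]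
      _ ≤ ∑ p ∈ W, ‖KF true z e q p.1 (s p)‖ ^ 4 := sum_le_sum fun p hp => pow_le_pow_left₀ hV0.le (hlarge p hp) 4
      _ = ∑ p ∈ W, ‖∑ n ∈ Icc 1 ⌊2 * L⌋₊, (psi (n / L) : ℂ) * (if Nat.Coprime n q then 1 else 0) * p.1 (n : ZMod r) *
          (n : ℂ) ^ (Complex.I * s p)‖ ^ 4 := by
          rw [hL]
          exact sum_congr rfl fun p _ => by rw [KF_eq62]
      _ ≤ ∑ p ∈ ((univ : Finset (DirichletCharacter ℂ r)) ×ˢ Icc (-(T : ℤ)) T).filter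
            (fun p => ¬ (p.1 = 1 ∧ |(p.2 : ℝ)| ≤ ((q : ℝ) * T * L) ^ ε)),
          ‖∑ n ∈ Icc 1 ⌊2 * L⌋₊, (psi (n / L) : ℂ) * (if Nat.Coprime n q then 1 else 0) * p.1 (n : ZMod r) *
          (n : ℂ) ^ (Complex.I * s p)‖ ^ 4 :=
          sum_le_sum_of_subset_of_nonneg hsub fun _ _ _ => by positivity
      _ ≤ C * ((q : ℝ) * T * L) ^ ε * (r * T * L ^ 2) := by
          refine le_trans (le_of_eq ?_) h5
          exact sum_congr (by congr) fun _ _ => rfl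
      _ ≤ _ := by gcongr
  have hNε : 1 ≤ N ^ ε := Real.one_le_rpow hN hε.le
  have hV4 : L ^ (4 - 4 * g) ≤ V ^ 4 := by
    have e1 : V ^ 4 = L ^ (4 - 4 * g) * (N ^ ε) ^ 4 := by
      rw [hV, mul_pow, ← Real.rpow_natCast (L ^ (1 - g)), ← Real.rpow_mul hL0.le]
      congr 2
      push_cast
      ring
    rw [e1]
    exact le_mul_of_one_le_right (by positivity) (one_le_pow₀ hNε)
  have h7 : (W.card : ℝ) * L ^ (4 - 4 * g) ≤ C * N ^ ε * (r * T * L ^ 2) :=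
    (mul_le_mul_of_nonneg_left hV4 (Nat.cast_nonneg _)).trans h6
  have h8 : (r : ℝ) * T * L ^ 2 ≤ ((r : ℝ) * T) ^ (2 * g) * L ^ (4 - 4 * g) := by
    have e1 : L ^ 2 = L ^ (4 - 4 * g) * (L ^ 2) ^ (2 * g - 1) := by
      rw [← Real.rpow_natCast L 2, ← Real.rpow_mul hL0.le, ← Real.rpow_add hL0]
      congr 1
      push_cast
      ring
    have e2 : (L ^ 2) ^ (2 * g - 1) ≤ ((r : ℝ) * T) ^ (2 * g - 1) :=
      Real.rpow_le_rpow_of_nonpos hrT0 hrL (by linarith)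
    have e3 : ((r : ℝ) * T) ^ (2 * g) = (r * T) * ((r : ℝ) * T) ^ (2 * g - 1) := by
      nth_rewrite 2 [← Real.rpow_one ((r : ℝ) * T)]
      rw [← Real.rpow_add hrT0]
      congr 1
      ring
    rw [e3]
    nth_rewrite 1 [e1]
    calc (r : ℝ) * T * (L ^ (4 - 4 * g) * (L ^ 2) ^ (2 * g - 1))
        ≤ (r : ℝ) * T * (L ^ (4 - 4 * g) * ((r : ℝ) * T) ^ (2 * g - 1)) := by gcongr
      _ = _ := by ring
  have h9 : (W.card : ℝ) ≤ C * N ^ ε * ((r : ℝ) * T) ^ (2 * g) := by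
    have hLp : 0 < L ^ (4 - 4 * g) := by positivity
    have h10 : (W.card : ℝ) * L ^ (4 - 4 * g) ≤ (C * N ^ ε * ((r : ℝ) * T) ^ (2 * g)) * L ^ (4 - 4 * g) := by
      calc (W.card : ℝ) * L ^ (4 - 4 * g) ≤ C * N ^ ε * (r * T * L ^ 2) := h7
        _ ≤ C * N ^ ε * (((r : ℝ) * T) ^ (2 * g) * L ^ (4 - 4 * g)) := by gcongr
        _ = _ := by ring
    exact le_of_mul_le_mul_right h10 hLp
  refine h9.trans ?_
  apply mul_le_mul_of_nonneg_left _ (by positivity)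
  exact Real.rpow_le_rpow_of_exponent_le hrT (by linarith)

end Pool.Helper5.WB
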