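import Pool.Agent.Helper5.WB.LVR

/-!
# WB-13: the number of large values of `Mt`

The case `ρ g = 27 g/11`, `g0 = 11/54` of `lvr` (file `WB/LVR.lean`).
-/

set_option autoImplicit false

namespace Pool.Helper5.WB

theorem lvw (hB : BOX) (hG : FG) (hS : FS) : LVW :=
  Pool.Agent.Helper25.WL.LVr_iff.1
    (lvr (ρ := fun g => 27 * g / 11) (g0 := 11 / 54) (by norm_num)
      (fun g hg hg' => ⟨by linarith, by linarith⟩) hB
      (Pool.Agent.Helper25.WL.FGr_iff.2 hG) (Pool.Agent.Helper25.WL.FSr_iff.2 hS))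

end Pool.Helper5.WB
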