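import Pool.Agent.Helper5.WB.Defs

/-!
# WB-14: the sum over all cells

`v(p) = ‖Mt‖ √M`. Exceptional cells (`p.1 = 1`, `|p.2| ≤ M^ε`): at most `3 M^ε`, each `≤ B`. Others: `v < M^{1/2+ε}`: sum `≤ 3 r T M^{1/2+ε}`,
`√(r T) ≤ M^{11/54 + ε/2}`, `11/54 + 1/2 ≤ 43/54`. `v ≥ M^{43/54+ε}`: `LVW` with `g = 11/54` gives `≤ C M^ε √(r T)` cells, each `≤ B`. In between a grid
`11/54 = g_0 < g_1 < ... < g_K = 1/2` of step `≤ ε`: the cells with `M^{1-g_j+ε} ≤ v < M^{1-g_{j-1}+ε}` contribute at most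
`C M^ε (r T)^{27 g_j/11} M^{1-g_j+2ε}` and `(r T)^{27 g_j/11 - 1/2} ≤ M^{(11/27+ε)(27 g_j/11 - 1/2)} ≤ M^{g_j - 11/54 + ε}`.
-/

set_option autoImplicit false

namespace Pool.Helper5.WB

open ArithmeticFunction Finset
open Pool.Helper19.V4 Pool.Helper19.V5
open Pool.Agent.Helper25.HM (nt)
open Pool.Agent.Helper25.WL (PR)
open Pool.Agent.Helper88.WS (wt)

/-- the grid -/
private noncomputable def gj49 (ε : ℝ) (j : ℕ) : ℝ := min (1 / 2) (11 / 54 + j * ε)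

private lemma gj_mem49 {ε : ℝ} (hε : 0 < ε) (j : ℕ) : 11 / 54 ≤ gj49 ε j ∧ gj49 ε j ≤ 1 / 2 := by
  unfold gj49
  refine ⟨le_min (by norm_num) ?_, min_le_left _ _⟩
  have : 0 ≤ (j : ℝ) * ε := by positivity
  linarith

/-- the position of a value in the grid -/
private lemma grid49 {ε M x : ℝ} (hε : 0 < ε) (hM : 1 ≤ M) (h1 : M ^ (1 / 2 + ε) ≤ x)
    (h2 : x < M ^ (43 / 54 + ε)) : ∃ j ∈ range (⌈(16 / 54 : ℝ) / ε⌉₊ + 1),
      M ^ (1 - gj49 ε j + ε) ≤ x ∧ x ≤ M ^ (1 - gj49 ε j + 2 * ε) := by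
  have hM0 : 0 < M := by linarith
  have hM1 : 1 < M := by
    rcases hM.eq_or_lt with h | h
    · rw [← h, Real.one_rpow] at h1 h2
      linarith
    · exact h
  have hx : 0 < x := lt_of_lt_of_le (Real.rpow_pos_of_pos hM0 _) h1
  set y : ℝ := Real.logb M x with hy
  have hxy : M ^ y = x := Real.rpow_logb hM0 hM1.ne' hx
  have hy1 : 1 / 2 + ε ≤ y := by
    rw [← hxy] at h1
    exact (Real.rpow_le_rpow_left_iff hM1).1 h1
  have hy2 : y < 43 / 54 + ε := by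
    rw [← hxy] at h2
    exact (Real.rpow_lt_rpow_left_iff hM1).1 h2
  set u : ℝ := (43 / 54 + ε - y) / ε with hu
  have hu0 : 0 ≤ u := div_nonneg (by linarith) hε.le
  have hu1 : u ≤ (16 / 54) / ε := by
    rw [hu]
    exact div_le_div_of_nonneg_right (by linarith) hε.le
  refine ⟨⌈u⌉₊, mem_range.2 (Nat.lt_succ_of_le (Nat.ceil_mono hu1)), ?_⟩
  have hc1 : u ≤ (⌈u⌉₊ : ℝ) := Nat.le_ceil u
  have hc2 : (⌈u⌉₊ : ℝ) < u + 1 := Nat.ceil_lt_add_one hu0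
  have hue : u * ε = 43 / 54 + ε - y := by
    rw [hu]
    field_simp
  have hc3 : 43 / 54 + ε - y ≤ (⌈u⌉₊ : ℝ) * ε := by
    rw [← hue]
    exact mul_le_mul_of_nonneg_right hc1 hε.le
  have hc4 : (⌈u⌉₊ : ℝ) * ε < 43 / 54 + 2 * ε - y := by
    have := mul_lt_mul_of_pos_right hc2 hε
    rw [add_mul, one_mul, hue] at this
    linarith
  have hg1 : 1 + ε - y ≤ gj49 ε ⌈u⌉₊ := by
    unfold gj49
    refine le_min (by linarith) (by linarith)
  have hg2 : gj49 ε ⌈u⌉₊ ≤ 11 / 54 + (⌈u⌉₊ : ℝ) * ε := min_le_right _ _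
  constructor
  · rw [← hxy]
    exact Real.rpow_le_rpow_of_exponent_le hM (by linarith)
  · rw [← hxy]
    exact Real.rpow_le_rpow_of_exponent_le hM (by linarith)

/-- the powers of `A = r T` -/
private lemma pow49 {ε M A g : ℝ} (hε : 0 < ε) (hM : 1 ≤ M) (hA1 : 1 ≤ A) (hA : A ≤ M ^ (11 / 27 + ε))
    (hg1 : 11 / 54 ≤ g) (hg2 : g ≤ 1 / 2) : A ^ (27 * g / 11) ≤ Real.sqrt A * M ^ (g - 11 / 54 + ε) := by
  have hM0 : 0 < M := by linarith
  have hA0 : 0 < A := by linarith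
  have h1 : A ^ (27 * g / 11) = A ^ (1 / 2 : ℝ) * A ^ (27 * g / 11 - 1 / 2) := by
    rw [← Real.rpow_add hA0]
    congr 1
    ring
  rw [h1, Real.sqrt_eq_rpow]
  apply mul_le_mul_of_nonneg_left _ (by positivity)
  have h2 : 0 ≤ 27 * g / 11 - 1 / 2 := by linarith
  calc A ^ (27 * g / 11 - 1 / 2) ≤ (M ^ (11 / 27 + ε)) ^ (27 * g / 11 - 1 / 2) :=
        Real.rpow_le_rpow hA0.le hA h2
    _ = M ^ ((11 / 27 + ε) * (27 * g / 11 - 1 / 2)) := by rw [← Real.rpow_mul hM0.le]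
    _ ≤ M ^ (g - 11 / 54 + ε) := by
        apply Real.rpow_le_rpow_of_exponent_le hM
        nlinarith

private lemma card_cells49 (r T : ℕ) [NeZero r] (hT : 1 ≤ T) :
    (((univ : Finset (DirichletCharacter ℂ r)) ×ˢ Icc (-(T : ℤ)) T).card : ℝ) ≤ 3 * ((r : ℝ) * T) := by
  rw [card_product, Int.card_Icc]
  have h1 : (univ : Finset (DirichletCharacter ℂ r)).card ≤ r := by
    rw [card_univ, ← Nat.card_eq_fintype_card, DirichletCharacter.card_eq_totient_of_hasEnoughRootsOfUnity]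
    exact Nat.totient_le r
  have h2 : ((T : ℤ) + 1 - -(T : ℤ)).toNat = 2 * T + 1 := by omega
  rw [h2]
  have h3 : (univ : Finset (DirichletCharacter ℂ r)).card * (2 * T + 1) ≤ r * (3 * T) :=
    Nat.mul_le_mul h1 (by omega)
  calc (((univ : Finset (DirichletCharacter ℂ r)).card * (2 * T + 1) : ℕ) : ℝ) ≤ ((r * (3 * T) : ℕ) : ℝ) := by
        exact_mod_cast h3
    _ = 3 * ((r : ℝ) * T) := by
        push_cast
        ring

private lemma card_exc49 {r : ℕ} {y : ℝ} (hy : 1 ≤ y)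
    (E : Finset (DirichletCharacter ℂ r × ℤ)) (hE : ∀ p ∈ E, p.1 = 1 ∧ |(p.2 : ℝ)| ≤ y) : (E.card : ℝ) ≤ 3 * y := by
  classical
  have hsub : E ⊆ ({1} : Finset (DirichletCharacter ℂ r)) ×ˢ Icc (-⌊y⌋) ⌊y⌋ := by
    intro p hp
    obtain ⟨h1, h2⟩ := hE p hp
    rw [abs_le] at h2
    rw [mem_product, mem_singleton, mem_Icc]
    refine ⟨h1, ?_, Int.le_floor.2 h2.2⟩
    have h3 : -p.2 ≤ ⌊y⌋ := Int.le_floor.2 (by push_cast; linarith)
    linarith
  have h1 := card_le_card hsub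
  rw [card_product, card_singleton, one_mul, Int.card_Icc] at h1
  have hf0 : 0 ≤ ⌊y⌋ := Int.floor_nonneg.2 (by linarith)
  have h2 : ((⌊y⌋ + 1 - -⌊y⌋).toNat : ℤ) = 2 * ⌊y⌋ + 1 := by
    rw [Int.toNat_of_nonneg (by linarith)]
    ring
  have h3 : (((⌊y⌋ + 1 - -⌊y⌋).toNat : ℕ) : ℝ) = 2 * (⌊y⌋ : ℝ) + 1 := by exact_mod_cast h2
  have h4 : (⌊y⌋ : ℝ) ≤ y := Int.floor_le y
  calc (E.card : ℝ) ≤ (((⌊y⌋ + 1 - -⌊y⌋).toNat : ℕ) : ℝ) := by exact_mod_cast h1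
    _ = 2 * (⌊y⌋ : ℝ) + 1 := h3
    _ ≤ 3 * y := by linarith

theorem plc (h : LVW) : PL := by
  classical
  intro ε hε hε1
  obtain ⟨C₀, hC₀, hL⟩ := h ε hε
  set K : ℕ := ⌈(16 / 54 : ℝ) / ε⌉₊ + 1 with hK
  refine ⟨6 + C₀ + K * C₀, by positivity, ?_⟩
  intro q r _ _ hrq T X M B hT hM hA hq hX1 hX2 hB s hs
  set A : ℝ := (r : ℝ) * T with hAdef
  have hr1 : (1 : ℝ) ≤ r := by exact_mod_cast Nat.one_le_iff_ne_zero.2 (NeZero.ne r)
  have hT1 : (1 : ℝ) ≤ T := by exact_mod_cast hT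
  have hA1 : 1 ≤ A := by nlinarith
  have hA0 : 0 < A := by linarith
  have hM0 : 0 < M := by linarith
  have hAM : A ≤ M := by
    refine hA.trans ?_
    calc M ^ (11 / 27 + ε) ≤ M ^ (1 : ℝ) := Real.rpow_le_rpow_of_exponent_le hM (by linarith)
      _ = M := Real.rpow_one M
  set cells : Finset (DirichletCharacter ℂ r × ℤ) := (univ : Finset (DirichletCharacter ℂ r)) ×ˢ Icc (-(T : ℤ)) T with hcells
  set v : DirichletCharacter ℂ r × ℤ → ℝ := fun p => ‖Mt X M q p.1 (s p)‖ * Real.sqrt M with hv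
  have hv0 : ∀ p, 0 ≤ v p := fun p => by positivity
  have hvB : ∀ p ∈ cells, v p ≤ B := by
    intro p hp
    rw [hcells, mem_product, mem_Icc] at hp
    apply hB
    obtain ⟨h1, h2⟩ := hs p
    have h3 : (-(T : ℝ)) ≤ p.2 := by exact_mod_cast hp.2.1
    have h4 : (p.2 : ℝ) ≤ T := by exact_mod_cast hp.2.2
    rw [abs_le]
    constructor <;> linarith
  have hB0 : 0 ≤ B := by
    have h1 : ((1 : DirichletCharacter ℂ r), (0 : ℤ)) ∈ cells := by
      rw [hcells, mem_product, mem_Icc]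
      refine ⟨mem_univ _, ?_, ?_⟩ <;> simp
    exact (hv0 _).trans (hvB _ h1)
  set Ex : DirichletCharacter ℂ r × ℤ → Prop := fun p => p.1 = 1 ∧ |(p.2 : ℝ)| ≤ M ^ ε with hEx
  set E := cells.filter Ex with hE
  set Na := cells.filter (fun p => v p < M ^ (1 / 2 + ε)) with hNa
  set Nb := cells.filter (fun p => ¬ Ex p ∧ M ^ (43 / 54 + ε) ≤ v p) with hNb
  set W : ℕ → Finset (DirichletCharacter ℂ r × ℤ) := fun j => cells.filter
    (fun p => ¬ Ex p ∧ M ^ (1 - gj49 ε j + ε) ≤ v p ∧ v p ≤ M ^ (1 - gj49 ε j + 2 * ε)) with hW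
  have hMe : 1 ≤ M ^ ε := Real.one_le_rpow hM hε.le
  have hsA : 1 ≤ Real.sqrt A := by rw [Real.one_le_sqrt]; exact hA1
  have hM5 : M ^ ε ≤ M ^ (5 * ε) := Real.rpow_le_rpow_of_exponent_le hM (by linarith)
  have hM50 : 0 < M ^ (5 * ε) := Real.rpow_pos_of_pos hM0 _
  have hMc : 0 < M ^ (43 / 54 : ℝ) := Real.rpow_pos_of_pos hM0 _
  -- splitting
  have hsplit : ∑ p ∈ cells, v p ≤ ∑ p ∈ E, v p + ∑ p ∈ Na, v p + ∑ p ∈ Nb, v p +
      ∑ j ∈ range K, ∑ p ∈ W j, v p := by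
    have h1 : ∀ p ∈ cells, v p ≤ (if Ex p then v p else 0) + (if v p < M ^ (1 / 2 + ε) then v p else 0) +
        (if ¬ Ex p ∧ M ^ (43 / 54 + ε) ≤ v p then v p else 0) +
        ∑ j ∈ range K, (if ¬ Ex p ∧ M ^ (1 - gj49 ε j + ε) ≤ v p ∧ v p ≤ M ^ (1 - gj49 ε j + 2 * ε) then v p else 0) := by
      intro p _
      have hn1 : 0 ≤ (if Ex p then v p else 0) := by split_ifs; exacts [hv0 p, le_rfl]
      have hn2 : 0 ≤ (if v p < M ^ (1 / 2 + ε) then v p else 0) := by split_ifs; exacts [hv0 p, le_rfl]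
      have hn3 : 0 ≤ (if ¬ Ex p ∧ M ^ (43 / 54 + ε) ≤ v p then v p else 0) := by split_ifs; exacts [hv0 p, le_rfl]
      have hn4 : ∀ j ∈ range K, 0 ≤ (if ¬ Ex p ∧ M ^ (1 - gj49 ε j + ε) ≤ v p ∧
          v p ≤ M ^ (1 - gj49 ε j + 2 * ε) then v p else 0) := by
        intro j _
        split_ifs
        exacts [hv0 p, le_rfl]
      have hn5 := sum_nonneg hn4
      by_cases c1 : Ex p
      · rw [if_pos c1] at hn1 ⊢
        linarith
      · by_cases c2 : v p < M ^ (1 / 2 + ε)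
        · rw [if_pos c2] at hn2 ⊢
          linarith
        · by_cases c3 : M ^ (43 / 54 + ε) ≤ v p
          · rw [if_pos (⟨c1, c3⟩ : ¬ Ex p ∧ M ^ (43 / 54 + ε) ≤ v p)] at hn3 ⊢
            linarith
          · push Not at c2 c3
            obtain ⟨j, hj, hj1, hj2⟩ := grid49 hε hM c2 c3
            have h6 := single_le_sum hn4 hj
            rw [if_pos ⟨c1, hj1, hj2⟩] at h6
            linarith
    refine (sum_le_sum h1).trans (le_of_eq ?_)
    rw [sum_add_distrib, sum_add_distrib, sum_add_distrib, sum_comm, ← sum_filter, ← sum_filter, ← sum_filter]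
    congr 1
    apply sum_congr rfl
    intro j _
    rw [← sum_filter]
  -- exceptional cells
  have hEs : ∑ p ∈ E, v p ≤ 3 * (M ^ (5 * ε) * Real.sqrt A * B) := by
    have h1 : (E.card : ℝ) ≤ 3 * M ^ ε := card_exc49 hMe E fun p hp => (mem_filter.1 hp).2
    calc ∑ p ∈ E, v p ≤ ∑ p ∈ E, B := sum_le_sum fun p hp => hvB p (mem_filter.1 hp).1
      _ = E.card * B := by rw [sum_const, nsmul_eq_mul]
      _ ≤ 3 * M ^ ε * B := mul_le_mul_of_nonneg_right h1 hB0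
      _ ≤ 3 * M ^ (5 * ε) * B := by
          apply mul_le_mul_of_nonneg_right _ hB0
          linarith
      _ = 3 * (M ^ (5 * ε) * 1 * B) := by ring
      _ ≤ 3 * (M ^ (5 * ε) * Real.sqrt A * B) := by
          apply mul_le_mul_of_nonneg_left _ (by norm_num)
          apply mul_le_mul_of_nonneg_right _ hB0
          exact mul_le_mul_of_nonneg_left hsA hM50.le
  -- small values
  have hNas : ∑ p ∈ Na, v p ≤ 3 * (M ^ (5 * ε) * Real.sqrt A * M ^ (43 / 54 : ℝ)) := by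
    have h1 : (Na.card : ℝ) ≤ 3 * A := by
      refine le_trans ?_ (card_cells49 r T hT)
      exact_mod_cast card_le_card (filter_subset _ _)
    have h2 : 0 < M ^ (1 / 2 + ε) := Real.rpow_pos_of_pos hM0 _
    have h3 : A = Real.sqrt A * Real.sqrt A := (Real.mul_self_sqrt hA0.le).symm
    have h4 : Real.sqrt A ≤ M ^ (11 / 54 + ε / 2) := by
      rw [Real.sqrt_eq_rpow]
      calc A ^ (1 / 2 : ℝ) ≤ (M ^ (11 / 27 + ε)) ^ (1 / 2 : ℝ) := Real.rpow_le_rpow hA0.le hA (by norm_num)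
        _ = M ^ ((11 / 27 + ε) * (1 / 2)) := by rw [← Real.rpow_mul hM0.le]
        _ = M ^ (11 / 54 + ε / 2) := by
            congr 1
            ring
    calc ∑ p ∈ Na, v p ≤ ∑ p ∈ Na, M ^ (1 / 2 + ε) := sum_le_sum fun p hp => (mem_filter.1 hp).2.le
      _ = Na.card * M ^ (1 / 2 + ε) := by rw [sum_const, nsmul_eq_mul]
      _ ≤ 3 * A * M ^ (1 / 2 + ε) := mul_le_mul_of_nonneg_right h1 h2.le
      _ = 3 * (Real.sqrt A * (Real.sqrt A * M ^ (1 / 2 + ε))) := by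
          nth_rewrite 1 [h3]
          ring
      _ ≤ 3 * (Real.sqrt A * (M ^ (5 * ε) * M ^ (43 / 54 : ℝ))) := by
          apply mul_le_mul_of_nonneg_left _ (by norm_num)
          apply mul_le_mul_of_nonneg_left _ (Real.sqrt_nonneg _)
          calc Real.sqrt A * M ^ (1 / 2 + ε) ≤ M ^ (11 / 54 + ε / 2) * M ^ (1 / 2 + ε) :=
                mul_le_mul_of_nonneg_right h4 h2.le
            _ = M ^ (11 / 54 + ε / 2 + (1 / 2 + ε)) := by rw [← Real.rpow_add hM0]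
            _ ≤ M ^ (5 * ε + 43 / 54) := Real.rpow_le_rpow_of_exponent_le hM (by linarith)
            _ = M ^ (5 * ε) * M ^ (43 / 54 : ℝ) := by rw [← Real.rpow_add hM0]
      _ = 3 * (M ^ (5 * ε) * Real.sqrt A * M ^ (43 / 54 : ℝ)) := by ring
  -- very large values
  have hNbs : ∑ p ∈ Nb, v p ≤ C₀ * (M ^ (5 * ε) * Real.sqrt A * B) := by
    have h1 : (Nb.card : ℝ) ≤ C₀ * M ^ ε * A ^ (27 * (11 / 54 : ℝ) / 11) := by
      refine hL q r hrq T X M hT hM hAM hq hX1 hX2 s hs Nb (filter_subset _ _)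
        (fun p hp => (mem_filter.1 hp).2.1) (11 / 54) le_rfl (by norm_num) fun p hp => ?_
      have h2 := (mem_filter.1 hp).2.2
      have h3 : (1 : ℝ) - 11 / 54 + ε = 43 / 54 + ε := by ring
      rw [h3]
      exact h2
    have h2 : A ^ (27 * (11 / 54 : ℝ) / 11) = Real.sqrt A := by
      rw [Real.sqrt_eq_rpow]
      congr 1
      norm_num
    rw [h2] at h1
    calc ∑ p ∈ Nb, v p ≤ ∑ p ∈ Nb, B := sum_le_sum fun p hp => hvB p (mem_filter.1 hp).1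
      _ = Nb.card * B := by rw [sum_const, nsmul_eq_mul]
      _ ≤ C₀ * M ^ ε * Real.sqrt A * B := mul_le_mul_of_nonneg_right h1 hB0
      _ ≤ C₀ * M ^ (5 * ε) * Real.sqrt A * B := by
          apply mul_le_mul_of_nonneg_right _ hB0
          apply mul_le_mul_of_nonneg_right _ (Real.sqrt_nonneg _)
          exact mul_le_mul_of_nonneg_left hM5 hC₀.le
      _ = C₀ * (M ^ (5 * ε) * Real.sqrt A * B) := by ring
  -- the grid
  have hWs : ∀ j ∈ range K, ∑ p ∈ W j, v p ≤ C₀ * (M ^ (5 * ε) * Real.sqrt A * M ^ (43 / 54 : ℝ)) := by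
    intro j _
    obtain ⟨hg1, hg2⟩ := gj_mem49 hε j
    have h1 : ((W j).card : ℝ) ≤ C₀ * M ^ ε * A ^ (27 * gj49 ε j / 11) :=
      hL q r hrq T X M hT hM hAM hq hX1 hX2 s hs (W j) (filter_subset _ _)
        (fun p hp => (mem_filter.1 hp).2.1) (gj49 ε j) hg1 hg2 fun p hp => (mem_filter.1 hp).2.2.1
    have h2 := pow49 hε hM hA1 hA hg1 hg2
    have h3 : 0 < M ^ (1 - gj49 ε j + 2 * ε) := Real.rpow_pos_of_pos hM0 _
    have h4 : 0 < C₀ * M ^ ε := by positivity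
    calc ∑ p ∈ W j, v p ≤ ∑ p ∈ W j, M ^ (1 - gj49 ε j + 2 * ε) := sum_le_sum fun p hp => (mem_filter.1 hp).2.2.2
      _ = (W j).card * M ^ (1 - gj49 ε j + 2 * ε) := by rw [sum_const, nsmul_eq_mul]
      _ ≤ C₀ * M ^ ε * A ^ (27 * gj49 ε j / 11) * M ^ (1 - gj49 ε j + 2 * ε) :=
          mul_le_mul_of_nonneg_right h1 h3.le
      _ ≤ C₀ * M ^ ε * (Real.sqrt A * M ^ (gj49 ε j - 11 / 54 + ε)) * M ^ (1 - gj49 ε j + 2 * ε) := by
          apply mul_le_mul_of_nonneg_right _ h3.le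
          exact mul_le_mul_of_nonneg_left h2 h4.le
      _ = C₀ * (Real.sqrt A * (M ^ ε * M ^ (gj49 ε j - 11 / 54 + ε) * M ^ (1 - gj49 ε j + 2 * ε))) := by ring
      _ = C₀ * (Real.sqrt A * M ^ (ε + (gj49 ε j - 11 / 54 + ε) + (1 - gj49 ε j + 2 * ε))) := by
          rw [← Real.rpow_add hM0, ← Real.rpow_add hM0]
      _ ≤ C₀ * (Real.sqrt A * M ^ (5 * ε + 43 / 54)) := by
          apply mul_le_mul_of_nonneg_left _ hC₀.le
          apply mul_le_mul_of_nonneg_left _ (Real.sqrt_nonneg _)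
          exact Real.rpow_le_rpow_of_exponent_le hM (by linarith)
      _ = C₀ * (M ^ (5 * ε) * Real.sqrt A * M ^ (43 / 54 : ℝ)) := by
          rw [Real.rpow_add hM0]
          ring
  have hWsum : ∑ j ∈ range K, ∑ p ∈ W j, v p ≤ K * (C₀ * (M ^ (5 * ε) * Real.sqrt A * M ^ (43 / 54 : ℝ))) := by
    refine (sum_le_sum hWs).trans (le_of_eq ?_)
    rw [sum_const, card_range, nsmul_eq_mul]
  set P : ℝ := M ^ (5 * ε) * Real.sqrt A with hP
  have hP0 : 0 ≤ P := by positivity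
  have hPM : 0 ≤ P * M ^ (43 / 54 : ℝ) := by positivity
  have hPB : 0 ≤ P * B := mul_nonneg hP0 hB0
  have hKC : 0 ≤ (K : ℝ) * C₀ := by positivity
  calc ∑ p ∈ cells, v p ≤ 3 * (P * B) + 3 * (P * M ^ (43 / 54 : ℝ)) + C₀ * (P * B) +
        K * (C₀ * (P * M ^ (43 / 54 : ℝ))) := by linarith
    _ ≤ (6 + C₀ + K * C₀) * (P * M ^ (43 / 54 : ℝ) + P * B) := by
        nlinarith [mul_nonneg hKC hPB, mul_nonneg hC₀.le hPM]
    _ = (6 + C₀ + K * C₀) * M ^ (5 * ε) * Real.sqrt A * (M ^ (43 / 54 : ℝ) + B) := by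
        rw [hP]
        ring

end Pool.Helper5.WB
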