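import Pool.Agent.Helper19.V5.Defs
import Pool.Agent.Helper88.WS.StepA
import Pool.Agent.Helper25.WL.CellA

/-!
# Theorem W (MP_b6b996_nt): definitions

`c = 43/54 = 4/5 - 1/270`. Characters modulo `r`, cells `(χ, k)`, the coprimality condition is modulo `q`, `r ∣ q`.
-/

set_option autoImplicit false

namespace Pool.Helper5.WB

open ArithmeticFunction Finset
open Pool.Helper19.V4 Pool.Helper19.V5
open Pool.Agent.Helper25.HM (nt)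
open Pool.Agent.Helper25.WL (PR)
open Pool.Agent.Helper88.WS (wt)

/-- `μ(m)` if `m` is coprime to `q`, else `0` -/
noncomputable def mc (q m : ℕ) : ℂ := if Nat.Coprime m q then ((ArithmeticFunction.moebius m : ℤ) : ℂ) else 0

/-- the smooth sum `∑ μ(n) (n/M) e^{-n/M} e(n x)` -/
noncomputable def GM (M : ℕ) (x : ℝ) : ℂ :=
  ∑' n : ℕ, ((ArithmeticFunction.moebius n : ℤ) : ℂ) * wt M n * ex (n * x)

/-- the weight `(m/M) e^{-m/(2M)} m^{-1/2}` -/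
noncomputable def wm (M : ℝ) (m : ℕ) : ℝ := m / M * Real.exp (-(m / (2 * M))) / Real.sqrt m

/-- the sum `∑_{m ≤ X, (m, q) = 1} μ(m) χ(m) m^{it} (m/M) e^{-m/(2M)} m^{-1/2}` -/
noncomputable def Mt (X : ℕ) (M : ℝ) (q : ℕ) {r : ℕ} (χ : DirichletCharacter ℂ r) (t : ℝ) : ℂ :=
  ∑ m ∈ Icc 1 X, mc q m * (wm M m : ℂ) * (χ (m : ZMod r) * nt m t)

/-- the smooth cut-off: supported in `[1/2, 2]`, `∑_{0 ≤ e ≤ E} psi(n / 2^e) = 1` for `1 ≤ n ≤ 2^E` -/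
noncomputable def psi (u : ℝ) : ℝ := Real.smoothTransition (2 - u) - Real.smoothTransition (2 - 2 * u)

/-- the pieces of `1` (`b = true`) and of `μ` up to `z` (`b = false`), restricted to `n` coprime to `q` -/
noncomputable def fc (b : Bool) (z e q n : ℕ) : ℂ :=
  if n ≠ 0 ∧ Nat.Coprime n q then
    (if b then (psi (n / 2 ^ e) : ℂ)
      else if 2 ^ e ≤ n ∧ n < 2 ^ (e + 1) ∧ n ≤ z then ((ArithmeticFunction.moebius n : ℤ) : ℂ) else 0)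
  else 0

/-- `fc` as an arithmetic function -/
noncomputable def fa (b : Bool) (z e q : ℕ) : ArithmeticFunction ℂ := ⟨fun n => fc b z e q n, by simp [fc]⟩

/-- the Dirichlet polynomial with the coefficients `fc` -/
noncomputable def KF (b : Bool) (z e q : ℕ) {r : ℕ} (χ : DirichletCharacter ℂ r) (t : ℝ) : ℂ :=
  PR (2 ^ (e + 1)) (fc b z e q) χ t

/-- the product of the sizes `2^e` of a box -/
def sz (b : List (Bool × ℕ)) : ℕ := (b.map fun p => 2 ^ p.2).prod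

/-- the Dirichlet product of the pieces of a box -/
noncomputable def lp (z q : ℕ) (b : List (Bool × ℕ)) : ArithmeticFunction ℂ :=
  (b.map fun p => fa p.1 z p.2 q).prod

/-- the product of the Dirichlet polynomials of a box -/
noncomputable def KP (z q : ℕ) (b : List (Bool × ℕ)) {r : ℕ} (χ : DirichletCharacter ℂ r) (t : ℝ) : ℝ :=
  (b.map fun p => ‖KF p.1 z p.2 q χ t‖).prod

/-- the decomposition into boxes -/
def BOX : Prop := ∀ (ε : ℝ) (J : ℕ), 0 < ε → 1 ≤ J → ∃ C : ℝ, 0 < C ∧ ∀ (M : ℝ) (X z q : ℕ), 1 ≤ M → M ^ 2 ≤ X →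
  (X : ℝ) ≤ M ^ 8 → X ≤ z ^ J → ∃ 𝓑 : Finset (List (Bool × ℕ)), (𝓑.card : ℝ) ≤ C * M ^ ε ∧
    (∀ b ∈ 𝓑, b.length ≤ 2 * J ∧ (sz b : ℝ) ≤ M ^ (1 + ε) ∧ ∀ p ∈ b, p.1 = false → 2 ^ p.2 ≤ z) ∧
    ∀ (r : ℕ) (χ : DirichletCharacter ℂ r) (t : ℝ), ‖Mt X M q χ t‖ * Real.sqrt M ≤
      C * (∑ b ∈ 𝓑, ∫ v : ℝ, Real.exp (-(|v| / 7)) * KP z q b χ (t - v)) + C / M

/-- the number of large values of a general factor (helper25, `WL`) -/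
def FG : Prop := ∀ ε : ℝ, 0 < ε → ∃ C : ℝ, 0 < C ∧ ∀ (N : ℝ) (r : ℕ) [NeZero r] (T M : ℕ), 1 ≤ N → 1 ≤ T →
  (r : ℝ) * T ≤ N → 1 ≤ M → (M : ℝ) ^ 2 ≤ 4 * (r * T) → ∀ c : ℕ → ℂ, (∀ n, ‖c n‖ ≤ 1) →
  ∀ s : DirichletCharacter ℂ r × ℤ → ℝ, (∀ p, (p.2 : ℝ) ≤ s p ∧ s p ≤ p.2 + 1) →
  ∀ W ⊆ (univ : Finset (DirichletCharacter ℂ r)) ×ˢ Icc (-(T : ℤ)) T, ∀ g : ℝ, 11 / 54 ≤ g → g ≤ 1 / 2 →
    (∀ p ∈ W, (M : ℝ) ^ (1 - g) * N ^ ε ≤ ‖PR M c p.1 (s p)‖) →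
      (W.card : ℝ) ≤ C * N ^ ε * ((r : ℝ) * T) ^ (27 * g / 11)

/-- the fourth moment of the smooth factors (helper62, `M4`), at `psi` -/
def M4 : Prop := ∀ ε : ℝ, 0 < ε → ∃ C : ℝ, 0 < C ∧ ∀ (q r : ℕ) [NeZero q] [NeZero r], r ∣ q → ∀ (T : ℕ) (L : ℝ),
  1 ≤ T → 1 ≤ L → ∀ s : DirichletCharacter ℂ r × ℤ → ℝ, (∀ p, (p.2 : ℝ) ≤ s p ∧ s p ≤ p.2 + 1) →
    ∑ p ∈ ((univ : Finset (DirichletCharacter ℂ r)) ×ˢ Icc (-(T : ℤ)) T).filter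
        (fun p => ¬ (p.1 = 1 ∧ |(p.2 : ℝ)| ≤ ((q : ℝ) * T * L) ^ ε)),
      ‖∑ n ∈ Icc 1 ⌊2 * L⌋₊, (psi (n / L) : ℂ) * (if Nat.Coprime n q then 1 else 0) * p.1 (n : ZMod r) *
        (n : ℂ) ^ (Complex.I * s p)‖ ^ 4 ≤ C * ((q : ℝ) * T * L) ^ ε * (r * T * L ^ 2)

/-- the number of large values of a smooth factor of length `2^e`, `(2^e)^2 ≥ r T` -/
def FS : Prop := ∀ ε : ℝ, 0 < ε → ∃ C : ℝ, 0 < C ∧ ∀ (N : ℝ) (q r : ℕ) [NeZero q] [NeZero r], r ∣ q →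
  ∀ (T e z : ℕ), 1 ≤ N → 1 ≤ T → (q : ℝ) * T * 2 ^ e ≤ N → (r : ℝ) * T ≤ ((2 : ℝ) ^ e) ^ 2 →
  ∀ s : DirichletCharacter ℂ r × ℤ → ℝ, (∀ p, (p.2 : ℝ) ≤ s p ∧ s p ≤ p.2 + 1) →
  ∀ W ⊆ (univ : Finset (DirichletCharacter ℂ r)) ×ˢ Icc (-(T : ℤ)) T,
    (∀ p ∈ W, ¬ (p.1 = 1 ∧ |(p.2 : ℝ)| ≤ N ^ ε)) → ∀ g : ℝ, 11 / 54 ≤ g → g ≤ 1 / 2 →
    (∀ p ∈ W, ((2 : ℝ) ^ e) ^ (1 - g) * N ^ ε ≤ ‖KF true z e q p.1 (s p)‖) →
      (W.card : ℝ) ≤ C * N ^ ε * ((r : ℝ) * T) ^ (27 * g / 11)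

/-- the number of large values of `Mt` -/
def LVW : Prop := ∀ ε : ℝ, 0 < ε → ∃ C : ℝ, 0 < C ∧ ∀ (q r : ℕ) [NeZero q] [NeZero r], r ∣ q → ∀ (T X : ℕ) (M : ℝ),
  1 ≤ T → 1 ≤ M → (r : ℝ) * T ≤ M → (q : ℝ) ≤ M ^ 2 → M ^ 2 ≤ X → (X : ℝ) ≤ M ^ 8 →
  ∀ s : DirichletCharacter ℂ r × ℤ → ℝ, (∀ p, (p.2 : ℝ) ≤ s p ∧ s p ≤ p.2 + 1) →
  ∀ W ⊆ (univ : Finset (DirichletCharacter ℂ r)) ×ˢ Icc (-(T : ℤ)) T,
    (∀ p ∈ W, ¬ (p.1 = 1 ∧ |(p.2 : ℝ)| ≤ M ^ ε)) → ∀ g : ℝ, 11 / 54 ≤ g → g ≤ 1 / 2 →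
    (∀ p ∈ W, M ^ (1 - g + ε) ≤ ‖Mt X M q p.1 (s p)‖ * Real.sqrt M) →
      (W.card : ℝ) ≤ C * M ^ ε * ((r : ℝ) * T) ^ (27 * g / 11)

/-- the sum of `Mt` over all cells -/
def PL : Prop := ∀ ε : ℝ, 0 < ε → ε ≤ 1 / 10 → ∃ C : ℝ, 0 < C ∧ ∀ (q r : ℕ) [NeZero q] [NeZero r], r ∣ q →
  ∀ (T X : ℕ) (M B : ℝ), 1 ≤ T → 1 ≤ M → (r : ℝ) * T ≤ M ^ (11 / 27 + ε) → (q : ℝ) ≤ M ^ 2 → M ^ 2 ≤ X →
  (X : ℝ) ≤ M ^ 8 → (∀ (χ : DirichletCharacter ℂ r) (t : ℝ), |t| ≤ T + 1 → ‖Mt X M q χ t‖ * Real.sqrt M ≤ B) →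
  ∀ s : DirichletCharacter ℂ r × ℤ → ℝ, (∀ p, (p.2 : ℝ) ≤ s p ∧ s p ≤ p.2 + 1) →
    ∑ p ∈ (univ : Finset (DirichletCharacter ℂ r)) ×ˢ Icc (-(T : ℤ)) T, ‖Mt X M q p.1 (s p)‖ * Real.sqrt M ≤
      C * M ^ (5 * ε) * Real.sqrt ((r : ℝ) * T) * (M ^ (43 / 54 : ℝ) + B)

/-- the bound for `Mt` which follows from a zero free half plane `Re s > a` (helper19, `WZ`) -/
def MB (a : ℝ) : Prop := ∀ ε : ℝ, 0 < ε → ∃ C : ℝ, 0 < C ∧ ∀ (q r : ℕ) [NeZero q] [NeZero r], r ∣ q →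
  ∀ (χ : DirichletCharacter ℂ r) (t M : ℝ) (X : ℕ), 1 ≤ M → M ^ 2 ≤ X →
    ‖Mt X M q χ t‖ * Real.sqrt M ≤ C * ((q : ℝ) * (1 + |t|) * M) ^ ε * M ^ a

lemma norm_mu (n : ℕ) : ‖((ArithmeticFunction.moebius n : ℤ) : ℂ)‖ ≤ 1 := by
  rw [Complex.norm_intCast]
  exact_mod_cast ArithmeticFunction.abs_moebius_le_one

lemma norm_mc (q m : ℕ) : ‖mc q m‖ ≤ 1 := by
  unfold mc
  split_ifs
  · exact norm_mu m
  · simp

lemma psi_nonneg (u : ℝ) : 0 ≤ u → 0 ≤ psi u := by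
  intro hu
  unfold psi
  have : Real.smoothTransition (2 - 2 * u) ≤ Real.smoothTransition (2 - u) := Real.smoothTransition.monotone (by linarith)
  linarith

lemma psi_le_one (u : ℝ) : psi u ≤ 1 := by
  unfold psi
  have h1 := Real.smoothTransition.le_one (2 - u)
  have h2 := Real.smoothTransition.nonneg (2 - 2 * u)
  linarith

lemma psi_ne {u : ℝ} (h : psi u ≠ 0) : 1 / 2 ≤ u ∧ u ≤ 2 := by
  constructor
  · by_contra hcon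
    push Not at hcon
    apply h
    unfold psi
    rw [Real.smoothTransition.one_of_one_le (by linarith), Real.smoothTransition.one_of_one_le (by linarith), sub_self]
  · by_contra hcon
    push Not at hcon
    apply h
    unfold psi
    rw [Real.smoothTransition.zero_of_nonpos (by linarith), Real.smoothTransition.zero_of_nonpos (by linarith), sub_self]

/-- the partition of unity -/
lemma psi_sum (E : ℕ) {n : ℕ} (hn : 1 ≤ n) (hE : n ≤ 2 ^ E) : ∑ e ∈ range (E + 1), psi ((n : ℝ) / 2 ^ e) = 1 := by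
  have key : ∀ k : ℕ, ∑ e ∈ range (k + 1), psi ((n : ℝ) / 2 ^ e) = Real.smoothTransition (2 - (n : ℝ) / 2 ^ k) := by
    intro k
    induction k with
    | zero =>
      rw [zero_add, sum_range_one]
      unfold psi
      have h1 : (1 : ℝ) ≤ n := by exact_mod_cast hn
      rw [pow_zero, div_one, Real.smoothTransition.zero_of_nonpos (x := 2 - 2 * (n : ℝ)) (by linarith), sub_zero]
    | succ k ih =>
      rw [sum_range_succ, ih]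
      unfold psi
      have h1 : 2 * ((n : ℝ) / 2 ^ (k + 1)) = (n : ℝ) / 2 ^ k := by
        rw [pow_succ]
        field_simp
      rw [h1]
      ring
  rw [key E]
  apply Real.smoothTransition.one_of_one_le
  have h1 : (n : ℝ) ≤ 2 ^ E := by exact_mod_cast hE
  have h2 : (n : ℝ) / 2 ^ E ≤ 1 := by
    rw [div_le_one (by positivity)]
    exact h1
  linarith

lemma norm_fc (b : Bool) (z e q n : ℕ) : ‖fc b z e q n‖ ≤ 1 := by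
  unfold fc
  split_ifs with h1 h2 h3
  · rw [Complex.norm_real, Real.norm_of_nonneg (psi_nonneg _ (by positivity))]
    exact psi_le_one _
  · exact norm_mu n
  · simp
  · simp

lemma fc_ne {b : Bool} {z e q n : ℕ} (h : fc b z e q n ≠ 0) : 1 ≤ n ∧ (2 : ℝ) ^ e / 2 ≤ n ∧ n ≤ 2 ^ (e + 1) ∧ Nat.Coprime n q := by
  unfold fc at h
  split_ifs at h with h1 h2 h3
  · have h4 : psi ((n : ℝ) / 2 ^ e) ≠ 0 := by exact_mod_cast h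
    obtain ⟨h5, h6⟩ := psi_ne h4
    have h7 : (0 : ℝ) < 2 ^ e := by positivity
    rw [le_div_iff₀ h7] at h5
    rw [div_le_iff₀ h7] at h6
    refine ⟨Nat.one_le_iff_ne_zero.2 h1.1, by linarith, ?_, h1.2⟩
    have h8 : (n : ℝ) ≤ 2 ^ (e + 1) := by
      rw [pow_succ]
      linarith
    exact_mod_cast h8
  · refine ⟨Nat.one_le_iff_ne_zero.2 h1.1, ?_, h3.2.1.le, h1.2⟩
    have h4 : ((2 : ℝ)) ^ e ≤ n := by exact_mod_cast h3.1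
    have h7 : (0 : ℝ) < 2 ^ e := by positivity
    linarith
  · exact absurd rfl h
  · exact absurd rfl h

end Pool.Helper5.WB
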