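import Pool.Agent.Helper25.WL.Gen
import Pool.Agent.Helper25.WL.Pow
import Pool.Agent.Helper25.HM.K10

/-!
# The number of large values of `Mt`, general exponent `ρ` (theorem W+)

The proof of `WB/LV.lean` with `ρ g` in place of `27 g/11`.

Let `ε` be given (we may assume `ε ≤ 1/4`). If `r T < M^ε` the bound is trivial (`W.card ≤ φ(r)(2T+1) ≤ 3 r T`). Let `ε1 = ε/8`, `J` with `16/J < ε/2`, `z = ⌈M^{8/J}⌉` (`z^J ≥ M^8 ≥ X`; `z² ≤ r T`
for `M ≥ M_0`), `BOX` at `ε1`, `J`. For `p ∈ W`: `M^{1-g+ε} ≤ C ∑_b ∫ e^{-|v|/7} KP(χ, s p - v) dv + C/M`; so for some `b ∈ 𝓑` and some `v`: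
`e^{-|v|/14} KP(χ, s p - v) ≥ M^{1-g+ε-2ε1}`; `KP ≤ 4^J M^{1+ε1}`, so `|v| ≤ M^{ε3}`, and
`KP(χ, s p - v) ≥ (∏ 2^{e})^{1-g} M^{ε - 3 ε1}`: one of the at most `2J` factors has `‖KF‖ ≥ (2^e)^{1-g} M^{ε2}`, `ε2 = ε/(4J)`.
The point `s p - v` is in the cell `(χ, k + h)`, `|h| ≤ M^{ε3} + 2`. For each `(factor, h)` the map `(χ, k) ↦ (χ, k + h)` is injective and the image is a set of cells in
`|k'| ≤ T' = T + H` with a point at which `KF` is large. If `(2^e)² ≤ r T'` use `FG` with length `2^{e+1}` (all the factors `false` are of this type, as `2^e ≤ z`, `z² ≤ r T`);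
otherwise `FS`. Take `N = M^8` and `ε' = ε2/16` in both; the exceptional cells of `FS` have `|k'| ≤ M^{8ε'}`, so `|k| ≤ M^ε`: excluded.
-/

set_option autoImplicit false

namespace Pool.Helper5.WB

open ArithmeticFunction Finset MeasureTheory
open Pool.Helper19.V4 Pool.Helper19.V5
open Pool.Agent.Helper25.HM (nt)
open Pool.Agent.Helper25.WL (PR FGr FSr LVr)
open Pool.Agent.Helper88.WS (wt)

private lemma int_bd5 {F : ℝ → ℝ} (hF : ∀ v, 0 ≤ F v) {K : ℝ} (h : ∀ v, Real.exp (-(|v| / 14)) * F v ≤ K) :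
    ∫ v : ℝ, Real.exp (-(|v| / 7)) * F v ≤ 28 * K := by
  have hI : Integrable (fun v : ℝ => Real.exp (-(1 / 14 * |v|))) :=
    Pool.Agent.Helper19.BD.int_exp_abs (1 / 14) (by norm_num)
  have h1 : ∀ v, Real.exp (-(|v| / 7)) * F v ≤ K * Real.exp (-(1 / 14 * |v|)) := by
    intro v
    have e1 : Real.exp (-(|v| / 7)) = Real.exp (-(1 / 14 * |v|)) * Real.exp (-(|v| / 14)) := by
      rw [← Real.exp_add]
      congr 1
      ring
    rw [e1, mul_assoc, mul_comm K]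
    exact mul_le_mul_of_nonneg_left (h v) (Real.exp_pos _).le
  have h2 := integral_mono_of_nonneg (μ := volume)
    (Filter.Eventually.of_forall fun v => mul_nonneg (Real.exp_pos (-(|v| / 7))).le (hF v)) (hI.const_mul K)
    (Filter.Eventually.of_forall h1)
  rw [integral_const_mul, Pool.Agent.Helper25.HM.exp_abs_int (by norm_num)] at h2
  linarith

private lemma KF_triv5 (b : Bool) (z e q : ℕ) {r : ℕ} (χ : DirichletCharacter ℂ r) (t : ℝ) :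
    ‖KF b z e q χ t‖ ≤ 2 ^ (e + 1) := by
  have h := Pool.Agent.Helper25.WL.PR_triv (2 ^ (e + 1)) (c := fc b z e q) (B := 1) (fun n _ => norm_fc b z e q n) χ t
  rw [mul_one] at h
  unfold KF
  exact_mod_cast h

private lemma sz_cons5 (f : Bool × ℕ) (b : List (Bool × ℕ)) : sz (f :: b) = 2 ^ f.2 * sz b := by
  simp [sz]

private lemma KP_cons5 (z q : ℕ) (f : Bool × ℕ) (b : List (Bool × ℕ)) {r : ℕ} (χ : DirichletCharacter ℂ r) (t : ℝ) :
    KP z q (f :: b) χ t = ‖KF f.1 z f.2 q χ t‖ * KP z q b χ t := by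
  simp [KP]

private lemma KP_nonneg5 (z q : ℕ) (b : List (Bool × ℕ)) {r : ℕ} (χ : DirichletCharacter ℂ r) (t : ℝ) :
    0 ≤ KP z q b χ t := by
  induction b with
  | nil => simp [KP]
  | cons f b ih =>
    rw [KP_cons5]
    positivity

private lemma KP_triv5 (z q : ℕ) (b : List (Bool × ℕ)) {r : ℕ} (χ : DirichletCharacter ℂ r) (t : ℝ) :
    KP z q b χ t ≤ 2 ^ b.length * sz b := by
  induction b with
  | nil => simp [KP, sz]
  | cons f b ih =>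
    rw [KP_cons5, sz_cons5, List.length_cons]
    calc ‖KF f.1 z f.2 q χ t‖ * KP z q b χ t ≤ 2 ^ (f.2 + 1) * (2 ^ b.length * sz b) :=
          mul_le_mul (KF_triv5 _ _ _ _ χ t) ih (KP_nonneg5 z q b χ t) (by positivity)
      _ = 2 ^ (b.length + 1) * ((2 ^ f.2 * sz b : ℕ) : ℝ) := by
          push_cast
          ring

private lemma sz_pos5 (b : List (Bool × ℕ)) : (1 : ℝ) ≤ sz b := by
  induction b with
  | nil => simp [sz]
  | cons f b ih =>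
    rw [sz_cons5]
    push_cast
    have : (1 : ℝ) ≤ 2 ^ f.2 := one_le_pow₀ (by norm_num)
    nlinarith

private lemma KP_le5 (z q : ℕ) {g D : ℝ} (hD : 0 ≤ D) (b : List (Bool × ℕ)) {r : ℕ} (χ : DirichletCharacter ℂ r) (t : ℝ)
    (h : ∀ f ∈ b, ‖KF f.1 z f.2 q χ t‖ ≤ ((2 : ℝ) ^ f.2) ^ (1 - g) * D) :
    KP z q b χ t ≤ (sz b : ℝ) ^ (1 - g) * D ^ b.length := by
  induction b with
  | nil => simp [KP, sz]
  | cons f b ih =>
    rw [KP_cons5, sz_cons5, List.length_cons]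
    have h1 := h f (by simp)
    have h2 := ih fun f' hf' => h f' (by simp [hf'])
    have h3 : (((2 ^ f.2 * sz b : ℕ) : ℝ)) ^ (1 - g) = ((2 : ℝ) ^ f.2) ^ (1 - g) * (sz b : ℝ) ^ (1 - g) := by
      push_cast
      exact Real.mul_rpow (by positivity) (by positivity)
    rw [h3]
    calc ‖KF f.1 z f.2 q χ t‖ * KP z q b χ t ≤
          (((2 : ℝ) ^ f.2) ^ (1 - g) * D) * ((sz b : ℝ) ^ (1 - g) * D ^ b.length) :=
          mul_le_mul h1 h2 (KP_nonneg5 z q b χ t) (by positivity)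
      _ = _ := by ring

/-- one point -/
private lemma point5 {J : ℕ} {M g ε ε1 ε2 CB R : ℝ} (hM : 1 ≤ M) (hg : g ≤ 1 / 2) (hg0 : 0 ≤ g) (hε1 : 0 < ε1) (hε11 : ε1 ≤ 1)
    (hε2 : 0 < ε2) (hCB : 0 < CB) (he : 2 * J * ε2 + 3 * ε1 ≤ ε) (hM1 : 28 * CB ^ 2 + CB < M ^ ε1)
    (hR : 14 * Real.log (4 ^ J * M ^ (2 : ℕ)) ≤ R) {z q : ℕ} {𝓑 : Finset (List (Bool × ℕ))} (hcard : (𝓑.card : ℝ) ≤ CB * M ^ ε1)
    (hb : ∀ b ∈ 𝓑, b.length ≤ 2 * J ∧ (sz b : ℝ) ≤ M ^ (1 + ε1)) {r : ℕ} (χ : DirichletCharacter ℂ r) (t : ℝ)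
    (h : M ^ (1 - g + ε) ≤ CB * (∑ b ∈ 𝓑, ∫ v : ℝ, Real.exp (-(|v| / 7)) * KP z q b χ (t - v)) + CB / M) :
    ∃ b ∈ 𝓑, ∃ f ∈ b, ∃ v : ℝ, |v| ≤ R ∧ ((2 : ℝ) ^ f.2) ^ (1 - g) * M ^ ε2 ≤ ‖KF f.1 z f.2 q χ (t - v)‖ := by
  have hM0 : 0 < M := by linarith
  obtain ⟨K, hK⟩ : ∃ K : ℝ, K = M ^ (1 - g + ε - 2 * ε1) := ⟨_, rfl⟩
  have hJe : 0 ≤ 2 * (J : ℝ) * ε2 := by positivity
  have hK1 : 1 ≤ K := by
    rw [hK]
    exact Real.one_le_rpow hM (by linarith)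
  have hK0 : 0 < K := by linarith
  -- step 1
  have h1 : ∃ b ∈ 𝓑, ∃ v : ℝ, K < Real.exp (-(|v| / 14)) * KP z q b χ (t - v) := by
    by_contra hcon
    push Not at hcon
    have h2 : ∑ b ∈ 𝓑, ∫ v : ℝ, Real.exp (-(|v| / 7)) * KP z q b χ (t - v) ≤ 𝓑.card * (28 * K) := by
      rw [← nsmul_eq_mul]
      exact sum_le_card_nsmul _ _ _ fun b hb' => int_bd5 (fun v => KP_nonneg5 z q b χ (t - v)) (hcon b hb')
    have h3 : CB * ∑ b ∈ 𝓑, ∫ v : ℝ, Real.exp (-(|v| / 7)) * KP z q b χ (t - v) ≤ CB * ((CB * M ^ ε1) * (28 * K)) := by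
      apply mul_le_mul_of_nonneg_left _ hCB.le
      exact h2.trans (mul_le_mul_of_nonneg_right hcard (by positivity))
    have h4 : CB / M ≤ CB := by
      rw [div_le_iff₀ hM0]
      nlinarith
    have h5 : M ^ (1 - g + ε) = M ^ ε1 * M ^ ε1 * K := by
      rw [hK, ← Real.rpow_add hM0, ← Real.rpow_add hM0]
      congr 1
      ring
    have h6 : 1 ≤ M ^ ε1 := Real.one_le_rpow hM hε1.le
    have h7 : CB ≤ CB * (M ^ ε1 * K) := by
      have : 1 ≤ M ^ ε1 * K := one_le_mul_of_one_le_of_one_le h6 hK1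
      nlinarith
    have h8 : (28 * CB ^ 2 + CB) * (M ^ ε1 * K) < M ^ ε1 * (M ^ ε1 * K) :=
      mul_lt_mul_of_pos_right hM1 (by positivity)
    have h9 : M ^ (1 - g + ε) ≤ (28 * CB ^ 2 + CB) * (M ^ ε1 * K) := by
      calc M ^ (1 - g + ε) ≤ CB * ((CB * M ^ ε1) * (28 * K)) + CB * (M ^ ε1 * K) := by linarith
        _ = _ := by ring
    rw [h5] at h9
    have h10 : M ^ ε1 * M ^ ε1 * K = M ^ ε1 * (M ^ ε1 * K) := by ring
    linarith
  obtain ⟨b, hb', v, hv⟩ := h1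
  obtain ⟨hlen, hsz⟩ := hb b hb'
  have hE0 : 0 < Real.exp (-(|v| / 14)) := Real.exp_pos _
  have hE1 : Real.exp (-(|v| / 14)) ≤ 1 := by
    rw [Real.exp_le_one_iff]
    have := abs_nonneg v
    linarith
  have hKP0 := KP_nonneg5 z q b χ (t - v)
  have hKK : K < KP z q b χ (t - v) := by nlinarith
  -- the size of v
  have hvR : |v| ≤ R := by
    have h2 := KP_triv5 z q b χ (t - v)
    have h3 : (2 : ℝ) ^ b.length ≤ 4 ^ J := by
      calc (2 : ℝ) ^ b.length ≤ 2 ^ (2 * J) := pow_le_pow_right₀ (by norm_num) hlen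
        _ = 4 ^ J := by
            rw [pow_mul]
            norm_num
    have h4 : (sz b : ℝ) ≤ M ^ (2 : ℕ) := by
      refine hsz.trans ?_
      rw [← Real.rpow_natCast]
      apply Real.rpow_le_rpow_of_exponent_le hM
      push_cast
      linarith
    have h5 : KP z q b χ (t - v) ≤ 4 ^ J * M ^ (2 : ℕ) :=
      h2.trans (mul_le_mul h3 h4 (by positivity) (by positivity))
    have h6 : 1 < Real.exp (-(|v| / 14)) * (4 ^ J * M ^ (2 : ℕ)) :=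
      lt_of_le_of_lt hK1 (hv.trans_le (mul_le_mul_of_nonneg_left h5 hE0.le))
    have h7 : Real.exp (|v| / 14) ≤ 4 ^ J * M ^ (2 : ℕ) := by
      have e1 : Real.exp (|v| / 14) * Real.exp (-(|v| / 14)) = 1 := by
        rw [← Real.exp_add]
        simp
      have e2 : 0 < Real.exp (|v| / 14) := Real.exp_pos _
      nlinarith
    have h8 : |v| / 14 ≤ Real.log (4 ^ J * M ^ (2 : ℕ)) := by
      rw [Real.le_log_iff_exp_le (by positivity)]
      exact h7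
    linarith
  -- a large factor
  by_contra hcon
  push Not at hcon
  have h2 : KP z q b χ (t - v) ≤ (sz b : ℝ) ^ (1 - g) * (M ^ ε2) ^ b.length :=
    KP_le5 z q (by positivity) b χ (t - v) fun f hf => (hcon b hb' f hf v hvR).le
  have h3 : (sz b : ℝ) ^ (1 - g) ≤ M ^ ((1 + ε1) * (1 - g)) := by
    rw [Real.rpow_mul hM0.le]
    exact Real.rpow_le_rpow (by positivity) hsz (by linarith)
  have h4 : (M ^ ε2) ^ b.length ≤ M ^ (2 * J * ε2) := by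
    have e1 : 1 ≤ M ^ ε2 := Real.one_le_rpow hM hε2.le
    calc (M ^ ε2) ^ b.length ≤ (M ^ ε2) ^ (2 * J) := pow_le_pow_right₀ e1 hlen
      _ = M ^ (2 * J * ε2) := by
          rw [← Real.rpow_natCast, ← Real.rpow_mul hM0.le]
          congr 1
          push_cast
          ring
  have h5 : KP z q b χ (t - v) ≤ K := by
    calc KP z q b χ (t - v) ≤ M ^ ((1 + ε1) * (1 - g)) * M ^ (2 * J * ε2) :=
          h2.trans (mul_le_mul h3 h4 (by positivity) (by positivity))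
      _ = M ^ ((1 + ε1) * (1 - g) + 2 * J * ε2) := by rw [Real.rpow_add hM0]
      _ ≤ K := by
          rw [hK]
          apply Real.rpow_le_rpow_of_exponent_le hM
          nlinarith
  linarith

/-- the count over finitely many types -/
private lemma count5 {ι α : Type*} [DecidableEq α] (W : Finset α) (I : Finset ι) (P : ι → α → Prop) [∀ i, DecidablePred (P i)]
    (h : ∀ p ∈ W, ∃ i ∈ I, P i p) {K : ℝ} (hK : ∀ i ∈ I, ((W.filter (P i)).card : ℝ) ≤ K) : (W.card : ℝ) ≤ I.card * K := by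
  have h1 : W ⊆ I.biUnion fun i => W.filter (P i) := by
    intro p hp
    obtain ⟨i, hi, hp'⟩ := h p hp
    rw [mem_biUnion]
    exact ⟨i, hi, mem_filter.2 ⟨hp, hp'⟩⟩
  have h2 : (W.card : ℝ) ≤ ∑ i ∈ I, ((W.filter (P i)).card : ℝ) := by
    exact_mod_cast (card_le_card h1).trans card_biUnion_le
  refine h2.trans ?_
  rw [← nsmul_eq_mul]
  exact sum_le_card_nsmul _ _ _ hK

private lemma large5 {ε : ℝ} (hε : 0 < ε) {J : ℕ} (hJ : 1 ≤ J) (CB : ℝ) :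
    ∃ M0 : ℝ, 5 ≤ M0 ∧ ∀ M : ℝ, M0 ≤ M → 4 ≤ M ^ (ε / 2) ∧ 28 * CB ^ 2 + CB < M ^ (ε / 8) ∧
      14 * Real.log (4 ^ J * M ^ (2 : ℕ)) ≤ M ^ (ε / 16) ∧ 5 < M ^ (7 * ε / 8) ∧ 2 ≤ M ^ (ε / (8 * J)) := by
  have hJ0 : (0 : ℝ) < J := by exact_mod_cast hJ
  obtain ⟨Y, hY⟩ : ∃ Y : ℝ, Y = 14 * (J * Real.log 4) + 896 / ε := ⟨_, rfl⟩
  have t1 := (tendsto_rpow_atTop (by positivity : 0 < ε / 2)).eventually_ge_atTop 4
  have t2 := (tendsto_rpow_atTop (by positivity : 0 < ε / 8)).eventually_gt_atTop (28 * CB ^ 2 + CB)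
  have t3 := (tendsto_rpow_atTop (by positivity : 0 < ε / 32)).eventually_ge_atTop (max 1 Y)
  have t4 := (tendsto_rpow_atTop (by positivity : 0 < 7 * ε / 8)).eventually_gt_atTop 5
  have t5 := (tendsto_rpow_atTop (by positivity : 0 < ε / (8 * J))).eventually_ge_atTop 2
  have t6 := Filter.eventually_ge_atTop (5 : ℝ)
  obtain ⟨M0, hM0⟩ := Filter.eventually_atTop.1 (t1.and (t2.and (t3.and (t4.and (t5.and t6)))))
  refine ⟨M0, (hM0 M0 le_rfl).2.2.2.2.2, fun M hM => ?_⟩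
  obtain ⟨a1, a2, a3, a4, a5, a6⟩ := hM0 M hM
  refine ⟨a1, a2, ?_, a4, a5⟩
  have hMpos : 0 < M := by linarith
  have b1 : 1 ≤ M ^ (ε / 32) := (le_max_left _ _).trans a3
  have b2 : Y ≤ M ^ (ε / 32) := (le_max_right _ _).trans a3
  have b3 : Real.log M ≤ M ^ (ε / 32) / (ε / 32) := Real.log_le_rpow_div hMpos.le (by positivity)
  have b4 : Real.log (4 ^ J * M ^ (2 : ℕ)) = J * Real.log 4 + 2 * Real.log M := by
    rw [Real.log_mul (by positivity) (by positivity), Real.log_pow, Real.log_pow]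
    push_cast
    ring
  have b5 : M ^ (ε / 16) = M ^ (ε / 32) * M ^ (ε / 32) := by
    rw [← Real.rpow_add hMpos]
    congr 1
    ring
  have b6 : M ^ (ε / 32) / (ε / 32) = 32 / ε * M ^ (ε / 32) := by
    field_simp
  have b7 : 0 ≤ J * Real.log 4 := by
    have : 0 ≤ Real.log 4 := Real.log_nonneg (by norm_num)
    positivity
  rw [b6] at b3
  rw [b4, b5]
  calc 14 * (J * Real.log 4 + 2 * Real.log M) ≤ 14 * (J * Real.log 4) * M ^ (ε / 32) + 896 / ε * M ^ (ε / 32) := by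
        have c1 : 14 * (J * Real.log 4) ≤ 14 * (J * Real.log 4) * M ^ (ε / 32) := by nlinarith
        have c2 : 28 * Real.log M ≤ 896 / ε * M ^ (ε / 32) := by
          calc 28 * Real.log M ≤ 28 * (32 / ε * M ^ (ε / 32)) := by linarith
            _ = 896 / ε * M ^ (ε / 32) := by ring
        linarith
    _ = Y * M ^ (ε / 32) := by rw [hY]; ring
    _ ≤ M ^ (ε / 32) * M ^ (ε / 32) := mul_le_mul_of_nonneg_right b2 (by positivity)

private lemma sz_ge5 {f : Bool × ℕ} {b : List (Bool × ℕ)} (h : f ∈ b) : (2 : ℝ) ^ f.2 ≤ sz b := by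
  induction b with
  | nil => simp at h
  | cons f' b ih =>
    rw [sz_cons5]
    push_cast
    have h1 := sz_pos5 b
    have h2 : (1 : ℝ) ≤ 2 ^ f'.2 := one_le_pow₀ (by norm_num)
    rcases List.mem_cons.1 h with rfl | h3
    · nlinarith
    · have := ih h3
      nlinarith

private lemma card_cells5 {r : ℕ} [NeZero r] {T : ℕ} (hT : 1 ≤ T) {W : Finset (DirichletCharacter ℂ r × ℤ)}
    (hW : W ⊆ (univ : Finset (DirichletCharacter ℂ r)) ×ˢ Icc (-(T : ℤ)) T) : (W.card : ℝ) ≤ 3 * ((r : ℝ) * T) := by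
  have h1 := card_le_card hW
  rw [card_product, Int.card_Icc, card_univ] at h1
  have h2 : Fintype.card (DirichletCharacter ℂ r) ≤ r := by
    rw [← Nat.card_eq_fintype_card, DirichletCharacter.card_eq_totient_of_hasEnoughRootsOfUnity]
    exact Nat.totient_le r
  have h3 : ((T : ℤ) + 1 - -(T : ℤ)).toNat = 2 * T + 1 := by omega
  rw [h3] at h1
  have h4 : W.card ≤ r * (2 * T + 1) := h1.trans (Nat.mul_le_mul_right _ h2)
  have h5 : (W.card : ℝ) ≤ r * (2 * T + 1) := by exact_mod_cast h4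
  have hT1 : (1 : ℝ) ≤ T := by exact_mod_cast hT
  have hr : (0 : ℝ) ≤ r := Nat.cast_nonneg r
  nlinarith

/-- one class of cells -/
private lemma class5 {ρ : ℝ → ℝ} {g0 : ℝ} {ε' : ℝ} (hε' : 0 < ε') {CG CS : ℝ} (hCG : 0 < CG) (hCS : 0 < CS)
    (hG : ∀ (N : ℝ) (r : ℕ) [NeZero r] (T M : ℕ), 1 ≤ N → 1 ≤ T →
      (r : ℝ) * T ≤ N → 1 ≤ M → (M : ℝ) ^ 2 ≤ 4 * (r * T) → ∀ c : ℕ → ℂ, (∀ n, ‖c n‖ ≤ 1) →
      ∀ s : DirichletCharacter ℂ r × ℤ → ℝ, (∀ p, (p.2 : ℝ) ≤ s p ∧ s p ≤ p.2 + 1) →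
      ∀ W ⊆ (univ : Finset (DirichletCharacter ℂ r)) ×ˢ Icc (-(T : ℤ)) T, ∀ g : ℝ, g0 ≤ g → g ≤ 1 / 2 →
        (∀ p ∈ W, (M : ℝ) ^ (1 - g) * N ^ ε' ≤ ‖PR M c p.1 (s p)‖) →
          (W.card : ℝ) ≤ CG * N ^ ε' * ((r : ℝ) * T) ^ (ρ g))
    (hS : ∀ (N : ℝ) (q r : ℕ) [NeZero q] [NeZero r], r ∣ q →
      ∀ (T e z : ℕ), 1 ≤ N → 1 ≤ T → (q : ℝ) * T * 2 ^ e ≤ N → (r : ℝ) * T ≤ ((2 : ℝ) ^ e) ^ 2 →
      ∀ s : DirichletCharacter ℂ r × ℤ → ℝ, (∀ p, (p.2 : ℝ) ≤ s p ∧ s p ≤ p.2 + 1) →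
      ∀ W ⊆ (univ : Finset (DirichletCharacter ℂ r)) ×ˢ Icc (-(T : ℤ)) T,
        (∀ p ∈ W, ¬ (p.1 = 1 ∧ |(p.2 : ℝ)| ≤ N ^ ε')) → ∀ g : ℝ, g0 ≤ g → g ≤ 1 / 2 →
        (∀ p ∈ W, ((2 : ℝ) ^ e) ^ (1 - g) * N ^ ε' ≤ ‖KF true z e q p.1 (s p)‖) →
          (W.card : ℝ) ≤ CS * N ^ ε' * ((r : ℝ) * T) ^ (ρ g))
    {q r : ℕ} [NeZero q] [NeZero r] (hrq : r ∣ q) {N : ℝ} {T' z : ℕ} (hN : 1 ≤ N) (hT' : 1 ≤ T') (f : Bool × ℕ)
    (hf : f.1 = false → ((2 : ℝ) ^ f.2) ^ 2 ≤ r * T') (hqN : (q : ℝ) * T' * 2 ^ f.2 ≤ N) (hrN : (r : ℝ) * T' ≤ N)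
    {g : ℝ} (hgn : 0 ≤ g) (hg0 : g0 ≤ g) (hg1 : g ≤ 1 / 2) {D : ℝ} (hD : 2 * N ^ ε' ≤ D)
    (W : Finset (DirichletCharacter ℂ r × ℤ)) (hW : W ⊆ (univ : Finset (DirichletCharacter ℂ r)) ×ˢ Icc (-(T' : ℤ)) T')
    (hex : ∀ p ∈ W, ¬ (p.1 = 1 ∧ |(p.2 : ℝ)| ≤ N ^ ε'))
    (hl : ∀ p ∈ W, ∃ u : ℝ, (p.2 : ℝ) ≤ u ∧ u ≤ p.2 + 1 ∧ ((2 : ℝ) ^ f.2) ^ (1 - g) * D ≤ ‖KF f.1 z f.2 q p.1 u‖) :
    (W.card : ℝ) ≤ (CG + CS) * N ^ ε' * ((r : ℝ) * T') ^ (ρ g) := by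
  classical
  have hN0 : 0 < N := by linarith
  have hNe : 1 ≤ N ^ ε' := Real.one_le_rpow hN hε'.le
  set Q : DirichletCharacter ℂ r × ℤ → Prop := fun p => ∃ u : ℝ, (p.2 : ℝ) ≤ u ∧ u ≤ p.2 + 1 ∧
    ((2 : ℝ) ^ f.2) ^ (1 - g) * D ≤ ‖KF f.1 z f.2 q p.1 u‖ with hQ
  obtain ⟨s, hs⟩ : ∃ s : DirichletCharacter ℂ r × ℤ → ℝ, s = fun p => if h : Q p then h.choose else (p.2 : ℝ) := ⟨_, rfl⟩
  have hs1 : ∀ p, (p.2 : ℝ) ≤ s p ∧ s p ≤ p.2 + 1 := by
    intro p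
    rw [hs]
    by_cases h : Q p
    · simp only [dif_pos h]
      exact ⟨h.choose_spec.1, h.choose_spec.2.1⟩
    · simp only [dif_neg h]
      constructor <;> linarith
  have hs2 : ∀ p ∈ W, ((2 : ℝ) ^ f.2) ^ (1 - g) * D ≤ ‖KF f.1 z f.2 q p.1 (s p)‖ := by
    intro p hp
    have h : Q p := hl p hp
    rw [hs]
    simp only [dif_pos h]
    exact h.choose_spec.2.2
  have h2e : (0 : ℝ) < 2 ^ f.2 := by positivity
  have hpow0 : 0 ≤ N ^ ε' * ((r : ℝ) * T') ^ (ρ g) := by positivity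
  by_cases hA : ((2 : ℝ) ^ f.2) ^ 2 ≤ r * T'
  · have h1 := hG N r T' (2 ^ (f.2 + 1)) hN hT' hrN Nat.one_le_two_pow (by
      have e0 : (((2 ^ (f.2 + 1) : ℕ)) : ℝ) ^ 2 = 4 * ((2 : ℝ) ^ f.2) ^ 2 := by
        push_cast
        ring
      rw [e0]
      linarith) (fc f.1 z f.2 q) (fun n => norm_fc _ _ _ _ n) s hs1 W hW g hg0 hg1 (by
      intro p hp
      refine le_trans ?_ (hs2 p hp)
      have e1 : (((2 ^ (f.2 + 1) : ℕ)) : ℝ) ^ (1 - g) ≤ 2 * ((2 : ℝ) ^ f.2) ^ (1 - g) := by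
        push_cast
        rw [pow_succ, mul_comm, Real.mul_rpow (by norm_num) h2e.le]
        apply mul_le_mul_of_nonneg_right _ (by positivity)
        calc (2 : ℝ) ^ (1 - g) ≤ 2 ^ (1 : ℝ) := Real.rpow_le_rpow_of_exponent_le (by norm_num) (by linarith)
          _ = 2 := Real.rpow_one 2
      calc (((2 ^ (f.2 + 1) : ℕ)) : ℝ) ^ (1 - g) * N ^ ε' ≤ (2 * ((2 : ℝ) ^ f.2) ^ (1 - g)) * N ^ ε' :=
            mul_le_mul_of_nonneg_right e1 (by positivity)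
        _ = ((2 : ℝ) ^ f.2) ^ (1 - g) * (2 * N ^ ε') := by ring
        _ ≤ ((2 : ℝ) ^ f.2) ^ (1 - g) * D := mul_le_mul_of_nonneg_left hD (by positivity))
    refine h1.trans ?_
    have e1 : CG * N ^ ε' * ((r : ℝ) * T') ^ (ρ g) = CG * (N ^ ε' * ((r : ℝ) * T') ^ (ρ g)) := by ring
    have e2 : (CG + CS) * N ^ ε' * ((r : ℝ) * T') ^ (ρ g) =
      (CG + CS) * (N ^ ε' * ((r : ℝ) * T') ^ (ρ g)) := by ring
    rw [e1, e2]
    exact mul_le_mul_of_nonneg_right (by linarith) hpow0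
  · have hf1 : f.1 = true := by
      by_contra hcon
      exact hA (hf (by simpa using hcon))
    push Not at hA
    have h1 := hS N q r hrq T' f.2 z hN hT' hqN hA.le s hs1 W hW hex g hg0 hg1 (by
      intro p hp
      have e0 := hs2 p hp
      rw [hf1] at e0
      refine le_trans ?_ e0
      apply mul_le_mul_of_nonneg_left _ (by positivity)
      linarith)
    refine h1.trans ?_
    have e1 : CS * N ^ ε' * ((r : ℝ) * T') ^ (ρ g) = CS * (N ^ ε' * ((r : ℝ) * T') ^ (ρ g)) := by ring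
    have e2 : (CG + CS) * N ^ ε' * ((r : ℝ) * T') ^ (ρ g) =
      (CG + CS) * (N ^ ε' * ((r : ℝ) * T') ^ (ρ g)) := by ring
    rw [e1, e2]
    exact mul_le_mul_of_nonneg_right (by linarith) hpow0

theorem lvr {ρ : ℝ → ℝ} {g0 : ℝ} (hg00 : 0 ≤ g0) (hρ : ∀ g : ℝ, g0 ≤ g → g ≤ 1 / 2 → 0 ≤ ρ g ∧ ρ g ≤ 2) (hB : BOX)
    (hG : FGr ρ g0) (hS : FSr ρ g0) : LVr ρ g0 := by
  classical
  intro ε0 hε0
  obtain ⟨ε, hε⟩ : ∃ ε : ℝ, ε = min ε0 (1 / 4) := ⟨_, rfl⟩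
  have hεpos : 0 < ε := by rw [hε]; positivity
  have hε4 : ε ≤ 1 / 4 := by rw [hε]; exact min_le_right _ _
  have hεε : ε ≤ ε0 := by rw [hε]; exact min_le_left _ _
  obtain ⟨J, hJ⟩ := exists_nat_ge (32 / ε)
  have hJpos : (1 : ℝ) ≤ J := by
    refine le_trans ?_ hJ
    rw [le_div_iff₀ hεpos]
    linarith
  have hJ1 : 1 ≤ J := by exact_mod_cast hJpos
  have hJ0 : (0 : ℝ) < J := by linarith
  obtain ⟨ε2, hε2⟩ : ∃ ε2 : ℝ, ε2 = ε / (4 * J) := ⟨_, rfl⟩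
  have hε20 : 0 < ε2 := by rw [hε2]; positivity
  obtain ⟨ε', hε'⟩ : ∃ ε' : ℝ, ε' = ε2 / 16 := ⟨_, rfl⟩
  have hε'0 : 0 < ε' := by rw [hε']; positivity
  have h8 : 8 * ε' = ε / (8 * J) := by
    rw [hε', hε2]
    field_simp
    norm_num
  have h8' : 8 * ε' ≤ ε / 8 := by
    rw [h8]
    apply div_le_div_of_nonneg_left hεpos.le (by norm_num)
    linarith
  have h2J : 2 * (J : ℝ) * ε2 = ε / 2 := by
    rw [hε2]
    field_simp
    norm_num
  obtain ⟨CB, hCB, hB⟩ := hB (ε / 8) J (by positivity) hJ1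
  obtain ⟨CG, hCG, hG⟩ := hG ε' hε'0
  obtain ⟨CS, hCS, hS⟩ := hS ε' hε'0
  obtain ⟨M0, hM0, hM⟩ := large5 hεpos hJ1 CB
  obtain ⟨C, hC⟩ : ∃ C : ℝ, C = 3 * M0 + 3 + 450 * J * CB * (CG + CS) := ⟨_, rfl⟩
  have hCC : 0 < 450 * J * CB * (CG + CS) := by positivity
  have hC1 : 3 * M0 ≤ C := by rw [hC]; linarith
  have hC2 : 3 ≤ C := by rw [hC]; linarith
  have hC3 : 450 * J * CB * (CG + CS) ≤ C := by rw [hC]; linarith
  have hC0 : 0 < C := by linarith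
  refine ⟨C, hC0, fun q r _ _ hrq T X M hT hM1 hrT hq hX1 hX2 s hs W hW hex g hg0 hg1 hlarge => ?_⟩
  have hMpos : 0 < M := by linarith
  have hr1 : (1 : ℝ) ≤ r := by exact_mod_cast Nat.one_le_iff_ne_zero.2 (NeZero.ne r)
  have hT1 : (1 : ℝ) ≤ T := by exact_mod_cast hT
  have hrT1 : 1 ≤ (r : ℝ) * T := one_le_mul_of_one_le_of_one_le hr1 hT1
  have hg27 : 0 ≤ ρ g := (hρ g hg0 hg1).1
  have hg272 : ρ g ≤ 2 := (hρ g hg0 hg1).2
  have hpow1 : 1 ≤ ((r : ℝ) * T) ^ (ρ g) := Real.one_le_rpow hrT1 hg27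
  have hMe : M ^ ε ≤ M ^ ε0 := Real.rpow_le_rpow_of_exponent_le hM1 hεε
  have hMe1 : 1 ≤ M ^ ε := Real.one_le_rpow hM1 hεpos.le
  have htriv := card_cells5 hT hW
  -- reduction to ε
  have hfin : (W.card : ℝ) ≤ C * M ^ ε * ((r : ℝ) * T) ^ (ρ g) →
      (W.card : ℝ) ≤ C * M ^ ε0 * ((r : ℝ) * T) ^ (ρ g) := fun h => h.trans (by gcongr)
  apply hfin
  have hex' : ∀ p ∈ W, ¬ (p.1 = 1 ∧ |(p.2 : ℝ)| ≤ M ^ ε) := fun p hp h => hex p hp ⟨h.1, h.2.trans hMe⟩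
  have hlarge' : ∀ p ∈ W, M ^ (1 - g + ε) ≤ ‖Mt X M q p.1 (s p)‖ * Real.sqrt M := fun p hp =>
    (Real.rpow_le_rpow_of_exponent_le hM1 (by linarith)).trans (hlarge p hp)
  rcases lt_or_ge M M0 with hsm | hMM
  · calc (W.card : ℝ) ≤ 3 * M0 := by linarith
      _ ≤ C * 1 * 1 := by linarith
      _ ≤ C * M ^ ε * ((r : ℝ) * T) ^ (ρ g) := by gcongr
  rcases lt_or_ge ((r : ℝ) * T) (M ^ ε) with hsm | hrTe
  · calc (W.card : ℝ) ≤ 3 * M ^ ε := by linarith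
      _ ≤ C * M ^ ε * 1 := by
          rw [mul_one]
          exact mul_le_mul_of_nonneg_right hC2 (by positivity)
      _ ≤ C * M ^ ε * ((r : ℝ) * T) ^ (ρ g) := by gcongr
  obtain ⟨m1, m2, m3, m4, m5⟩ := hM M hMM
  -- the parameter z
  obtain ⟨z, hz⟩ : ∃ z : ℕ, z = ⌈M ^ (8 / J : ℝ)⌉₊ := ⟨_, rfl⟩
  have hz1 : M ^ (8 / J : ℝ) ≤ z := by rw [hz]; exact Nat.le_ceil _
  have hz2 : (z : ℝ) ≤ 2 * M ^ (8 / J : ℝ) := by
    have e1 : 1 ≤ M ^ (8 / J : ℝ) := Real.one_le_rpow hM1 (by positivity)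
    have e2 := (Nat.ceil_lt_add_one (by positivity : 0 ≤ M ^ (8 / J : ℝ))).le
    rw [hz]
    linarith
  have hXz : X ≤ z ^ J := by
    have e1 : (X : ℝ) ≤ (z : ℝ) ^ J := by
      calc (X : ℝ) ≤ M ^ 8 := hX2
        _ = (M ^ (8 / J : ℝ)) ^ J := by
            rw [← Real.rpow_natCast (M ^ (8 / J : ℝ)) J, ← Real.rpow_mul hMpos.le, div_mul_cancel₀ _ hJ0.ne']
            exact_mod_cast rfl
        _ ≤ (z : ℝ) ^ J := pow_le_pow_left₀ (by positivity) hz1 J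
    exact_mod_cast e1
  have hzz : (z : ℝ) ^ 2 ≤ r * T := by
    have e1 : (z : ℝ) ^ 2 ≤ (2 * M ^ (8 / J : ℝ)) ^ 2 := pow_le_pow_left₀ (by positivity) hz2 2
    have e2 : (2 * M ^ (8 / J : ℝ)) ^ 2 = 4 * M ^ (16 / J : ℝ) := by
      rw [mul_pow, ← Real.rpow_natCast (M ^ (8 / J : ℝ)) 2, ← Real.rpow_mul hMpos.le]
      norm_num
      congr 1
      ring
    have e3 : (16 / J : ℝ) ≤ ε / 2 := by
      rw [div_le_iff₀ hJ0]
      rw [div_le_iff₀ hεpos] at hJ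
      linarith
    have e4 : M ^ (16 / J : ℝ) ≤ M ^ (ε / 2) := Real.rpow_le_rpow_of_exponent_le hM1 e3
    have e5 : M ^ ε = M ^ (ε / 2) * M ^ (ε / 2) := by
      rw [← Real.rpow_add hMpos]
      congr 1
      ring
    have e6 : 0 < M ^ (ε / 2) := by positivity
    calc (z : ℝ) ^ 2 ≤ 4 * M ^ (16 / J : ℝ) := e1.trans (le_of_eq e2)
      _ ≤ 4 * M ^ (ε / 2) := mul_le_mul_of_nonneg_left e4 (by norm_num)
      _ ≤ M ^ (ε / 2) * M ^ (ε / 2) := mul_le_mul_of_nonneg_right m1 e6.le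
      _ = M ^ ε := e5.symm
      _ ≤ r * T := hrTe
  obtain ⟨𝓑, hcard, hb, hbox⟩ := hB M X z q hM1 hX1 hX2 hXz
  -- shifts
  obtain ⟨R, hR⟩ : ∃ R : ℝ, R = M ^ (ε / 16) := ⟨_, rfl⟩
  have hR1 : 1 ≤ R := by rw [hR]; exact Real.one_le_rpow hM1 (by positivity)
  obtain ⟨H, hH⟩ : ∃ H : ℕ, H = ⌈R⌉₊ + 2 := ⟨_, rfl⟩
  have hH1 : R + 2 ≤ H := by
    rw [hH]
    push_cast
    have := Nat.le_ceil R
    linarith
  have hH2 : (H : ℝ) ≤ R + 3 := by
    rw [hH]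
    push_cast
    have := (Nat.ceil_lt_add_one (by linarith : 0 ≤ R)).le
    linarith
  have hR8 : R ≤ M ^ (ε / 8) := by
    rw [hR]
    exact Real.rpow_le_rpow_of_exponent_le hM1 (by linarith)
  have hM8 : M ^ (ε / 8) ≤ M := by
    calc M ^ (ε / 8) ≤ M ^ (1 : ℝ) := Real.rpow_le_rpow_of_exponent_le hM1 (by linarith)
      _ = M := Real.rpow_one M
  have hTM : (T : ℝ) ≤ M := (le_mul_of_one_le_left (by positivity) hr1).trans hrT
  obtain ⟨F, hF⟩ : ∃ F : Finset (Bool × ℕ), F = 𝓑.biUnion fun b => b.toFinset := ⟨_, rfl⟩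
  have hFmem : ∀ f ∈ F, ∃ b ∈ 𝓑, f ∈ b := by
    intro f hf
    rw [hF, mem_biUnion] at hf
    obtain ⟨b, hb1, hb2⟩ := hf
    exact ⟨b, hb1, List.mem_toFinset.1 hb2⟩
  have hFcard : (F.card : ℝ) ≤ (CB * M ^ (ε / 8)) * (2 * J) := by
    have e1 : F.card ≤ ∑ b ∈ 𝓑, (b.toFinset).card := by rw [hF]; exact card_biUnion_le
    have e2 : ∑ b ∈ 𝓑, (b.toFinset).card ≤ 𝓑.card • (2 * J) :=
      sum_le_card_nsmul _ _ _ fun b hb' => (List.toFinset_card_le b).trans (hb b hb').1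
    have e3 : (F.card : ℝ) ≤ (𝓑.card : ℝ) * (2 * J) := by
      have := e1.trans e2
      rw [smul_eq_mul] at this
      exact_mod_cast this
    exact e3.trans (mul_le_mul_of_nonneg_right hcard (by positivity))
  obtain ⟨D, hD⟩ : ∃ D : ℝ, D = M ^ ε2 := ⟨_, rfl⟩
  -- the types
  let P : (Bool × ℕ) × ℤ → DirichletCharacter ℂ r × ℤ → Prop := fun i p => ∃ u : ℝ,
    ((p.2 + i.2 : ℤ) : ℝ) ≤ u ∧ u ≤ ((p.2 + i.2 : ℤ) : ℝ) + 1 ∧
      ((2 : ℝ) ^ i.1.2) ^ (1 - g) * D ≤ ‖KF i.1.1 z i.1.2 q p.1 u‖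
  have hcov : ∀ p ∈ W, ∃ i ∈ F ×ˢ Icc (-(H : ℤ)) H, P i p := by
    intro p hp
    obtain ⟨b, hb1, f, hfb, v, hv, hKF⟩ := point5 (J := J) (M := M) (g := g) (ε := ε) (ε1 := ε / 8) (ε2 := ε2) (CB := CB)
      (R := R) hM1 hg1 (by linarith) (by positivity) (by linarith) hε20 hCB (by rw [h2J]; linarith) m2 (by rw [hR]; exact m3)
      hcard (fun b hb' => ⟨(hb b hb').1, (hb b hb').2.1⟩) p.1 (s p) ((hlarge' p hp).trans (hbox r p.1 (s p)))
    obtain ⟨hs1, hs2⟩ := hs p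
    rw [abs_le] at hv
    refine ⟨(f, ⌊s p - v⌋ - p.2), ?_, s p - v, ?_, ?_, ?_⟩
    · rw [mem_product, mem_Icc]
      refine ⟨?_, ?_, ?_⟩
      · rw [hF, mem_biUnion]
        exact ⟨b, hb1, List.mem_toFinset.2 hfb⟩
      · have e1 := Int.lt_floor_add_one (s p - v)
        have e2 : (-(H : ℝ)) ≤ ((⌊s p - v⌋ - p.2 : ℤ) : ℝ) := by
          push_cast
          linarith
        exact_mod_cast e2
      · have e1 := Int.floor_le (s p - v)
        have e2 : ((⌊s p - v⌋ - p.2 : ℤ) : ℝ) ≤ (H : ℝ) := by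
          push_cast
          linarith
        exact_mod_cast e2
    · have e1 := Int.floor_le (s p - v)
      simp only [add_sub_cancel]
      exact e1
    · have e1 := Int.lt_floor_add_one (s p - v)
      simp only [add_sub_cancel]
      exact e1.le
    · rw [hD]
      exact hKF
  -- the class bound
  obtain ⟨T', hT'⟩ : ∃ T' : ℕ, T' = T + H := ⟨_, rfl⟩
  have hT'R : (T' : ℝ) = T + H := by rw [hT']; push_cast; rfl
  have hT'1 : 1 ≤ T' := by omega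
  have hT'M : (T' : ℝ) ≤ 5 * M := by
    rw [hT'R]
    linarith
  obtain ⟨N, hN⟩ : ∃ N : ℝ, N = M ^ 8 := ⟨_, rfl⟩
  have hN1 : 1 ≤ N := by rw [hN]; exact one_le_pow₀ hM1
  have hNe : N ^ ε' = M ^ (8 * ε') := by
    rw [hN, ← Real.rpow_natCast M 8, ← Real.rpow_mul hMpos.le]
    norm_num
  have hM5 : 5 ≤ M := by linarith
  have hM6 : 5 * M ^ 5 ≤ N := by
    rw [hN]
    have e1 : (1 : ℝ) ≤ M ^ 2 := one_le_pow₀ hM1
    have e2 : 0 < M ^ 5 := by positivity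
    have e3 : M ^ 8 = M * M ^ 2 * M ^ 5 := by ring
    rw [e3]
    exact mul_le_mul_of_nonneg_right (hM5.trans (le_mul_of_one_le_right hMpos.le e1)) e2.le
  have hclass : ∀ i ∈ F ×ˢ Icc (-(H : ℤ)) H, ((W.filter (P i)).card : ℝ) ≤
      (CG + CS) * N ^ ε' * ((r : ℝ) * T') ^ (ρ g) := by
    intro i hi
    rw [mem_product, mem_Icc] at hi
    obtain ⟨b, hb1, hfb⟩ := hFmem i.1 hi.1
    obtain ⟨hb2, hb3, hb4⟩ := hb b hb1
    have h2e : (2 : ℝ) ^ i.1.2 ≤ M ^ 2 := by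
      refine (sz_ge5 hfb).trans (hb3.trans ?_)
      rw [← Real.rpow_natCast M 2]
      apply Real.rpow_le_rpow_of_exponent_le hM1
      push_cast
      linarith
    have hinj : Function.Injective (fun p : DirichletCharacter ℂ r × ℤ => (p.1, p.2 + i.2)) := by
      intro p p' hpp
      have hpp' : ((p.1, p.2 + i.2) : DirichletCharacter ℂ r × ℤ) = (p'.1, p'.2 + i.2) := hpp
      rw [Prod.mk.injEq] at hpp'
      exact Prod.ext hpp'.1 (by linarith [hpp'.2])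
    rw [← card_image_of_injective (W.filter (P i)) hinj]
    have hmem : ∀ p ∈ (W.filter (P i)).image (fun p : DirichletCharacter ℂ r × ℤ => (p.1, p.2 + i.2)),
        ∃ p0 ∈ W, P i p0 ∧ p.1 = p0.1 ∧ p.2 = p0.2 + i.2 := by
      intro p hp
      obtain ⟨p0, hp0, rfl⟩ := mem_image.1 hp
      obtain ⟨h1, h2⟩ := mem_filter.1 hp0
      exact ⟨p0, h1, h2, rfl, rfl⟩
    apply class5 hε'0 hCG hCS hG hS hrq (z := z) hN1 hT'1 i.1 _ _ _ (by linarith) hg0 hg1 (D := D) _ _ _ _ _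
    · intro hf
      have e1 := hb4 i.1 hfb hf
      have e2 : (2 : ℝ) ^ i.1.2 ≤ z := by exact_mod_cast e1
      have e3 : ((2 : ℝ) ^ i.1.2) ^ 2 ≤ (z : ℝ) ^ 2 := pow_le_pow_left₀ (by positivity) e2 2
      have e4 : (r : ℝ) * T ≤ r * T' := by
        rw [hT'R]
        exact mul_le_mul_of_nonneg_left (le_add_of_nonneg_right (Nat.cast_nonneg H)) (Nat.cast_nonneg r)
      exact e3.trans (hzz.trans e4)
    · calc (q : ℝ) * T' * 2 ^ i.1.2 ≤ M ^ 2 * (5 * M) * M ^ 2 := by gcongr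
        _ = 5 * M ^ 5 := by ring
        _ ≤ N := hM6
    · have e1 : (r : ℝ) ≤ M := (le_mul_of_one_le_right (by positivity) hT1).trans hrT
      have e2 : (r : ℝ) * T' ≤ M * (5 * M) := by gcongr
      have e3 : M * (5 * M) ≤ 5 * M ^ 5 := by
        have : (1 : ℝ) ≤ M ^ 3 := one_le_pow₀ hM1
        have e4 : 5 * M ^ 5 = (5 * M * M) * M ^ 3 := by ring
        rw [e4, ← mul_assoc, mul_comm M 5]
        exact le_mul_of_one_le_right (by positivity) this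
      exact e2.trans (e3.trans hM6)
    · rw [hNe, hD]
      have e1 : M ^ ε2 = M ^ (8 * ε') * M ^ (8 * ε') := by
        rw [← Real.rpow_add hMpos]
        congr 1
        rw [hε']
        ring
      rw [e1]
      rw [← h8] at m5
      exact mul_le_mul_of_nonneg_right m5 (by positivity)
    · intro p hp
      obtain ⟨p0, hp0, -, h1, h2⟩ := hmem p hp
      have h3 := hW hp0
      rw [mem_product, mem_Icc] at h3 ⊢
      refine ⟨mem_univ _, ?_, ?_⟩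
      · rw [h2, hT']
        push_cast
        linarith [h3.2.1, hi.2.1]
      · rw [h2, hT']
        push_cast
        linarith [h3.2.2, hi.2.2]
    · intro p hp hcon
      obtain ⟨p0, hp0, -, h1, h2⟩ := hmem p hp
      apply hex' p0 hp0
      refine ⟨by rw [← h1]; exact hcon.1, ?_⟩
      have e1 : (p0.2 : ℝ) = p.2 - i.2 := by
        rw [h2]
        push_cast
        ring
      have e2 : |(i.2 : ℝ)| ≤ H := by
        rw [abs_le]
        exact ⟨by exact_mod_cast hi.2.1, by exact_mod_cast hi.2.2⟩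
      have e3 : |(p0.2 : ℝ)| ≤ |(p.2 : ℝ)| + |(i.2 : ℝ)| := by
        rw [e1]
        exact abs_sub _ _
      have e4 : N ^ ε' ≤ M ^ (ε / 8) := by
        rw [hNe]
        exact Real.rpow_le_rpow_of_exponent_le hM1 h8'
      have e5 : 1 ≤ M ^ (ε / 8) := Real.one_le_rpow hM1 (by positivity)
      have e6 : M ^ ε = M ^ (ε / 8) * M ^ (7 * ε / 8) := by
        rw [← Real.rpow_add hMpos]
        congr 1
        ring
      have e7 : |(p.2 : ℝ)| ≤ N ^ ε' := hcon.2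
      have e8 : 5 * M ^ (ε / 8) ≤ M ^ ε := by
        rw [e6, mul_comm]
        exact mul_le_mul_of_nonneg_left m4.le (by positivity)
      linarith
    · intro p hp
      obtain ⟨p0, hp0, hP, h1, h2⟩ := hmem p hp
      obtain ⟨u, hu1, hu2, hu3⟩ := hP
      refine ⟨u, ?_, ?_, ?_⟩
      · rw [h2]
        exact hu1
      · rw [h2]
        exact hu2
      · rw [h1]
        exact hu3
  have hcount := count5 W (F ×ˢ Icc (-(H : ℤ)) H) P hcov hclass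
  -- the arithmetic
  have hIcard : (((F ×ˢ Icc (-(H : ℤ)) H).card : ℕ) : ℝ) ≤ ((CB * M ^ (ε / 8)) * (2 * J)) * (9 * M ^ (ε / 16)) := by
    rw [card_product, Int.card_Icc]
    have e0 : ((H : ℤ) + 1 - -(H : ℤ)).toNat = 2 * H + 1 := by omega
    rw [e0]
    push_cast
    apply mul_le_mul hFcard _ (by positivity) (by positivity)
    rw [← hR]
    linarith
  have hrT' : ((r : ℝ) * T') ^ (ρ g) ≤ ((r : ℝ) * T) ^ (ρ g) * (25 * M ^ (ε / 8)) := by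
    have e1 : (r : ℝ) * T' ≤ (r * T) * (1 + H) := by
      rw [hT'R, mul_add, mul_add, mul_one]
      apply add_le_add_right
      exact mul_le_mul_of_nonneg_right (le_mul_of_one_le_right (by positivity) hT1) (Nat.cast_nonneg H)
    have e2 : (1 + (H : ℝ)) ≤ 5 * R := by linarith
    have e3 : (1 + (H : ℝ)) ^ (ρ g) ≤ 25 * M ^ (ε / 8) := by
      have c0 : (1 : ℝ) ≤ 1 + H := by
        have : (0 : ℝ) ≤ H := Nat.cast_nonneg H
        linarith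
      calc (1 + (H : ℝ)) ^ (ρ g) ≤ (1 + (H : ℝ)) ^ (2 : ℝ) := Real.rpow_le_rpow_of_exponent_le c0 (by linarith)
        _ ≤ (5 * R) ^ (2 : ℝ) := Real.rpow_le_rpow (by linarith) e2 (by norm_num)
        _ = 25 * M ^ (ε / 8) := by
            rw [Real.mul_rpow (by norm_num) (by linarith), hR, ← Real.rpow_mul hMpos.le]
            norm_num
            congr 1
            ring
    calc ((r : ℝ) * T') ^ (ρ g) ≤ ((r * T) * (1 + H)) ^ (ρ g) :=
          Real.rpow_le_rpow (by positivity) e1 hg27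
      _ = ((r : ℝ) * T) ^ (ρ g) * (1 + (H : ℝ)) ^ (ρ g) := Real.mul_rpow (by positivity) (by positivity)
      _ ≤ _ := mul_le_mul_of_nonneg_left e3 (by positivity)
  have hNe8 : N ^ ε' ≤ M ^ (ε / 8) := by
    rw [hNe]
    exact Real.rpow_le_rpow_of_exponent_le hM1 h8'
  have hK0 : 0 ≤ (CG + CS) * N ^ ε' * ((r : ℝ) * T') ^ (ρ g) := by positivity
  calc (W.card : ℝ) ≤ (((CB * M ^ (ε / 8)) * (2 * J)) * (9 * M ^ (ε / 16))) *
        ((CG + CS) * N ^ ε' * ((r : ℝ) * T') ^ (ρ g)) := hcount.trans (mul_le_mul_of_nonneg_right hIcard hK0)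
    _ ≤ (((CB * M ^ (ε / 8)) * (2 * J)) * (9 * M ^ (ε / 16))) *
        ((CG + CS) * M ^ (ε / 8) * (((r : ℝ) * T) ^ (ρ g) * (25 * M ^ (ε / 8)))) := by gcongr
    _ = (450 * J * CB * (CG + CS)) * (M ^ (ε / 8) * M ^ (ε / 16) * M ^ (ε / 8) * M ^ (ε / 8)) *
        ((r : ℝ) * T) ^ (ρ g) := by ring
    _ ≤ C * M ^ ε * ((r : ℝ) * T) ^ (ρ g) := by
        apply mul_le_mul_of_nonneg_right _ (by positivity)
        apply mul_le_mul hC3 _ (by positivity) hC0.le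
        rw [← Real.rpow_add hMpos, ← Real.rpow_add hMpos, ← Real.rpow_add hMpos]
        apply Real.rpow_le_rpow_of_exponent_le hM1
        linarith

end Pool.Helper5.WB
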