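import Pool.Agent.Helper25.WH.Defs
import Pool.Agent.Helper25.WL.Pow
import Pool.Agent.Helper25.WL.TN
import Pool.Agent.Helper69.FF.DivS

/-!
# W++, H1: the second moment of a product of factors

`KP z q b χ t` is the norm of a Dirichlet polynomial of length `2^{len} sz b` with coefficients at most `D^{len}`, `D` a bound for the
number of divisors; then the mean value theorem for cells (`T1L`).
-/

set_option autoImplicit false

namespace Pool.Helper5.WB

open ArithmeticFunction Finset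
open Pool.Agent.Helper25.HM (nt cv)
open Pool.Agent.Helper25.WL (PR)

/-- the coefficients of the product of the Dirichlet polynomials of a box -/
noncomputable def cf (z q : ℕ) : List (Bool × ℕ) → ℕ → ℂ
  | [] => fun n => if n = 1 then 1 else 0
  | f :: b => cv (2 ^ (f.2 + 1)) (2 ^ b.length * sz b) (fc f.1 z f.2 q) (cf z q b)

private lemma sz_consm5 (f : Bool × ℕ) (b : List (Bool × ℕ)) : sz (f :: b) = 2 ^ f.2 * sz b := by
  simp [sz]

private lemma len_consm5 (f : Bool × ℕ) (b : List (Bool × ℕ)) :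
    2 ^ (f.2 + 1) * (2 ^ b.length * sz b) = 2 ^ (f :: b).length * sz (f :: b) := by
  rw [sz_consm5, List.length_cons, pow_succ, pow_succ]
  ring

private lemma KP_eqm5 (z q : ℕ) (b : List (Bool × ℕ)) {r : ℕ} (χ : DirichletCharacter ℂ r) (t : ℝ) :
    KP z q b χ t = ‖PR (2 ^ b.length * sz b) (cf z q b) χ t‖ := by
  induction b with
  | nil =>
    simp [KP, sz, PR, cf, nt]
  | cons f b ih =>
    have h1 : KP z q (f :: b) χ t = ‖KF f.1 z f.2 q χ t‖ * KP z q b χ t := by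
      simp [KP]
    rw [h1, ih, ← norm_mul, KF, Pool.Agent.Helper25.WL.PR_mul, ← len_consm5]
    rfl

private lemma sz_posm5 (b : List (Bool × ℕ)) : 1 ≤ sz b := by
  induction b with
  | nil => simp [sz]
  | cons f b ih =>
    rw [sz_consm5]
    exact Nat.mul_pos (by positivity) ih

private lemma cf_lem5 (z q : ℕ) {D : ℝ} (hD1 : 1 ≤ D) {X : ℕ} (hD : ∀ n : ℕ, n ≤ X → (n.divisors.card : ℝ) ≤ D)
    (b : List (Bool × ℕ)) (hX : 2 ^ b.length * sz b ≤ X) :
    ∀ n ∈ Icc 1 (2 ^ b.length * sz b), ‖cf z q b n‖ ≤ D ^ b.length := by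
  induction b with
  | nil =>
    intro n _
    unfold cf
    split_ifs <;> simp
  | cons f b ih =>
    intro n hn
    have hX' : 2 ^ b.length * sz b ≤ X := by
      refine le_trans ?_ hX
      rw [← len_consm5]
      exact Nat.le_mul_of_pos_left _ (by positivity)
    have h1 := Pool.Agent.Helper25.WL.cv_leB (A := 2 ^ (f.2 + 1)) (B := 2 ^ b.length * sz b) (f := fc f.1 z f.2 q)
      (g := cf z q b) (a := 1) (b := D ^ b.length) zero_le_one (by positivity) (fun n _ => norm_fc _ _ _ _ n) (ih hX') n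
    have h2 : (n.divisors.card : ℝ) ≤ D := hD n ((mem_Icc.1 hn).2.trans hX)
    rw [List.length_cons]
    unfold cf
    calc _ ≤ 1 * D ^ b.length * (n.divisors.card : ℝ) := h1
      _ ≤ 1 * D ^ b.length * D := mul_le_mul_of_nonneg_left h2 (by positivity)
      _ = D ^ (b.length + 1) := by ring

theorem m2l : Pool.Agent.Helper25.WH.M2L := by
  intro ε J hε
  obtain ⟨δ, hδ⟩ : ∃ δ : ℝ, δ = ε / (2 * (3 + 2 * J)) := ⟨_, rfl⟩
  have hδ0 : 0 < δ := by rw [hδ]; positivity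
  obtain ⟨Cd, hCd, hdiv⟩ := Pool.Agent.Helper69.FF.div_bound (ε := δ) hδ0
  refine ⟨400 * (1 + 1 / δ) ^ 3 * (Cd + 1) ^ (2 * J) * 4 ^ J * (2 : ℝ) ^ (J * (ε / 2)), by positivity, ?_⟩
  intro r _ T z q M hT hM _ b hb hsz s hs
  have hM0 : 0 < M := by linarith
  obtain ⟨L, hL⟩ : ∃ L : ℕ, L = 2 ^ b.length * sz b := ⟨_, rfl⟩
  have hL1 : 1 ≤ L := by
    rw [hL]
    exact Nat.mul_pos (by positivity) (sz_posm5 b)
  have hL1r : (1 : ℝ) ≤ L := by exact_mod_cast hL1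
  obtain ⟨Y, hY⟩ : ∃ Y : ℝ, Y = 2 ^ J * M ^ 2 := ⟨_, rfl⟩
  have h2len : (2 : ℝ) ^ b.length ≤ 2 ^ J := pow_le_pow_right₀ (by norm_num) hb
  have hs0 : (0 : ℝ) ≤ sz b := by positivity
  have hLs : (L : ℝ) ≤ 2 ^ J * sz b := by
    rw [hL]
    push_cast
    exact mul_le_mul_of_nonneg_right h2len hs0
  have hLY : (L : ℝ) ≤ Y := by
    rw [hY]
    exact hLs.trans (mul_le_mul_of_nonneg_left hsz (by positivity))
  have hY1 : 1 ≤ Y := hL1r.trans hLY
  have hY0 : 0 < Y := by linarith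
  have hYδ : 1 ≤ Y ^ δ := Real.one_le_rpow hY1 hδ0.le
  obtain ⟨D, hD⟩ : ∃ D : ℝ, D = (Cd + 1) * Y ^ δ := ⟨_, rfl⟩
  have hD1 : 1 ≤ D := by rw [hD]; nlinarith
  have hdD : ∀ n : ℕ, n ≤ L → (n.divisors.card : ℝ) ≤ D := by
    intro n hn
    rcases Nat.eq_zero_or_pos n with h0 | h0
    · rw [h0]
      simp only [Nat.divisors_zero, card_empty, Nat.cast_zero]
      linarith
    · have h1 := hdiv n (by omega)
      have h2 : (n : ℝ) ≤ Y := by
        have : (n : ℝ) ≤ L := by exact_mod_cast hn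
        linarith
      have h3 : (n : ℝ) ^ δ ≤ Y ^ δ := Real.rpow_le_rpow (by positivity) h2 hδ0.le
      rw [hD]
      nlinarith [Real.rpow_nonneg (show (0 : ℝ) ≤ n by positivity) δ]
  have hlog : 1 + Real.log L ≤ (1 + 1 / δ) * Y ^ δ := by
    have h1 : Real.log L ≤ (L : ℝ) ^ δ / δ := Real.log_le_rpow_div (by positivity) hδ0
    have h2 : (L : ℝ) ^ δ ≤ Y ^ δ := Real.rpow_le_rpow (by positivity) hLY hδ0.le
    have h3 : (L : ℝ) ^ δ / δ ≤ Y ^ δ / δ := div_le_div_of_nonneg_right h2 hδ0.le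
    calc 1 + Real.log L ≤ Y ^ δ + Y ^ δ / δ := by linarith
      _ = _ := by ring
  have hcf : ∀ n ∈ Icc 1 L, ‖cf z q b n‖ ≤ D ^ J := by
    intro n hn
    rw [hL] at hn
    exact (cf_lem5 z q hD1 hdD b hL.ge n hn).trans (pow_le_pow_right₀ hD1 hb)
  have h4 := Pool.Agent.Helper25.WL.T1L s hs T hT hL1 (cf z q b) hcf hlog
  have h5 : ∀ p : DirichletCharacter ℂ r × ℤ, KP z q b p.1 (s p) ^ 2 = ‖PR L (cf z q b) p.1 (s p)‖ ^ 2 := by
    intro p
    rw [KP_eqm5, hL]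
  rw [sum_congr rfl fun p _ => h5 p]
  refine h4.trans ?_
  have hrT : (0 : ℝ) ≤ (r : ℝ) * T := by positivity
  have h2J : (1 : ℝ) ≤ 2 ^ J := one_le_pow₀ (by norm_num)
  have h6 : ((r : ℝ) * T + L) * L ≤ 4 ^ J * (((r : ℝ) * T + sz b) * sz b) := by
    have e1 : (r : ℝ) * T + L ≤ 2 ^ J * ((r : ℝ) * T + sz b) := by nlinarith
    calc ((r : ℝ) * T + L) * L ≤ (2 ^ J * ((r : ℝ) * T + sz b)) * (2 ^ J * sz b) :=
          mul_le_mul e1 hLs (by positivity) (by positivity)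
      _ = (2 ^ J * 2 ^ J) * (((r : ℝ) * T + sz b) * sz b) := by ring
      _ = _ := by rw [← mul_pow]; norm_num
  have h7 : (D ^ J) ^ 2 = (Cd + 1) ^ (2 * J) * (Y ^ δ) ^ (2 * J) := by
    rw [← pow_mul, hD, mul_pow, Nat.mul_comm J 2]
  have h8 : (Y ^ δ) ^ 3 * (Y ^ δ) ^ (2 * J) = (2 : ℝ) ^ (J * (ε / 2)) * M ^ ε := by
    rw [← pow_add, ← Real.rpow_natCast, ← Real.rpow_mul hY0.le]
    have e1 : δ * ((3 + 2 * J : ℕ) : ℝ) = ε / 2 := by
      rw [hδ]
      push_cast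
      field_simp
    rw [e1, hY, Real.mul_rpow (by positivity) (by positivity), ← Real.rpow_natCast 2 J, ← Real.rpow_mul (by norm_num),
      ← Real.rpow_natCast M 2, ← Real.rpow_mul hM0.le]
    congr 2
    push_cast
    ring
  calc 400 * ((1 + 1 / δ) * Y ^ δ) ^ 3 * ((D ^ J) ^ 2 * (((r : ℝ) * T + L) * L))
      ≤ 400 * ((1 + 1 / δ) * Y ^ δ) ^ 3 * ((D ^ J) ^ 2 * (4 ^ J * (((r : ℝ) * T + sz b) * sz b))) := by
        apply mul_le_mul_of_nonneg_left _ (by positivity)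
        exact mul_le_mul_of_nonneg_left h6 (by positivity)
    _ = 400 * (1 + 1 / δ) ^ 3 * (Cd + 1) ^ (2 * J) * 4 ^ J * ((Y ^ δ) ^ 3 * (Y ^ δ) ^ (2 * J)) *
          (((r : ℝ) * T + sz b) * sz b) := by
        rw [h7, mul_pow (1 + 1 / δ)]
        ring
    _ = _ := by
        rw [h8]
        ring

end Pool.Helper5.WB
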