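import Pool.Agent.Helper5.WB.HBJ
import Pool.Agent.Helper88.WS.BoxA

/-!
# WB-8: boxes

`mc q m = (hbJ)` restricted to `m` coprime to `q`: multiplication by the completely multiplicative function `1_{(n,q)=1}` commutes with Dirichlet
products, and on `[1, X]`: `muz z · 1_q = ∑_{e ≤ E} fa false z e q`, `ζ · 1_q = ∑_{e ≤ E} fa true z e q` (`psi_sum`) as `X ≤ 2^E` (values of a
product at `m ≤ X` depend only on the values at `n ≤ X`). Expand the powers (`Finset.prod_univ_sum` over `Fin j`). A piece `fa false z e q` with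
`2^e > z` is `0`: leave these boxes out. `cf b = ± C(J, j)`, `j` the number of entries `false`.
-/

set_option autoImplicit false

namespace Pool.Helper5.WB

open ArithmeticFunction Finset
open Pool.Helper19.V4 Pool.Helper19.V5
open Pool.Agent.Helper25.HM (nt)
open Pool.Agent.Helper25.WL (PR)
open Pool.Agent.Helper88.WS (wt)

/-- multiplication by `1_{(n,q)=1}` -/
private noncomputable def rs88 (q : ℕ) (f : ArithmeticFunction ℂ) : ArithmeticFunction ℂ :=
  ⟨fun n => if Nat.Coprime n q then f n else 0, by simp⟩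

private lemma rs88_apply (q : ℕ) (f : ArithmeticFunction ℂ) (n : ℕ) :
    rs88 q f n = if Nat.Coprime n q then f n else 0 := rfl

private lemma rs88_mul (q : ℕ) (f g : ArithmeticFunction ℂ) : rs88 q (f * g) = rs88 q f * rs88 q g := by
  ext n
  rw [rs88_apply, ArithmeticFunction.mul_apply, ArithmeticFunction.mul_apply]
  split_ifs with h
  · refine sum_congr rfl fun p hp => ?_
    have hp' := Nat.mem_divisorsAntidiagonal.1 hp
    rw [← hp'.1, Nat.coprime_mul_iff_left] at h
    rw [rs88_apply, rs88_apply, if_pos h.1, if_pos h.2]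
  · symm
    refine sum_eq_zero fun p hp => ?_
    have hp' := Nat.mem_divisorsAntidiagonal.1 hp
    rw [← hp'.1, Nat.coprime_mul_iff_left, not_and_or] at h
    rw [rs88_apply, rs88_apply]
    rcases h with h | h
    · rw [if_neg h, zero_mul]
    · rw [if_neg h, mul_zero]

private lemma rs88_one (q : ℕ) : rs88 q 1 = 1 := by
  ext n
  rw [rs88_apply]
  by_cases h : n = 1
  · rw [h]
    simp
  · rw [ArithmeticFunction.one_apply_ne h]
    simp

private lemma rs88_pow (q : ℕ) (f : ArithmeticFunction ℂ) (k : ℕ) : rs88 q (f ^ k) = rs88 q f ^ k := by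
  induction k with
  | zero => rw [pow_zero, pow_zero, rs88_one]
  | succ k ih => rw [pow_succ, pow_succ, rs88_mul, ih]

private lemma fa_eq88 (b : Bool) (z e q : ℕ) : fa b z e q = rs88 q (Pool.Agent.Helper88.WS.pc z b e) := by
  ext n
  rw [rs88_apply]
  have h1 : fa b z e q n = fc b z e q n := rfl
  rw [h1]
  unfold fc
  rcases Nat.eq_zero_or_pos n with h0 | h0
  · subst h0
    simp
  · by_cases hc : Nat.Coprime n q
    · rw [if_pos ⟨by omega, hc⟩, if_pos hc]
      cases b
      · rfl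
      · rw [Pool.Agent.Helper88.WS.pc_true]
        simp only [if_true]
        unfold psi Pool.Agent.Helper88.WS.sP Pool.Agent.Helper88.WS.sS
        rfl
    · rw [if_neg (fun h => hc h.2), if_neg hc]

private lemma sum_fa88 {z E q : ℕ} (b : Bool) {n : ℕ} (h : n ≤ 2 ^ E) :
    (∑ e ∈ range (E + 1), fa b z e q) n = rs88 q (Pool.Agent.Helper88.WS.fullf z b) n := by
  rw [Pool.Agent.Helper88.WS.af_sum, rs88_apply]
  simp_rw [fa_eq88, rs88_apply]
  split_ifs
  · rw [← Pool.Agent.Helper88.WS.pc_sum b h, Pool.Agent.Helper88.WS.af_sum]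
  · simp

private lemma fa_zero88 {z e q : ℕ} (h : z < 2 ^ e) : fa false z e q = 0 := by
  ext n
  have h1 : fa false z e q n = fc false z e q n := rfl
  rw [h1]
  unfold fc
  split_ifs with h2 h3 h4
  · exact absurd h3 (by simp)
  · omega
  · rfl
  · rfl

private lemma prod_zero88 {k : ℕ} {F : Fin k → ArithmeticFunction ℂ} (i : Fin k) (h : F i = 0) : ∏ i, F i = 0 :=
  prod_eq_zero (mem_univ i) h

/-- the list of a box -/
private def ls88 (j : ℕ) (e : Fin (j + (j - 1)) → ℕ) : List (Bool × ℕ) :=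
  List.ofFn fun i => (Pool.Agent.Helper88.WS.ty j (j - 1) i, e i)

private lemma ls88_length (j : ℕ) (e : Fin (j + (j - 1)) → ℕ) : (ls88 j e).length = j + (j - 1) := by
  simp [ls88]

private lemma lp_ls88 (z q j : ℕ) (e : Fin (j + (j - 1)) → ℕ) :
    lp z q (ls88 j e) = ∏ i, fa (Pool.Agent.Helper88.WS.ty j (j - 1) i) z (e i) q := by
  unfold lp ls88
  rw [List.map_ofFn, List.prod_ofFn]
  rfl

private lemma mem_ls88 {j : ℕ} {e : Fin (j + (j - 1)) → ℕ} {p : Bool × ℕ} (h : p ∈ ls88 j e) :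
    ∃ i, p = (Pool.Agent.Helper88.WS.ty j (j - 1) i, e i) := by
  unfold ls88 at h
  rw [List.mem_ofFn'] at h
  obtain ⟨i, hi⟩ := h
  exact ⟨i, hi.symm⟩

/-- the boxes with `j` general factors -/
private def bx88 (z E j : ℕ) : Finset (Fin (j + (j - 1)) → ℕ) :=
  (Fintype.piFinset (fun _ : Fin (j + (j - 1)) => range (E + 1))).filter
    (fun e => ∀ i, Pool.Agent.Helper88.WS.ty j (j - 1) i = false → 2 ^ (e i) ≤ z)

private lemma card_bx88 (z E j : ℕ) (hj : 1 ≤ j) {J : ℕ} (hJ : j ≤ J) : (bx88 z E j).card ≤ (E + 1) ^ (2 * J) := by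
  unfold bx88
  refine (card_filter_le _ _).trans ?_
  rw [Fintype.card_piFinset]
  simp only [card_range, prod_const, card_univ, Fintype.card_fin]
  exact Nat.pow_le_pow_right (by omega) (by omega)

theorem hb_box {J z X E : ℕ} (hJ : 1 ≤ J) (hX : X ≤ z ^ J) (hE : X ≤ 2 ^ E) :
    ∃ (𝓐 : Finset (List (Bool × ℕ))) (cf : List (Bool × ℕ) → ℂ), 𝓐.card ≤ J * (E + 1) ^ (2 * J) ∧
      (∀ b ∈ 𝓐, b.length ≤ 2 * J ∧ ‖cf b‖ ≤ 2 ^ J ∧ ∀ p ∈ b, p.2 ≤ E ∧ (p.1 = false → 2 ^ p.2 ≤ z)) ∧
      ∀ q : ℕ, ∀ m ∈ Icc 1 X, mc q m = ∑ b ∈ 𝓐, cf b * lp z q b m := by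
  classical
  obtain ⟨S, hS⟩ : ∃ S : Finset ((j : ℕ) × (Fin (j + (j - 1)) → ℕ)), S = (Icc 1 J).sigma (bx88 z E) := ⟨_, rfl⟩
  obtain ⟨L, hL⟩ : ∃ L : ((j : ℕ) × (Fin (j + (j - 1)) → ℕ)) → List (Bool × ℕ), L = fun s => ls88 s.1 s.2 := ⟨_, rfl⟩
  obtain ⟨cf, hcf⟩ : ∃ cf : List (Bool × ℕ) → ℂ, cf = fun b =>
    if (b.length + 1) / 2 ∈ Icc 1 J then (-1 : ℂ) ^ ((b.length + 1) / 2 - 1) * (Nat.choose J ((b.length + 1) / 2) : ℂ) else 0 :=
    ⟨_, rfl⟩
  have hlen : ∀ s ∈ S, ((L s).length + 1) / 2 = s.1 := by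
    intro s hs
    rw [hS, mem_sigma, mem_Icc] at hs
    rw [hL]
    simp only
    rw [ls88_length]
    omega
  have hinj : Set.InjOn L (S : Set ((j : ℕ) × (Fin (j + (j - 1)) → ℕ))) := by
    intro s hs s' hs' heq
    have h1 := hlen s (mem_coe.1 hs)
    have h2 := hlen s' (mem_coe.1 hs')
    rw [heq] at h1
    have h3 : s.1 = s'.1 := h1.symm.trans h2
    obtain ⟨j, e⟩ := s
    obtain ⟨j', e'⟩ := s'
    simp only at h3
    subst h3
    congr 1
    rw [hL] at heq
    simp only [ls88] at heq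
    have h4 := List.ofFn_injective heq
    funext i
    exact (Prod.ext_iff.1 (congrFun h4 i)).2
  refine ⟨S.image L, cf, ?_, ?_, ?_⟩
  · refine card_image_le.trans ?_
    rw [hS, card_sigma]
    refine (sum_le_card_nsmul _ _ ((E + 1) ^ (2 * J)) fun j hj => ?_).trans ?_
    · rw [mem_Icc] at hj
      exact card_bx88 z E j hj.1 hj.2
    · simp
  · intro b hb
    rw [mem_image] at hb
    obtain ⟨s, hs, rfl⟩ := hb
    have hs' := hs
    rw [hS, mem_sigma, mem_Icc] at hs'
    refine ⟨?_, ?_, ?_⟩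
    · rw [hL]
      simp only
      rw [ls88_length]
      omega
    · rw [hcf]
      simp only
      split_ifs
      · rw [norm_mul, norm_pow, norm_neg, norm_one, one_pow, one_mul, Complex.norm_natCast]
        exact_mod_cast Nat.choose_le_two_pow J _
      · simp
    · intro p hp
      rw [hL] at hp
      obtain ⟨i, rfl⟩ := mem_ls88 hp
      have h1 := hs'.2
      unfold bx88 at h1
      rw [mem_filter, Fintype.mem_piFinset] at h1
      refine ⟨?_, fun h => h1.2 i h⟩
      have := h1.1 i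
      rw [mem_range] at this
      simp only
      omega
  · intro q m hm
    rw [mem_Icc] at hm
    rw [sum_image hinj]
    have h1 : mc q m = ∑ j ∈ Icc 1 J, (-1 : ℂ) ^ (j - 1) * (Nat.choose J j : ℂ) *
        (∏ i : Fin (j + (j - 1)), rs88 q (Pool.Agent.Helper88.WS.fullf z (Pool.Agent.Helper88.WS.ty j (j - 1) i))) m := by
      unfold mc
      have h2 : ∀ j ∈ Icc 1 J, (∏ i : Fin (j + (j - 1)),
          rs88 q (Pool.Agent.Helper88.WS.fullf z (Pool.Agent.Helper88.WS.ty j (j - 1) i))) m =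
          if Nat.Coprime m q then (muz z ^ j * (ArithmeticFunction.zeta : ArithmeticFunction ℂ) ^ (j - 1)) m else 0 := by
        intro j _
        rw [Pool.Agent.Helper88.WS.prod_ty (fun b => rs88 q (Pool.Agent.Helper88.WS.fullf z b)) j (j - 1), ← rs88_pow,
          ← rs88_pow, ← rs88_mul, rs88_apply]
        rfl
      rw [sum_congr rfl fun j hj => by rw [h2 j hj]]
      split_ifs with hc
      · exact hbJ hJ hm.1 (hm.2.trans hX)
      · simp
    rw [h1, hS, sum_sigma]
    refine sum_congr rfl fun j hj => ?_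
    have hj' := mem_Icc.1 hj
    have h3 := Pool.Agent.Helper88.WS.prod_congr88 (N := 2 ^ E)
      (f := fun i : Fin (j + (j - 1)) => rs88 q (Pool.Agent.Helper88.WS.fullf z (Pool.Agent.Helper88.WS.ty j (j - 1) i)))
      (g := fun i => ∑ e ∈ range (E + 1), fa (Pool.Agent.Helper88.WS.ty j (j - 1) i) z e q)
      (fun i n hn => (sum_fa88 _ hn).symm) m (hm.2.trans hE)
    rw [h3, Finset.prod_univ_sum, Pool.Agent.Helper88.WS.af_sum, mul_sum]
    have h4 : ∀ e ∈ bx88 z E j, cf (L ⟨j, e⟩) * lp z q (L ⟨j, e⟩) m =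
        (-1 : ℂ) ^ (j - 1) * (Nat.choose J j : ℂ) *
          (∏ i, fa (Pool.Agent.Helper88.WS.ty j (j - 1) i) z (e i) q) m := by
      intro e he
      have h5 : (⟨j, e⟩ : (j : ℕ) × (Fin (j + (j - 1)) → ℕ)) ∈ S := by
        rw [hS, mem_sigma]
        exact ⟨hj, he⟩
      have h6 := hlen _ h5
      rw [hcf]
      simp only
      rw [h6]
      simp only
      rw [if_pos hj, hL]
      simp only
      rw [lp_ls88]
    rw [sum_congr rfl h4]
    symm
    apply sum_subset
    · unfold bx88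
      exact filter_subset _ _
    · intro e he hne
      unfold bx88 at hne
      rw [mem_filter, not_and] at hne
      have h7 := hne he
      push Not at h7
      obtain ⟨i, hi1, hi2⟩ := h7
      rw [prod_zero88 i (by rw [hi1]; exact fa_zero88 hi2)]
      simp

end Pool.Helper5.WB
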