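import Pool.Agent.Helper5.WB.Defs
import Pool.Agent.Helper88.WS.HBJ

/-!
# WB-7: the identity of Heath-Brown with `J` factors

Compare `Helper19/V4/HB.lean` (`J = 5`): `g = 1 - m ζ` vanishes on `[1, z]`, so `g^J μ` vanishes below `(z+1)^J`; binomial theorem (`add_pow` /
`sub_pow` in the commutative ring `ArithmeticFunction ℂ`), `μ ζ = 1`.
-/

set_option autoImplicit false

namespace Pool.Helper5.WB

open ArithmeticFunction Finset
open Pool.Helper19.V4 Pool.Helper19.V5
open Pool.Agent.Helper25.HM (nt)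
open Pool.Agent.Helper25.WL (PR)
open Pool.Agent.Helper88.WS (wt)

open scoped ArithmeticFunction.zeta in
theorem hbJ {J z n : ℕ} (hJ : 1 ≤ J) (hn : 1 ≤ n) (h : n ≤ z ^ J) :
    ((ArithmeticFunction.moebius n : ℤ) : ℂ) =
      ∑ j ∈ Icc 1 J, (-1 : ℂ) ^ (j - 1) * (Nat.choose J j : ℂ) *
        (muz z ^ j * (ArithmeticFunction.zeta : ArithmeticFunction ℂ) ^ (j - 1)) n :=
  Pool.Agent.Helper88.WS.heath_brownJ hn hJ h

end Pool.Helper5.WB
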