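import Pool.Agent.Helper5.WB.Defs
import Pool.Agent.Helper19.WZ.Sep

/-!
# WB-5: one modulus

For one `χ` and the weight `(m/M) e^{-m/M} e(m β)`, `M ≥ 1` real: `WZ/Sep.lean: mellin_cell` with `δ = 1/(2M)`, `f(m) = mc q m * χ(m) * (m/M) e^{-m/(2M)}`, so
`f(m)/√m = mc q m * χ(m) * wm M m`, `exp(-m w) = e^{-m/(2M)} e(m β)`; `∑ ‖f‖ ≤ 4 X ≤ 4 M^8`;
`1/√(δ + |β|) ≤ √2 √(M/(1 + M|β|))`, `cr = 1/(2π(1 + 2M|β|))`. `s (χ, k)` is a point of
`[k, k+1]` at which `‖Mt X M q χ ·‖` is maximal (continuous). The tail `X (4/cr) exp(-(cr/2) T)` is at most `C/M^2` if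
`T ≥ M^ε (1 + M|β|)` (`C = C(ε)`, `M|β| ≤ M^8`).
-/

set_option autoImplicit false

namespace Pool.Helper5.WB

open ArithmeticFunction Finset
open Pool.Helper19.V4 Pool.Helper19.V5
open Pool.Agent.Helper25.HM (nt)
open Pool.Agent.Helper25.WL (PR)
open Pool.Agent.Helper88.WS (wt)

/-- a power times a stretched exponential -/
lemma pow_exp_small {ε : ℝ} (hε : 0 < ε) (k : ℕ) : ∃ C : ℝ, 0 < C ∧ ∀ M : ℝ, 1 ≤ M → M ^ k * Real.exp (-(M ^ ε / 32)) ≤ C := by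
  obtain ⟨n, hn⟩ := exists_nat_ge ((k : ℝ) / ε)
  refine ⟨n.factorial * 32 ^ n, by positivity, fun M hM1 => ?_⟩
  have hM0 : (0 : ℝ) < M := by linarith
  obtain ⟨y, hy⟩ : ∃ y : ℝ, y = (M : ℝ) ^ ε / 32 := ⟨_, rfl⟩
  have hy0 : 0 < y := by rw [hy]; positivity
  have h1 : y ^ n / n.factorial ≤ Real.exp y := Real.pow_div_factorial_le_exp y hy0.le n
  have h2 : y ^ n = M ^ (ε * n) / 32 ^ n := by
    rw [hy, div_pow, ← Real.rpow_natCast, ← Real.rpow_mul hM0.le]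
  have h3 : M ^ k ≤ M ^ (ε * n) := by
    rw [← Real.rpow_natCast M k]
    apply Real.rpow_le_rpow_of_exponent_le hM1
    rw [div_le_iff₀ hε] at hn
    linarith
  rw [← hy, Real.exp_neg, ← div_eq_mul_inv, div_le_iff₀ (Real.exp_pos _)]
  have hf : (0 : ℝ) < n.factorial := by exact_mod_cast n.factorial_pos
  have h4 : M ^ (ε * n) ≤ n.factorial * 32 ^ n * Real.exp y := by
    rw [h2, div_div, div_le_iff₀ (by positivity)] at h1
    linarith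
  linarith

/-- the weight is bounded -/
lemma wY_le4 {Y : ℝ} (hY : 0 < Y) (m : ℕ) : (m : ℝ) / Y * Real.exp (-(m / (2 * Y))) ≤ 4 := by
  obtain ⟨u, hu⟩ : ∃ u : ℝ, u = (m : ℝ) / (2 * Y) := ⟨_, rfl⟩
  have hu0 : 0 ≤ u := by rw [hu]; positivity
  have e1 : (m : ℝ) / Y = 2 * u := by rw [hu]; field_simp
  rw [e1, ← hu]
  have e3 : u ≤ Real.exp u := by
    have := Real.add_one_le_exp u
    linarith
  have e5 : Real.exp u * Real.exp (-u) = 1 := by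
    rw [← Real.exp_add]
    simp
  have e6 : 0 < Real.exp (-u) := Real.exp_pos _
  have e7 := mul_le_mul_of_nonneg_right e3 e6.le
  nlinarith

lemma continuous_nt (m : ℕ) : Continuous (fun t : ℝ => nt m t) := by
  unfold nt
  exact Complex.continuous_exp.comp (continuous_const.mul (Complex.continuous_ofReal.comp (continuous_id.mul continuous_const)))

lemma continuous_Mt (X : ℕ) (M : ℝ) (q : ℕ) {r : ℕ} (χ : DirichletCharacter ℂ r) : Continuous (fun t : ℝ => ‖Mt X M q χ t‖) := by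
  unfold Mt
  refine Continuous.norm (continuous_finsetSum _ fun m _ => ?_)
  exact continuous_const.mul (continuous_const.mul (continuous_nt m))

/-- a maximal point in each cell -/
lemma exists_max (X : ℕ) (M : ℝ) (q r : ℕ) : ∃ s : DirichletCharacter ℂ r × ℤ → ℝ, (∀ p, (p.2 : ℝ) ≤ s p ∧ s p ≤ p.2 + 1) ∧
    ∀ (p : DirichletCharacter ℂ r × ℤ) (t : ℝ), (p.2 : ℝ) ≤ t → t ≤ p.2 + 1 → ‖Mt X M q p.1 t‖ ≤ ‖Mt X M q p.1 (s p)‖ := by
  have h : ∀ p : DirichletCharacter ℂ r × ℤ, ∃ s : ℝ, ((p.2 : ℝ) ≤ s ∧ s ≤ p.2 + 1) ∧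
      ∀ t : ℝ, (p.2 : ℝ) ≤ t → t ≤ p.2 + 1 → ‖Mt X M q p.1 t‖ ≤ ‖Mt X M q p.1 s‖ := by
    intro p
    obtain ⟨s, hs, hmax⟩ := (isCompact_Icc (a := (p.2 : ℝ)) (b := (p.2 : ℝ) + 1)).exists_isMaxOn
      ⟨(p.2 : ℝ), Set.left_mem_Icc.2 (by linarith)⟩ (continuous_Mt X M q p.1).continuousOn
    exact ⟨s, hs, fun t h1 h2 => hmax (show t ∈ Set.Icc (p.2 : ℝ) (p.2 + 1) from ⟨h1, h2⟩)⟩
  choose s hs1 hs2 using h
  exact ⟨s, hs1, hs2⟩

open Pool.Agent.Helper25.HM (w cr w_re cr_pos) in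
theorem one_mod : ∀ ε : ℝ, 0 < ε → ∃ C : ℝ, 0 < C ∧ ∀ (q r : ℕ) [NeZero q] [NeZero r] (T X : ℕ) (M β : ℝ), 1 ≤ M → (X : ℝ) ≤ M ^ 8 →
    M ^ ε * (1 + M * |β|) ≤ T → (T : ℝ) ≤ M ^ 8 → ∃ s : DirichletCharacter ℂ r × ℤ → ℝ, (∀ p, (p.2 : ℝ) ≤ s p ∧ s p ≤ p.2 + 1) ∧
      ∀ χ : DirichletCharacter ℂ r,
        ‖∑ m ∈ Icc 1 X, mc q m * (((m / M * Real.exp (-(m / M)) : ℝ) : ℂ) * ex (m * β)) * χ (m : ZMod r)‖ ≤
          2 / Real.sqrt (1 + M * |β|) * (∑ k ∈ Icc (-((T + 1 : ℕ) : ℤ)) ((T + 1 : ℕ) : ℤ), ‖Mt X M q χ (s (χ, k))‖ * Real.sqrt M) + C / M ^ 2 := by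
  intro ε hε
  obtain ⟨C, hC, hsmall⟩ := pow_exp_small hε 19
  refine ⟨512 * C, by positivity, fun q r _ _ T X M β hM hX hT hT8 => ?_⟩
  have hM0 : 0 < M := by linarith
  obtain ⟨s, hs1, hs2⟩ := exists_max X M q r
  refine ⟨s, hs1, fun χ => ?_⟩
  obtain ⟨W, hW⟩ : ∃ W : ℝ, W = 1 + M * |β| := ⟨_, rfl⟩
  have hMβ : 0 ≤ M * |β| := by positivity
  have hW1 : 1 ≤ W := by
    rw [hW]
    linarith
  obtain ⟨δ, hδ⟩ : ∃ δ : ℝ, δ = 1 / (2 * M) := ⟨_, rfl⟩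
  have hδ0 : 0 < δ := by rw [hδ]; positivity
  obtain ⟨f, hf⟩ : ∃ f : ℕ → ℂ, f = fun m => mc q m * χ (m : ZMod r) * ((m / M * Real.exp (-(m / (2 * M))) : ℝ) : ℂ) := ⟨_, rfl⟩
  have hsum : δ + |β| = (1 + 2 * (M * |β|)) / (2 * M) := by
    rw [hδ]
    field_simp
  have hcrv : cr δ β = 1 / (2 * Real.pi * (1 + 2 * (M * |β|))) := by
    rw [cr, hsum, hδ]
    have := Real.pi_pos
    field_simp
  have hpi4 : Real.pi ≤ 4 := Real.pi_le_four
  have hpi0 := Real.pi_pos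
  have hcr1 : 1 / (16 * W) ≤ cr δ β := by
    rw [hcrv]
    apply one_div_le_one_div_of_le (by positivity)
    rw [hW]
    nlinarith
  have hcr0 : 0 < cr δ β := cr_pos hδ0
  have e1 : 1 / Real.sqrt (δ + |β|) ≤ 2 / Real.sqrt W * Real.sqrt M := by
    rw [hsum, Real.sqrt_div (by positivity), one_div_div]
    have f1 : Real.sqrt (2 * M) ≤ 2 * Real.sqrt M := by
      rw [Real.sqrt_mul (by norm_num)]
      have : Real.sqrt 2 ≤ 2 := by
        rw [Real.sqrt_le_left (by norm_num)]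
        norm_num
      exact mul_le_mul_of_nonneg_right this (Real.sqrt_nonneg _)
    have f2 : Real.sqrt W ≤ Real.sqrt (1 + 2 * (M * |β|)) := by
      apply Real.sqrt_le_sqrt
      rw [hW]
      linarith
    have f3 : 0 < Real.sqrt W := Real.sqrt_pos.2 (by linarith)
    calc Real.sqrt (2 * M) / Real.sqrt (1 + 2 * (M * |β|)) ≤ (2 * Real.sqrt M) / Real.sqrt W := by gcongr
      _ = _ := by ring
  have e2 : 4 / cr δ β ≤ 64 * W := by
    rw [div_le_iff₀ hcr0]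
    have := mul_le_mul_of_nonneg_left hcr1 (by positivity : (0 : ℝ) ≤ 64 * W)
    have f1 : 64 * W * (1 / (16 * W)) = 4 := by
      rw [mul_one_div, div_eq_iff (by positivity)]
      ring
    linarith
  have e3 : Real.exp (-(cr δ β / 2 * T)) ≤ Real.exp (-(M ^ ε / 32)) := by
    apply Real.exp_le_exp.2
    rw [← hW] at hT
    have f1 : 1 / (16 * W) / 2 * (M ^ ε * W) ≤ cr δ β / 2 * T := by
      apply mul_le_mul _ hT (by positivity) (by positivity)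
      linarith
    have f2 : 1 / (16 * W) / 2 * (M ^ ε * W) = M ^ ε / 32 := by
      rw [div_div, div_mul_eq_mul_div, div_eq_div_iff (by positivity) (by norm_num)]
      ring
    linarith
  have hfb : ∀ m, ‖f m‖ ≤ 4 := by
    intro m
    rw [hf]
    show ‖mc q m * χ (m : ZMod r) * ((m / M * Real.exp (-(m / (2 * M))) : ℝ) : ℂ)‖ ≤ 4
    rw [norm_mul, norm_mul, Complex.norm_real, Real.norm_of_nonneg (by positivity)]
    have h1 := norm_mc q m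
    have h2 : ‖χ (m : ZMod r)‖ ≤ 1 := χ.norm_le_one _
    have h3 : ‖mc q m‖ * ‖χ (m : ZMod r)‖ ≤ 1 := mul_le_one₀ h1 (norm_nonneg _) h2
    calc _ ≤ 1 * ((m : ℝ) / M * Real.exp (-(m / (2 * M)))) := mul_le_mul_of_nonneg_right h3 (by positivity)
      _ ≤ _ := by rw [one_mul]; exact wY_le4 hM0 m
  have hA : ∑ n ∈ Icc 1 X, ‖f n‖ ≤ 4 * M ^ 8 := by
    calc ∑ n ∈ Icc 1 X, ‖f n‖ ≤ ∑ n ∈ Icc 1 X, (4 : ℝ) := Finset.sum_le_sum fun n _ => hfb n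
      _ = 4 * X := by
        rw [Finset.sum_const, Nat.card_Icc, nsmul_eq_mul]
        push_cast
        ring
      _ ≤ 4 * M ^ 8 := by linarith
  have hsm : ∀ t : ℝ, ∑ n ∈ Icc 1 X, f n / Real.sqrt n * nt n t = Mt X M q χ t := by
    intro t
    unfold Mt wm
    refine Finset.sum_congr rfl fun n _ => ?_
    rw [hf]
    push_cast
    ring
  have hmain := Pool.Helper19.WZ.mellin_cell (β := β) hδ0 X f T (fun k => ‖Mt X M q χ (s (χ, k))‖) (fun k _ t h1 h2 => by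
    rw [hsm]
    exact hs2 (χ, k) t h1 h2) hA
  have hlhs : ∑ m ∈ Icc 1 X, mc q m * (((m / M * Real.exp (-(m / M)) : ℝ) : ℂ) * ex (m * β)) * χ (m : ZMod r) =
      ∑ n ∈ Icc 1 X, f n * Complex.exp (-(n * w δ β)) := by
    refine Finset.sum_congr rfl fun m _ => ?_
    have g1 : ((m / M * Real.exp (-(m / M)) : ℝ) : ℂ) = ((m / M * Real.exp (-(m / (2 * M))) : ℝ) : ℂ) *
        ((Real.exp (-(m / (2 * M))) : ℝ) : ℂ) := by
      rw [← Complex.ofReal_mul, mul_assoc, ← Real.exp_add]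
      congr 3
      field_simp
      ring
    have g2 : Complex.exp (-(m * w δ β)) = ((Real.exp (-(m / (2 * M))) : ℝ) : ℂ) * ex (m * β) := by
      rw [ex, Complex.ofReal_exp, ← Complex.exp_add, w, hδ]
      congr 1
      push_cast
      field_simp
      ring
    rw [g1, g2, hf]
    ring
  rw [hlhs, ← hW]
  refine hmain.trans ?_
  obtain ⟨S1, hS1⟩ : ∃ S1 : ℝ, S1 = ∑ k ∈ Icc (-(T : ℤ) - 1) T, ‖Mt X M q χ (s (χ, k))‖ := ⟨_, rfl⟩
  obtain ⟨S2, hS2⟩ : ∃ S2 : ℝ, S2 = ∑ k ∈ Icc (-((T + 1 : ℕ) : ℤ)) ((T + 1 : ℕ) : ℤ), ‖Mt X M q χ (s (χ, k))‖ := ⟨_, rfl⟩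
  have h12 : S1 ≤ S2 := by
    rw [hS1, hS2]
    refine Finset.sum_le_sum_of_subset_of_nonneg ?_ (fun _ _ _ => norm_nonneg _)
    intro k hk
    rw [Finset.mem_Icc] at hk ⊢
    push_cast
    omega
  have h10 : 0 ≤ S1 := by rw [hS1]; exact Finset.sum_nonneg fun _ _ => norm_nonneg _
  rw [← Finset.sum_mul, ← hS2]
  show 1 / Real.sqrt (δ + |β|) * (∑ k ∈ Icc (-(T : ℤ) - 1) T, ‖Mt X M q χ (s (χ, k))‖ +
    4 * M ^ 8 * (4 / cr δ β) * Real.exp (-(cr δ β / 2 * T))) ≤ _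
  rw [← hS1]
  have hE0 : 0 < Real.exp (-(M ^ ε / 32)) := Real.exp_pos _
  have hsW : 0 < Real.sqrt W := Real.sqrt_pos.2 (by linarith)
  have hr1 : 4 * M ^ 8 * (4 / cr δ β) * Real.exp (-(cr δ β / 2 * T)) ≤ 4 * M ^ 8 * (64 * W) * Real.exp (-(M ^ ε / 32)) := by
    gcongr
  have hWT : W ≤ M ^ 8 := by
    have h1 : 1 ≤ M ^ ε := Real.one_le_rpow hM hε.le
    have h2 : W ≤ M ^ ε * W := le_mul_of_one_le_left (by linarith) h1
    rw [← hW] at hT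
    linarith
  have hsM : Real.sqrt M ≤ M := by
    rw [Real.sqrt_le_left hM0.le]
    nlinarith
  have hsW1 : 1 ≤ Real.sqrt W := Real.one_le_sqrt.2 hW1
  have htail : 2 / Real.sqrt W * Real.sqrt M * (4 * M ^ 8 * (64 * W) * Real.exp (-(M ^ ε / 32))) ≤ 512 * C / M ^ 2 := by
    have g1 : 2 / Real.sqrt W ≤ 2 := div_le_self (by norm_num) hsW1
    calc 2 / Real.sqrt W * Real.sqrt M * (4 * M ^ 8 * (64 * W) * Real.exp (-(M ^ ε / 32))) ≤
          2 * M * (4 * M ^ 8 * (64 * M ^ 8) * Real.exp (-(M ^ ε / 32))) := by gcongr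
      _ = 512 * (M ^ 19 * Real.exp (-(M ^ ε / 32))) / M ^ 2 := by
          rw [eq_div_iff (by positivity)]
          ring
      _ ≤ 512 * C / M ^ 2 := by
          have := hsmall M hM
          gcongr
  calc 1 / Real.sqrt (δ + |β|) * (S1 + 4 * M ^ 8 * (4 / cr δ β) * Real.exp (-(cr δ β / 2 * T))) ≤
        (2 / Real.sqrt W * Real.sqrt M) * (S2 + 4 * M ^ 8 * (64 * W) * Real.exp (-(M ^ ε / 32))) := by
        gcongr
    _ = 2 / Real.sqrt W * (S2 * Real.sqrt M) + 2 / Real.sqrt W * Real.sqrt M * (4 * M ^ 8 * (64 * W) * Real.exp (-(M ^ ε / 32))) := by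
        ring
    _ ≤ _ := by linarith

end Pool.Helper5.WB
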